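import Mathlib

set_option autoImplicit false

open Set Topology Filter

namespace Pool.Agent.R610.Delta

/-- Delta-system lemma for uncountable families of finite sets of bounded size. -/
theorem delta_card {T I : Type*} (F : I → Finset T) (n : ℕ) :
    ∀ (J : Set I), ¬ J.Countable → (∀ i ∈ J, (F i).card ≤ n) →
      ∃ (J' : Set I) (R : Finset T), J' ⊆ J ∧ ¬ J'.Countable ∧
        (∀ i ∈ J', R ⊆ F i) ∧ ∀ i ∈ J', ∀ j ∈ J', i ≠ j → ∀ t ∈ F i, t ∈ F j → t ∈ R := by
  classical
  induction n generalizing F with
  | zero =>
    intro J hJ hc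
    refine ⟨J, ∅, le_refl _, hJ, by simp, ?_⟩
    intro i hi j _ _ t ht
    have := hc i hi
    simp at this
    rw [this] at ht
    simp at ht
  | succ n ih =>
    intro J hJ hc
    by_cases hex : ∃ t, ¬ {i ∈ J | t ∈ F i}.Countable
    · obtain ⟨t, ht⟩ := hex
      obtain ⟨J', R, h1, h2, h3, h4⟩ := ih (fun i => (F i).erase t) {i ∈ J | t ∈ F i} ht (by
        intro i hi
        have := hc i hi.1
        rw [Finset.card_erase_of_mem hi.2]
        omega)
      refine ⟨J', insert t R, fun i hi => (h1 hi).1, h2, ?_, ?_⟩
      · intro i hi x hx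
        rcases Finset.mem_insert.mp hx with rfl | hx
        · exact (h1 hi).2
        · exact Finset.mem_of_mem_erase (h3 i hi hx)
      · intro i hi j hj hij x hxi hxj
        by_cases hxt : x = t
        · subst hxt; exact Finset.mem_insert_self _ _
        · exact Finset.mem_insert_of_mem (h4 i hi j hj hij x (Finset.mem_erase.mpr ⟨hxt, hxi⟩)
            (Finset.mem_erase.mpr ⟨hxt, hxj⟩))
    · push Not at hex
      obtain ⟨J', hJ', hmax⟩ : ∃ J' : Set I, Maximal (fun J' : Set I => J' ⊆ J ∧
          ∀ i ∈ J', ∀ j ∈ J', i ≠ j → Disjoint (F i) (F j)) J' := by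
        apply zorn_subset
        intro c hc1 hc2
        refine ⟨⋃₀ c, ⟨?_, ?_⟩, ?_⟩
        · exact sUnion_subset fun s hs => (hc1 hs).1
        · rintro i ⟨s, hs, his⟩ j ⟨s', hs', hjs'⟩ hij
          rcases hc2.total hs hs' with h | h
          · exact (hc1 hs').2 i (h his) j hjs' hij
          · exact (hc1 hs).2 i his j (h hjs') hij
        · intro s hs
          exact subset_sUnion_of_mem hs
      refine ⟨J', ∅, hJ'.1, ?_, by simp, ?_⟩
      · intro hcount
        apply hJ
        have hcov : J ⊆ J' ∪ ⋃ j ∈ J', ⋃ t ∈ (F j : Set T), {i ∈ J | t ∈ F i} := by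
          intro i hi
          by_contra hni
          simp only [mem_union, mem_iUnion, not_or, not_exists] at hni
          obtain ⟨hni1, hni2⟩ := hni
          have hins : insert i J' ⊆ J' := by
            apply hmax (y := insert i J')
            · refine ⟨insert_subset hi hJ'.1, ?_⟩
              have key : ∀ j ∈ J', Disjoint (F i) (F j) := by
                intro j hj
                rw [Finset.disjoint_left]
                intro t ht1 ht2
                exact hni2 j hj t (by simpa using ht2) ⟨hi, ht1⟩
              rintro a (rfl | ha) b (rfl | hb) hab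
              · exact absurd rfl hab
              · exact key b hb
              · exact (key a ha).symm
              · exact hJ'.2 a ha b hb hab
            · exact subset_insert _ _
          exact hni1 (hins (mem_insert _ _))
        refine Countable.mono hcov (hcount.union ?_)
        refine hcount.biUnion fun j _ => ?_
        exact (Finset.countable_toSet _).biUnion fun t _ => hex t
      · intro i hi j hj hij t h1 h2
        exact absurd h2 (Finset.disjoint_left.mp (hJ'.2 i hi j hj hij) h1)

/-- Delta-system lemma for uncountable families of finite sets. -/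
theorem delta_system {T I : Type*} (F : I → Finset T) (J : Set I) (hJ : ¬ J.Countable) :
      ∃ (J' : Set I) (R : Finset T), J' ⊆ J ∧ ¬ J'.Countable ∧
        (∀ i ∈ J', R ⊆ F i) ∧ ∀ i ∈ J', ∀ j ∈ J', i ≠ j → ∀ t ∈ F i, t ∈ F j → t ∈ R := by
  have : ∃ n : ℕ, ¬ {i ∈ J | (F i).card ≤ n}.Countable := by
    by_contra h
    push Not at h
    apply hJ
    refine Countable.mono ?_ (countable_iUnion h)
    intro i hi
    exact mem_iUnion.mpr ⟨(F i).card, hi, le_refl _⟩
  obtain ⟨n, hn⟩ := this
  obtain ⟨J', R, h1, h2, h3, h4⟩ := delta_card F n _ hn (fun i hi => hi.2)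
  exact ⟨J', R, fun i hi => (h1 hi).1, h2, h3, h4⟩

/-- pigeonhole for uncountable sets -/
theorem uncountable_fiber {I C : Type*} [Countable C] (f : I → C) (J : Set I)
    (hJ : ¬ J.Countable) : ∃ c, ¬ {i ∈ J | f i = c}.Countable := by
  by_contra h
  push Not at h
  apply hJ
  refine Countable.mono ?_ (countable_iUnion h)
  intro i hi
  exact mem_iUnion.mpr ⟨f i, hi, rfl⟩

/-- pigeonhole for uncountable sets, relational version -/
theorem uncountable_fiber' {I C : Type*} [Countable C] (r : I → C → Prop) (J : Set I)
    (hJ : ¬ J.Countable) (hr : ∀ i ∈ J, ∃ c, r i c) : ∃ c, ¬ {i ∈ J | r i c}.Countable := by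
  by_contra h
  push Not at h
  apply hJ
  refine Countable.mono ?_ (countable_iUnion h)
  intro i hi
  obtain ⟨c, hc⟩ := hr i hi
  exact mem_iUnion.mpr ⟨c, hi, hc⟩

end Pool.Agent.R610.Delta
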