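import Pool.Agent.R610.Delta

open Set Filter

namespace Pool.Agent.R610.IMed

open Pool.Agent.R610.Delta

section step

variable {Ξ : Type} (φ : Ξ → ℕ → ℕ)

/-- the set described by a condition -/
def Box (s : Finset Ξ) (c : Ξ → ℕ) : Set ℕ := {n | ∀ x ∈ s, φ x n = c x}

/-- independence of a set of functions modulo a filter -/
def Ind (F : Filter ℕ) (X : Set Ξ) : Prop :=
  ∀ s : Finset Ξ, (↑s : Set Ξ) ⊆ X → ∀ c : Ξ → ℕ, ∀ A ∈ F, (Box φ s c ∩ A).Nonempty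

/-- the filter generated by `F` and the sets on which `φ ξ` differs from a member of `E` -/
def avoid (F : Filter ℕ) (E : Set (ℕ → ℕ)) (ξ : Ξ) : Filter ℕ where
  sets := {A | ∃ B ∈ F, ∃ S : Finset (ℕ → ℕ), (↑S : Set (ℕ → ℕ)) ⊆ E ∧
    ∀ n ∈ B, (∀ f ∈ S, φ ξ n ≠ f n) → n ∈ A}
  univ_sets := ⟨univ, univ_mem, ∅, by simp, fun n _ _ => mem_univ n⟩
  sets_of_superset := by
    rintro A A' ⟨B, hB, S, hS, h⟩ hAA'
    exact ⟨B, hB, S, hS, fun n hn hf => hAA' (h n hn hf)⟩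
  inter_sets := by
    classical
    rintro A A' ⟨B, hB, S, hS, h⟩ ⟨B', hB', S', hS', h'⟩
    refine ⟨B ∩ B', inter_mem hB hB', S ∪ S', ?_, fun n hn hf => ⟨h n hn.1 ?_, h' n hn.2 ?_⟩⟩
    · rw [Finset.coe_union]; exact union_subset hS hS'
    · exact fun f hfS => hf f (Finset.mem_union_left _ hfS)
    · exact fun f hfS => hf f (Finset.mem_union_right _ hfS)

theorem avoid_le (F : Filter ℕ) (E : Set (ℕ → ℕ)) (ξ : Ξ) : avoid φ F E ξ ≤ F := by
  intro A hA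
  exact ⟨A, hA, ∅, by simp, fun n hn _ => hn⟩

theorem mem_avoid (F : Filter ℕ) (E : Set (ℕ → ℕ)) (ξ : Ξ) (f : ℕ → ℕ) (hf : f ∈ E) :
    {n | φ ξ n ≠ f n} ∈ avoid φ F E ξ :=
  ⟨univ, univ_mem, {f}, by simpa using hf, fun n _ h => h f (by simp)⟩

/-- Case 2 hypothesis: no condition forces agreement of two members of `E`. -/
def Case2 (F : Filter ℕ) (X : Set Ξ) (E : Set (ℕ → ℕ)) : Prop :=
  ∀ (s : Finset Ξ) (c : Ξ → ℕ), (↑s : Set Ξ) ⊆ X → ∀ f ∈ E, ∀ g ∈ E, f ≠ g →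
    ∃ (t : Finset Ξ) (c' : Ξ → ℕ), (↑t : Set Ξ) ⊆ X ∧ s ⊆ t ∧ (∀ x ∈ s, c' x = c x) ∧
      ∃ A ∈ F, ∀ n ∈ Box φ t c', n ∈ A → f n ≠ g n

theorem case_split (F : Filter ℕ) (X : Set Ξ) (E : Set (ℕ → ℕ)) :
    (∃ (s : Finset Ξ) (c : Ξ → ℕ) (f g : ℕ → ℕ), (↑s : Set Ξ) ⊆ X ∧ f ∈ E ∧ g ∈ E ∧ f ≠ g ∧
      Ind φ (F ⊓ 𝓟 (Box φ s c ∩ {n | f n = g n})) (X \ ↑s)) ∨ Case2 φ F X E := by
  classical
  by_cases h : (∃ (s : Finset Ξ) (c : Ξ → ℕ) (f g : ℕ → ℕ), (↑s : Set Ξ) ⊆ X ∧ f ∈ E ∧ g ∈ E ∧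
      f ≠ g ∧ Ind φ (F ⊓ 𝓟 (Box φ s c ∩ {n | f n = g n})) (X \ ↑s))
  · exact Or.inl h
  · right
    intro s c hs f hf g hg hfg
    have h1 : ¬ Ind φ (F ⊓ 𝓟 (Box φ s c ∩ {n | f n = g n})) (X \ ↑s) := fun hI =>
      h ⟨s, c, f, g, hs, hf, hg, hfg, hI⟩
    unfold Ind at h1
    push Not at h1
    obtain ⟨t, ht, c', A, hA, hne⟩ := h1
    rw [mem_inf_principal] at hA
    refine ⟨s ∪ t, fun x => if x ∈ s then c x else c' x, ?_, Finset.subset_union_left, ?_,
      _, hA, ?_⟩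
    · rw [Finset.coe_union]
      exact union_subset hs (fun x hx => (ht hx).1)
    · intro x hx
      exact if_pos hx
    · intro n hn hnA hfgn
      have hns : n ∈ Box φ s c := by
        intro x hx
        have := hn x (Finset.mem_union_left _ hx)
        exact this.trans (if_pos hx)
      have hnt : n ∈ Box φ t c' := by
        intro x hx
        have h2 := hn x (Finset.mem_union_right _ hx)
        have h3 : x ∉ s := fun hxs => (ht hx).2 hxs
        exact h2.trans (if_neg h3)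
      have h4 : n ∈ A := hnA ⟨hns, hfgn⟩
      have h5 : n ∈ Box φ t c' ∩ A := ⟨hnt, h4⟩
      rw [hne] at h5
      exact h5

theorem case2_iter {F : Filter ℕ} {X : Set Ξ} {E : Set (ℕ → ℕ)} (h2 : Case2 φ F X E)
    (P : Finset ((ℕ → ℕ) × (ℕ → ℕ))) (hP : ∀ q ∈ P, q.1 ∈ E ∧ q.2 ∈ E ∧ q.1 ≠ q.2)
    (s : Finset Ξ) (c : Ξ → ℕ) (hs : (↑s : Set Ξ) ⊆ X) :
    ∃ (t : Finset Ξ) (c' : Ξ → ℕ), (↑t : Set Ξ) ⊆ X ∧ s ⊆ t ∧ (∀ x ∈ s, c' x = c x) ∧
      ∃ A ∈ F, ∀ n ∈ Box φ t c', n ∈ A → ∀ q ∈ P, q.1 n ≠ q.2 n := by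
  classical
  induction P using Finset.induction_on with
  | empty => exact ⟨s, c, hs, le_rfl, fun _ _ => rfl, univ, univ_mem, by simp⟩
  | insert q P hq ih =>
    obtain ⟨t, c', ht, hst, hc, A, hA, hn⟩ := ih (fun q hq => hP q (Finset.mem_insert_of_mem hq))
    obtain ⟨h1, h3, h4⟩ := hP q (Finset.mem_insert_self _ _)
    obtain ⟨u, c'', hu, htu, hc', A', hA', hn'⟩ := h2 t c' ht q.1 h1 q.2 h3 h4
    refine ⟨u, c'', hu, hst.trans htu, ?_, A ∩ A', inter_mem hA hA', ?_⟩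
    · intro x hx
      rw [hc' x (hst hx), hc x hx]
    · intro n hnb hnA q' hq'
      rcases Finset.mem_insert.1 hq' with rfl | hq'
      · exact hn' n hnb hnA.2
      · apply hn n ?_ hnA.1 q' hq'
        intro x hx
        rw [hnb x (htu hx), hc' x hx]

/-- In case 2 some function can be made different from all members of `E`. -/
theorem case2_good {F : Filter ℕ} {X : Set Ξ} (hX : ¬ X.Countable) (hI : Ind φ F X)
    {E : Set (ℕ → ℕ)} (h2 : Case2 φ F X E) : ∃ ξ ∈ X, Ind φ (avoid φ F E ξ) (X \ {ξ}) := by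
  classical
  by_contra hcon
  push Not at hcon
  have hbad : ∀ ξ : Ξ, ∃ (s : Finset Ξ) (c : Ξ → ℕ) (S : Finset (ℕ → ℕ)) (B : Set ℕ),
      ξ ∈ X → ((↑s : Set Ξ) ⊆ X \ {ξ} ∧ (↑S : Set (ℕ → ℕ)) ⊆ E ∧ B ∈ F ∧
        ∀ n ∈ Box φ s c, n ∈ B → ∃ f ∈ S, φ ξ n = f n) := by
    intro ξ
    by_cases hξ : ξ ∈ X
    · have h1 := hcon ξ hξ
      unfold Ind at h1
      push Not at h1
      obtain ⟨s, hs, c, A, ⟨B, hB, S, hS, hBS⟩, hne⟩ := h1
      refine ⟨s, c, S, B, fun _ => ⟨hs, hS, hB, fun n hn hnB => ?_⟩⟩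
      by_contra hno
      push Not at hno
      have h3 : n ∈ Box φ s c ∩ A := ⟨hn, hBS n hnB hno⟩
      rw [hne] at h3
      exact h3
    · exact ⟨∅, fun _ => 0, ∅, ∅, fun h => absurd h hξ⟩
  choose s c S B hb using hbad
  -- delta system
  obtain ⟨J, R, hJ1, hJ2, _, hJ4⟩ := delta_system
    (fun ξ : Ξ => (insert ξ (s ξ)).disjSum (S ξ)) X hX
  -- constant values on the root
  set RX : Finset Ξ := R.toLeft with hRX
  set RS : Finset (ℕ → ℕ) := R.toRight with hRS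
  obtain ⟨v, hv⟩ := uncountable_fiber (fun ξ : Ξ => fun x : RX => c ξ x) J hJ2
  have hJ' : ({ξ ∈ J | (fun x : RX => c ξ x) = v} \ (↑RX : Set Ξ)).Infinite := by
    intro hfin
    apply hv
    have : {ξ ∈ J | (fun x : RX => c ξ x) = v} ⊆
        ({ξ ∈ J | (fun x : RX => c ξ x) = v} \ (↑RX : Set Ξ)) ∪ (↑RX : Set Ξ) := by
      intro ξ hξ
      by_cases h : ξ ∈ (↑RX : Set Ξ)
      · right; exact h
      · left; exact ⟨hξ, h⟩
    exact (hfin.countable.union (Finset.countable_toSet RX)).mono this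
  set e := hJ'.natEmbedding with he
  set u : ℕ → Ξ := fun i => (e i : Ξ) with hu
  have hu_inj : Function.Injective u := fun i j hij => e.injective (Subtype.ext hij)
  have huJ : ∀ i, u i ∈ J := fun i => (e i).2.1.1
  have huX : ∀ i, u i ∈ X := fun i => hJ1 (huJ i)
  have huv : ∀ i, (fun x : RX => c (u i) x) = v := fun i => (e i).2.1.2
  have huR : ∀ i, u i ∉ RX := fun i h => (e i).2.2 h
  have hroot : ∀ i j, i ≠ j → ∀ x, x ∈ insert (u i) (s (u i)) → x ∈ insert (u j) (s (u j)) →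
      x ∈ RX := by
    intro i j hij x hx hx'
    rw [hRX, Finset.mem_toLeft]
    exact hJ4 (u i) (huJ i) (u j) (huJ j) (fun h => hij (hu_inj h)) (Sum.inl x)
      (Finset.inl_mem_disjSum.2 hx) (Finset.inl_mem_disjSum.2 hx')
  have hrootS : ∀ i j, i ≠ j → ∀ f, f ∈ S (u i) → f ∈ S (u j) → f ∈ RS := by
    intro i j hij f hx hx'
    rw [hRS, Finset.mem_toRight]
    exact hJ4 (u i) (huJ i) (u j) (huJ j) (fun h => hij (hu_inj h)) (Sum.inr f)
      (Finset.inr_mem_disjSum.2 hx) (Finset.inr_mem_disjSum.2 hx')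
  set r := RS.card with hr
  set N := 2 * (r + 1) with hN
  -- the combined condition
  let s0 : Finset Ξ := (Finset.range N).biUnion (fun i => insert (u i) (s (u i)))
  let c0 : Ξ → ℕ := fun x => if h : ∃ i, u i = x then (Classical.choose h) / 2 else
    if h' : ∃ i, x ∈ s (u i) then c (u (Classical.choose h')) x else 0
  have hc0u : ∀ i, c0 (u i) = i / 2 := by
    intro i
    have h : ∃ j, u j = u i := ⟨i, rfl⟩
    have h1 : Classical.choose h = i := hu_inj (Classical.choose_spec h)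
    simp only [c0]
    rw [dif_pos h, h1]
  have hnotu : ∀ i x, x ∈ s (u i) → ∀ k, u k ≠ x := by
    intro i x hx k hk
    by_cases hki : k = i
    · subst hki
      have h3 := ((hb (u k)) (huX k)).1 hx
      exact h3.2 hk.symm
    · have := hroot k i hki x (by rw [← hk]; exact Finset.mem_insert_self _ _)
        (Finset.mem_insert_of_mem hx)
      rw [← hk] at this
      exact huR k this
  have hc0s : ∀ i x, x ∈ s (u i) → c0 x = c (u i) x := by
    intro i x hx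
    have h : ¬ ∃ k, u k = x := fun ⟨k, hk⟩ => hnotu i x hx k hk
    have h' : ∃ j, x ∈ s (u j) := ⟨i, hx⟩
    simp only [c0]
    rw [dif_neg h, dif_pos h']
    have h1 := Classical.choose_spec h'
    set j := Classical.choose h' with hj
    by_cases hji : j = i
    · rw [hji]
    · have hxR := hroot j i hji x (Finset.mem_insert_of_mem h1) (Finset.mem_insert_of_mem hx)
      have h3 := congrFun (huv j) ⟨x, hxR⟩
      have h4 := congrFun (huv i) ⟨x, hxR⟩
      exact h3.trans h4.symm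
  have hs0 : (↑s0 : Set Ξ) ⊆ X := by
    intro x hx
    rw [Finset.mem_coe, Finset.mem_biUnion] at hx
    obtain ⟨i, _, hx⟩ := hx
    rcases Finset.mem_insert.1 hx with rfl | hx
    · exact huX i
    · exact (((hb (u i)) (huX i)).1 hx).1
  let P : Finset ((ℕ → ℕ) × (ℕ → ℕ)) := ((Finset.range N ×ˢ Finset.range N).biUnion
    (fun q => S (u q.1) ×ˢ S (u q.2))).filter (fun q => q.1 ≠ q.2)
  have hP : ∀ q ∈ P, q.1 ∈ E ∧ q.2 ∈ E ∧ q.1 ≠ q.2 := by
    intro q hq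
    rw [Finset.mem_filter, Finset.mem_biUnion] at hq
    obtain ⟨⟨i, _, hq1⟩, hq2⟩ := hq
    rw [Finset.mem_product] at hq1
    exact ⟨((hb (u i.1)) (huX i.1)).2.1 hq1.1, ((hb (u i.2)) (huX i.2)).2.1 hq1.2, hq2⟩
  obtain ⟨t, c', ht, hst, hc, A, hA, hn⟩ := case2_iter φ h2 P hP s0 c0 hs0
  have hBs : (⋂ i ∈ Finset.range N, B (u i)) ∈ F := by
    rw [biInter_finset_mem]
    intro i _
    exact ((hb (u i)) (huX i)).2.2.1
  obtain ⟨n, hn1, hn2, hn3⟩ := hI t ht c' (A ∩ ⋂ i ∈ Finset.range N, B (u i)) (inter_mem hA hBs)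
  have hval : ∀ i, i < N → ∃ f ∈ S (u i), f n = i / 2 := by
    intro i hi
    have hnB : n ∈ B (u i) := by
      rw [mem_iInter₂] at hn3
      exact hn3 i (Finset.mem_range.2 hi)
    have hmem : ∀ x, x ∈ insert (u i) (s (u i)) → x ∈ s0 := fun x hx =>
      Finset.mem_biUnion.2 ⟨i, Finset.mem_range.2 hi, hx⟩
    have hbox : n ∈ Box φ (s (u i)) (c (u i)) := by
      intro x hx
      have h3 := hmem x (Finset.mem_insert_of_mem hx)
      rw [hn1 x (hst h3), hc x h3, hc0s i x hx]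
    obtain ⟨f, hf1, hf2⟩ := ((hb (u i)) (huX i)).2.2.2 n hbox hnB
    refine ⟨f, hf1, ?_⟩
    have h3 := hmem (u i) (Finset.mem_insert_self _ _)
    rw [← hf2, hn1 (u i) (hst h3), hc _ h3, hc0u]
  have hval' : ∀ i, ∃ f, i < N → (f ∈ S (u i) ∧ f n = i / 2) := by
    intro i
    by_cases hi : i < N
    · obtain ⟨f, hf⟩ := hval i hi
      exact ⟨f, fun _ => hf⟩
    · exact ⟨fun _ => 0, fun h => absurd h hi⟩
  choose ff hff using hval'
  have hRSmem : ∀ j, j < r + 1 → ff (2 * j) ∈ RS := by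
    intro j hj
    obtain ⟨h1, h1'⟩ := hff (2 * j) (by omega)
    obtain ⟨h3, h3'⟩ := hff (2 * j + 1) (by omega)
    have heq : ff (2 * j) = ff (2 * j + 1) := by
      by_contra hne
      have hmem : (ff (2 * j), ff (2 * j + 1)) ∈ P := by
        rw [Finset.mem_filter, Finset.mem_biUnion]
        refine ⟨⟨(2 * j, 2 * j + 1), ?_, ?_⟩, hne⟩
        · rw [Finset.mem_product, Finset.mem_range, Finset.mem_range]
          exact ⟨by omega, by omega⟩
        · rw [Finset.mem_product]; exact ⟨h1, h3⟩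
      apply hn n hn1 hn2 _ hmem
      show ff (2 * j) n = ff (2 * j + 1) n
      rw [h1', h3']
      omega
    rw [← heq] at h3
    exact hrootS (2 * j) (2 * j + 1) (by omega) _ h1 h3
  have hcard : (Finset.range (r + 1)).card ≤ RS.card := by
    apply Finset.card_le_card_of_injOn (fun j => ff (2 * j))
    · intro j hj
      rw [Finset.mem_coe, Finset.mem_range] at hj
      exact hRSmem j hj
    · intro j hj k hk hjk
      rw [Finset.mem_coe, Finset.mem_range] at hj hk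
      have h1 := (hff (2 * j) (by omega)).2
      have h3 := (hff (2 * k) (by omega)).2
      have h4 : ff (2 * j) n = ff (2 * k) n := congrFun hjk n
      omega
  rw [Finset.card_range] at hcard
  omega

/-- One step of the recursion. -/
theorem one_step (E : Set (ℕ → ℕ)) (F : Filter ℕ) (X : Set Ξ) (hX : ¬ X.Countable)
    (hI : Ind φ F X) : ∃ (F' : Filter ℕ) (X' : Set Ξ), F' ≤ F ∧ X' ⊆ X ∧ (X \ X').Countable ∧
      Ind φ F' X' ∧ ((∃ f ∈ E, ∃ g ∈ E, f ≠ g ∧ {n | f n = g n} ∈ F') ∨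
        ∃ h : ℕ → ℕ, ∀ f ∈ E, {n | h n ≠ f n} ∈ F') := by
  rcases case_split φ F X E with ⟨s, c, f, g, hs, hf, hg, hfg, hInd⟩ | h2
  · refine ⟨F ⊓ 𝓟 (Box φ s c ∩ {n | f n = g n}), X \ ↑s, inf_le_left, sdiff_subset, ?_, hInd,
      Or.inl ⟨f, hf, g, hg, hfg, ?_⟩⟩
    · refine (Finset.countable_toSet s).mono ?_
      intro x hx
      by_contra hxs
      exact hx.2 ⟨hx.1, hxs⟩
    · apply mem_inf_of_right
      rw [mem_principal]
      exact fun n hn => hn.2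
  · obtain ⟨ξ, hξ, hInd⟩ := case2_good φ hX hI h2
    refine ⟨avoid φ F E ξ, X \ {ξ}, avoid_le φ F E ξ, sdiff_subset, ?_, hInd,
      Or.inr ⟨φ ξ, fun f hf => mem_avoid φ F E ξ f hf⟩⟩
    refine (Set.countable_singleton ξ).mono ?_
    intro x hx
    by_contra hxs
    exact hx.2 ⟨hx.1, hxs⟩

end step

end Pool.Agent.R610.IMed
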