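import Mathlib

open Set Topology Filter

namespace Pool.Agent.R610.Lift

/-- Baire space -/
abbrev BS := ℕ → ℕ

/-- the graph of `Y` is closed -/
def ClosedGraph (Y : BS → BS) : Prop := IsClosed {p : BS × BS | p.2 = Y p.1}

/-- the indicator of `A` can be read off a function with closed graph -/
def Liftable (A : Set BS) : Prop := ∃ Y : BS → BS, ClosedGraph Y ∧ ∀ x, x ∈ A ↔ Y x 0 ≠ 0

theorem continuous_evalAt {Z : Type*} [TopologicalSpace Z] {F : Z → BS} {k : Z → ℕ}
    (hF : Continuous F) (hk : Continuous k) : Continuous fun z => F z (k z) := by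
  have h : Continuous (fun p : BS × ℕ => p.1 p.2) := by
    rw [continuous_prod_of_discrete_right]
    intro b; exact continuous_apply b
  exact h.comp (hF.prodMk hk)

theorem isClosed_rel {Z : Type*} [TopologicalSpace Z] (P : ℕ → ℕ → Prop) {a b : Z → ℕ}
    (ha : Continuous a) (hb : Continuous b) : IsClosed {z | P (a z) (b z)} :=
  (isClosed_discrete {q : ℕ × ℕ | P q.1 q.2}).preimage (ha.prodMk hb)

theorem closedGraph_of_continuous {Y : BS → BS} (hY : Continuous Y) : ClosedGraph Y :=
  isClosed_eq continuous_snd (hY.comp continuous_fst)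

/-- if `P` is continuous with continuous left inverse then `P ∘ Y` has closed graph -/
theorem closedGraph_comp {Y : BS → BS} (hY : ClosedGraph Y) {P Q : BS → BS} (hP : Continuous P)
    (hQ : Continuous Q) (hQP : ∀ y, Q (P y) = y) : ClosedGraph (fun x => P (Y x)) := by
  have h : {p : BS × BS | p.2 = P (Y p.1)} =
      {p : BS × BS | (p.1, Q p.2) ∈ {p : BS × BS | p.2 = Y p.1}} ∩
      {p : BS × BS | P (Q p.2) = p.2} := by
    ext ⟨x, w⟩
    simp only [mem_inter_iff, mem_ofPred_eq]
    constructor
    · rintro rfl
      exact ⟨hQP _, by rw [hQP]⟩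
    · rintro ⟨h1, h2⟩
      rw [← h1, h2]
  unfold ClosedGraph
  rw [h]
  apply IsClosed.inter
  · exact IsClosed.preimage (continuous_fst.prodMk (hQ.comp continuous_snd)) hY
  · exact isClosed_eq (hP.comp (hQ.comp continuous_snd)) continuous_snd

theorem liftable_cyl (i : ℕ) (s : Set ℕ) : Liftable {x : BS | x i ∈ s} := by
  classical
  refine ⟨fun x _ => if x i ∈ s then 1 else 0, closedGraph_of_continuous ?_, fun x => ?_⟩
  · refine continuous_pi fun _ => ?_
    exact (continuous_of_discreteTopology (f := fun m : ℕ => if m ∈ s then 1 else 0)).comp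
      (continuous_apply i)
  · by_cases h : x i ∈ s
    · simp [h]
    · simp [h]

theorem liftable_compl (A : Set BS) (hA : Liftable A) : Liftable Aᶜ := by
  obtain ⟨Y, hY, hYA⟩ := hA
  let Z : BS → BS := fun x t => match t with
    | 0 => if Y x 0 = 0 then 1 else 0
    | (t + 1) => Y x t
  refine ⟨Z, ?_, ?_⟩
  · have h : {p : BS × BS | p.2 = Z p.1} =
        {p : BS × BS | (p.1, fun t => p.2 (t + 1)) ∈ {p : BS × BS | p.2 = Y p.1}} ∩
        {p : BS × BS | p.2 0 = if p.2 1 = 0 then 1 else 0} := by
      ext ⟨x, w⟩
      simp only [mem_inter_iff, mem_ofPred_eq]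
      constructor
      · rintro rfl
        exact ⟨rfl, rfl⟩
      · rintro ⟨h1, h2⟩
        funext t
        match t with
        | 0 =>
          show w 0 = if Y x 0 = 0 then 1 else 0
          rw [← h1]; exact h2
        | (t + 1) =>
          show w (t + 1) = Y x t
          rw [← h1]
    unfold ClosedGraph
    rw [h]
    apply IsClosed.inter
    · refine IsClosed.preimage (continuous_fst.prodMk (continuous_pi fun t => ?_)) hY
      exact (continuous_apply (t + 1)).comp continuous_snd
    · exact isClosed_rel (fun a b => a = if b = 0 then 1 else 0)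
        ((continuous_apply 0).comp continuous_snd) ((continuous_apply 1).comp continuous_snd)
  · intro x
    rw [mem_compl_iff, hYA x]
    show ¬ (Y x 0 ≠ 0) ↔ (if Y x 0 = 0 then 1 else 0) ≠ 0
    by_cases h : Y x 0 = 0
    · simp [h]
    · simp [h]

theorem liftable_iUnion (A : ℕ → Set BS) (hA : ∀ n, Liftable (A n)) : Liftable (⋃ n, A n) := by
  classical
  choose Y hY hYA using hA
  let N : BS → ℕ := fun x => if h : ∃ n, x ∈ A n then Nat.find h + 1 else 0
  let Z : BS → BS := fun x t => match t with
    | 0 => N x
    | (t + 1) => Y (Nat.unpair t).1 x (Nat.unpair t).2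
  have hcol : ∀ x n t, Z x (Nat.pair n t + 1) = Y n x t := by
    intro x n t
    show Y (Nat.unpair (Nat.pair n t)).1 x (Nat.unpair (Nat.pair n t)).2 = Y n x t
    rw [Nat.unpair_pair]
  have hcont : ∀ k, Continuous (fun p : BS × BS => p.2 k) := fun k =>
    (continuous_apply k).comp continuous_snd
  refine ⟨Z, ?_, ?_⟩
  · have h : {p : BS × BS | p.2 = Z p.1} =
        (⋂ n, {p : BS × BS | (p.1, fun t => p.2 (Nat.pair n t + 1)) ∈
          {p : BS × BS | p.2 = Y n p.1}}) ∩
        ((⋂ n, {p : BS × BS | p.2 0 = 0 → p.2 (Nat.pair n 0 + 1) = 0}) ∩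
        ((⋂ n, {p : BS × BS | p.2 0 = n + 1 → p.2 (Nat.pair n 0 + 1) ≠ 0}) ∩
        (⋂ n, ⋂ j, {p : BS × BS | p.2 0 = n + 1 → (j < n → p.2 (Nat.pair j 0 + 1) = 0)}))) := by
      ext ⟨x, w⟩
      simp only [mem_inter_iff, mem_ofPred_eq, mem_iInter]
      constructor
      · rintro rfl
        refine ⟨fun n => funext fun t => hcol x n t, fun n hn => ?_, fun n hn => ?_,
          fun n j hn hj => ?_⟩
        · rw [hcol]
          by_contra hne
          have hx : x ∈ A n := (hYA n x).2 hne
          have : N x = 0 := hn
          simp only [N] at this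
          rw [dif_pos ⟨n, hx⟩] at this
          omega
        · rw [hcol]
          have hN : N x = n + 1 := hn
          simp only [N] at hN
          by_cases hex : ∃ n, x ∈ A n
          · rw [dif_pos hex] at hN
            have h1 := Nat.find_spec hex
            have h2 : Nat.find hex = n := by omega
            rw [h2] at h1
            exact (hYA n x).1 h1
          · rw [dif_neg hex] at hN; omega
        · rw [hcol]
          have hN : N x = n + 1 := hn
          simp only [N] at hN
          by_cases hex : ∃ n, x ∈ A n
          · rw [dif_pos hex] at hN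
            have h2 : Nat.find hex = n := by omega
            by_contra hne
            have hx : x ∈ A j := (hYA j x).2 hne
            have := Nat.find_min' hex hx
            omega
          · rw [dif_neg hex] at hN; omega
      · rintro ⟨h1, h2, h3, h4⟩
        have h1' : ∀ n t, w (Nat.pair n t + 1) = Y n x t := fun n t => congrFun (h1 n) t
        funext t
        match t with
        | 0 =>
          show w 0 = N x
          simp only [N]
          by_cases hex : ∃ n, x ∈ A n
          · rw [dif_pos hex]
            have hf := Nat.find_spec hex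
            rcases Nat.eq_zero_or_pos (w 0) with h0 | h0
            · have := h2 (Nat.find hex) h0
              rw [h1'] at this
              exact absurd this ((hYA _ x).1 hf)
            · obtain ⟨m, hm⟩ : ∃ m, w 0 = m + 1 := ⟨w 0 - 1, by omega⟩
              have h5 := h3 m hm
              rw [h1'] at h5
              have h6 : x ∈ A m := (hYA m x).2 h5
              have h7 := Nat.find_min' hex h6
              rcases Nat.lt_or_ge (Nat.find hex) m with hlt | hge
              · have h8 := h4 m (Nat.find hex) hm hlt
                rw [h1'] at h8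
                exact absurd h8 ((hYA _ x).1 hf)
              · omega
          · rw [dif_neg hex]
            by_contra h0
            obtain ⟨m, hm⟩ : ∃ m, w 0 = m + 1 := ⟨w 0 - 1, by omega⟩
            have h5 := h3 m hm
            rw [h1'] at h5
            exact hex ⟨m, (hYA m x).2 h5⟩
        | (t + 1) =>
          show w (t + 1) = Y (Nat.unpair t).1 x (Nat.unpair t).2
          rw [← h1', Nat.pair_unpair]
    unfold ClosedGraph
    rw [h]
    refine IsClosed.inter (isClosed_iInter fun n => ?_) (IsClosed.inter
      (isClosed_iInter fun n => ?_) (IsClosed.inter (isClosed_iInter fun n => ?_)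
      (isClosed_iInter fun n => isClosed_iInter fun j => ?_)))
    · exact IsClosed.preimage (continuous_fst.prodMk (continuous_pi fun t => hcont _)) (hY n)
    · exact isClosed_rel (fun a b => a = 0 → b = 0) (hcont 0) (hcont _)
    · exact isClosed_rel (fun a b => a = n + 1 → b ≠ 0) (hcont 0) (hcont _)
    · exact isClosed_rel (fun a b => a = n + 1 → (j < n → b = 0)) (hcont 0) (hcont _)
  · intro x
    rw [mem_iUnion]
    show (∃ n, x ∈ A n) ↔ N x ≠ 0
    simp only [N]
    by_cases hex : ∃ n, x ∈ A n
    · rw [dif_pos hex]; simp [hex]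
    · rw [dif_neg hex]; simp [hex]

/-- the σ-algebra of liftable sets -/
@[instance_reducible] def liftSpace : MeasurableSpace BS where
  MeasurableSet' := Liftable
  measurableSet_empty := by
    have := liftable_cyl 0 ∅
    simpa using this
  measurableSet_compl := liftable_compl
  measurableSet_iUnion := liftable_iUnion

theorem liftable_of_measurableSet {A : Set BS} (hA : MeasurableSet A) : Liftable A := by
  have h : (MeasurableSpace.pi : MeasurableSpace BS) ≤ liftSpace := by
    apply iSup_le
    intro i
    rintro s ⟨t, _, rfl⟩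
    exact liftable_cyl i t
  exact h A hA

/-- every measurable function can be read off a function with closed graph -/
theorem exists_lift {Θ : BS → BS} (hΘ : Measurable Θ) :
    ∃ Y : BS → BS, ClosedGraph Y ∧ ∀ x i, Y x (2 * i) = Θ x i := by
  have hmeas : ∀ j : ℕ, Liftable {x | Θ x (Nat.unpair j).1 = (Nat.unpair j).2} := by
    intro j
    apply liftable_of_measurableSet
    exact measurableSet_eq_fun ((measurable_pi_apply _).comp hΘ) measurable_const
  choose Y hY hYA using hmeas
  let Z : BS → BS := fun x t => if t % 2 = 0 then Θ x (t / 2) else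
    Y (Nat.unpair (t / 2)).1 x (Nat.unpair (t / 2)).2
  have hev : ∀ x i, Z x (2 * i) = Θ x i := by
    intro x i
    simp only [Z]
    rw [if_pos (by omega)]
    congr 1
    omega
  have hcol : ∀ x j t, Z x (2 * Nat.pair j t + 1) = Y j x t := by
    intro x j t
    simp only [Z]
    rw [if_neg (by omega)]
    have : (2 * Nat.pair j t + 1) / 2 = Nat.pair j t := by omega
    rw [this, Nat.unpair_pair]
  have hcont : ∀ k, Continuous (fun p : BS × BS => p.2 k) := fun k =>
    (continuous_apply k).comp continuous_snd
  refine ⟨Z, ?_, hev⟩
  have h : {p : BS × BS | p.2 = Z p.1} =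
      (⋂ j, {p : BS × BS | (p.1, fun t => p.2 (2 * Nat.pair j t + 1)) ∈
        {p : BS × BS | p.2 = Y j p.1}}) ∩
      (⋂ i, {p : BS × BS | p.2 (2 * Nat.pair (Nat.pair i (p.2 (2 * i))) 0 + 1) ≠ 0}) := by
    ext ⟨x, w⟩
    simp only [mem_inter_iff, mem_ofPred_eq, mem_iInter]
    constructor
    · rintro rfl
      refine ⟨fun n => funext fun t => hcol x n t, fun i => ?_⟩
      rw [hcol, ← hYA]
      simp only [mem_ofPred_eq, Nat.unpair_pair]
      rw [hev]
    · rintro ⟨h1, h2⟩
      have h1' : ∀ j t, w (2 * Nat.pair j t + 1) = Y j x t := fun n t => congrFun (h1 n) t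
      funext t
      rcases Nat.even_or_odd' t with ⟨i, rfl | rfl⟩
      · rw [hev]
        have h3 := h2 i
        rw [h1', ← hYA] at h3
        simp only [mem_ofPred_eq, Nat.unpair_pair] at h3
        exact h3.symm
      · have : i = Nat.pair (Nat.unpair i).1 (Nat.unpair i).2 := (Nat.pair_unpair i).symm
        rw [this, h1', hcol]
  unfold ClosedGraph
  rw [h]
  refine IsClosed.inter (isClosed_iInter fun j => ?_) (isClosed_iInter fun i => ?_)
  · exact IsClosed.preimage (continuous_fst.prodMk (continuous_pi fun t => hcont _)) (hY j)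
  · have hc : Continuous (fun p : BS × BS =>
        p.2 (2 * Nat.pair (Nat.pair i (p.2 (2 * i))) 0 + 1)) := by
      apply continuous_evalAt continuous_snd
      exact (continuous_of_discreteTopology
        (f := fun m : ℕ => 2 * Nat.pair (Nat.pair i m) 0 + 1)).comp (hcont _)
    exact (isClosed_discrete {m : ℕ | m ≠ 0}).preimage hc

/-! ### padding -/

/-- positions of the nonzero entries of the padded sequence -/
def kap (y : BS) : ℕ → ℕ
  | 0 => 0
  | (i + 1) => kap y i + 1 + y (2 * i + 2)

theorem kap_strictMono (y : BS) : StrictMono (kap y) :=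
  strictMono_nat_of_lt_succ (fun i => by simp only [kap]; omega)

/-- the padded sequence -/
def pad (y : BS) : BS := fun r =>
  ∑ i ∈ Finset.range (r + 1), if kap y i = r then 1 + Nat.pair (y (2 * i + 2)) (y i) else 0

theorem pad_kap (y : BS) (i : ℕ) : pad y (kap y i) = 1 + Nat.pair (y (2 * i + 2)) (y i) := by
  unfold pad
  rw [Finset.sum_eq_single i]
  · rw [if_pos rfl]
  · intro j _ hj
    rw [if_neg]
    intro h
    exact hj ((kap_strictMono y).injective h)
  · intro h
    exfalso
    apply h
    rw [Finset.mem_range]
    have := (kap_strictMono y).id_le i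
    simp only [id] at this
    omega

theorem pad_eq_zero (y : BS) (r : ℕ) (hr : ∀ i, kap y i ≠ r) : pad y r = 0 := by
  unfold pad
  apply Finset.sum_eq_zero
  intro i _
  rw [if_neg (hr i)]

/-- positions read off a padded sequence -/
def kap' (w : BS) : ℕ → ℕ
  | 0 => 0
  | (i + 1) => kap' w i + 1 + (Nat.unpair (w (kap' w i) - 1)).1

/-- the left inverse of `pad` -/
def unpad (w : BS) : BS := fun i => (Nat.unpair (w (kap' w i) - 1)).2

theorem kap'_pad (y : BS) (i : ℕ) : kap' (pad y) i = kap y i := by
  induction i with
  | zero => rfl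
  | succ i ih =>
    simp only [kap', kap, ih, pad_kap]
    rw [Nat.add_sub_cancel_left, Nat.unpair_pair]

theorem unpad_pad (y : BS) : unpad (pad y) = y := by
  funext i
  unfold unpad
  rw [kap'_pad, pad_kap, Nat.add_sub_cancel_left, Nat.unpair_pair]

theorem continuous_kap (i : ℕ) : Continuous (fun y : BS => kap y i) := by
  induction i with
  | zero => simp only [kap]; exact continuous_const
  | succ i ih =>
    simp only [kap]
    exact (ih.add continuous_const).add (continuous_apply _)

theorem continuous_pad : Continuous pad := by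
  refine continuous_pi fun r => ?_
  unfold pad
  refine continuous_finsetSum _ fun i _ => ?_
  exact (continuous_of_discreteTopology (f := fun q : ℕ × ℕ × ℕ =>
    if q.1 = r then 1 + Nat.pair q.2.1 q.2.2 else 0)).comp
    ((continuous_kap i).prodMk ((continuous_apply _).prodMk (continuous_apply _)))

theorem continuous_kap' (i : ℕ) : Continuous (fun w : BS => kap' w i) := by
  induction i with
  | zero => simp only [kap']; exact continuous_const
  | succ i ih =>
    simp only [kap']
    refine (ih.add continuous_const).add ?_
    exact (continuous_of_discreteTopology (f := fun m : ℕ => (Nat.unpair (m - 1)).1)).comp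
      (continuous_evalAt continuous_id ih)

theorem continuous_unpad : Continuous unpad := by
  refine continuous_pi fun i => ?_
  unfold unpad
  exact (continuous_of_discreteTopology (f := fun m : ℕ => (Nat.unpair (m - 1)).2)).comp
      (continuous_evalAt continuous_id (continuous_kap' i))

end Pool.Agent.R610.Lift
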