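import Mathlib

open Finset
open scoped Pointwise

namespace Pool.Agent.R610.NullComb

/-- the colour of `u` -/
def hh (p q : ℕ) (u : ZMod p) : ZMod q := ((q * (u * u).val / p : ℕ) : ZMod q)

theorem div_add_cases (p a b : ℕ) (hp : 0 < p) :
    (a + b) / p = a / p + b / p ∨ (a + b) / p = a / p + b / p + 1 := by
  rcases Nat.lt_or_ge (a % p + b % p) p with h | h
  · left
    rw [Nat.add_div hp, if_neg (by omega)]
    rfl
  · right
    rw [Nat.add_div hp, if_pos h]

theorem hh_diff (p q : ℕ) [NeZero p] (u d : ZMod p) :
    hh p q u = hh p q (u - d) + ((q * (u * u - (u - d) * (u - d)).val / p : ℕ) : ZMod q) ∨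
    hh p q u = hh p q (u - d) + ((q * (u * u - (u - d) * (u - d)).val / p : ℕ) : ZMod q) + 1 := by
  have hp : 0 < p := Nat.pos_of_ne_zero (NeZero.ne p)
  set t := (u * u).val with ht
  set t' := ((u - d) * (u - d)).val with ht'
  set s := (u * u - (u - d) * (u - d)).val with hs
  have h1 : t = (t' + s) % p := by
    rw [ht, ht', hs, ← ZMod.val_add]
    congr 1
    ring
  have ht1 : t < p := ZMod.val_lt _
  have ht2 : t' < p := ZMod.val_lt _
  have ht3 : s < p := ZMod.val_lt _
  have h2 : ∃ e : ℕ, t' + s = t + e * p := by
    rcases Nat.lt_or_ge (t' + s) p with h | h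
    · exact ⟨0, by rw [h1, Nat.mod_eq_of_lt h]; ring⟩
    · refine ⟨1, ?_⟩
      have : (t' + s) % p = t' + s - p := by
        rw [Nat.mod_eq_sub_mod h, Nat.mod_eq_of_lt (by omega)]
      omega
  obtain ⟨e, he⟩ := h2
  have h3 : (q * t' + q * s) / p = q * t / p + q * e := by
    have : q * t' + q * s = q * t + (q * e) * p := by
      calc q * t' + q * s = q * (t' + s) := by ring
        _ = q * t + (q * e) * p := by rw [he]; ring
    rw [this, Nat.add_mul_div_right _ _ hp]
  have h4 : (((q * t' + q * s) / p : ℕ) : ZMod q) = hh p q u := by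
    rw [h3]
    push_cast
    rw [ZMod.natCast_self, zero_mul, add_zero]
    rfl
  rcases div_add_cases p (q * t') (q * s) hp with h | h
  · left
    rw [← h4, h]
    push_cast
    rfl
  · right
    rw [← h4, h]
    push_cast
    rfl

/-- values of `s` with given `q s / p` -/
theorem card_fiber (p q v : ℕ) (hq : 0 < q) (hqp : q ≤ p) :
    q * ((range p).filter (fun s => q * s / p = v)).card ≤ 2 * p := by
  have hp : 0 < p := by omega
  have hsub : (range p).filter (fun s => q * s / p = v) ⊆
      Finset.Ico ((v * p + q - 1) / q) ((v * p + q - 1) / q + (p - 1) / q + 1) := by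
    intro s hs
    rw [Finset.mem_filter, Finset.mem_range] at hs
    obtain ⟨hs1, hs2⟩ := hs
    have h1 : v * p ≤ q * s := by
      have := Nat.div_mul_le_self (q * s) p
      rw [hs2] at this
      exact this
    have h2 : q * s < (v + 1) * p := by
      have := Nat.lt_div_mul_add (a := q * s) hp
      rw [hs2] at this
      linarith
    set a := (v * p + q - 1) / q with ha
    have h3 : v * p ≤ q * a := by
      have := Nat.lt_div_mul_add (a := v * p + q - 1) hq
      rw [← ha] at this
      have h5 : q * a = a * q := mul_comm _ _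
      omega
    have h4 : a ≤ s := by
      rw [ha, Nat.div_le_iff_le_mul_add_pred hq]
      omega
    rw [Finset.mem_Ico]
    refine ⟨h4, ?_⟩
    have h5 : (s - a) ≤ (p - 1) / q := by
      rw [Nat.le_div_iff_mul_le hq]
      have h6 : (s - a) * q = q * s - q * a := by
        rw [Nat.sub_mul, mul_comm s q, mul_comm a q]
      have h7 : (v + 1) * p = v * p + p := by ring
      omega
    omega
  have hcard := Finset.card_le_card hsub
  rw [Nat.card_Ico] at hcard
  have h8 : ∀ a b : ℕ, a + b + 1 - a = b + 1 := by intros; omega
  rw [h8] at hcard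
  calc q * ((range p).filter (fun s => q * s / p = v)).card ≤ q * ((p - 1) / q + 1) :=
        Nat.mul_le_mul_left q hcard
    _ = q * ((p - 1) / q) + q := by ring
    _ ≤ (p - 1) + q := by
        have := Nat.mul_div_le (p - 1) q
        omega
    _ ≤ 2 * p := by omega

theorem card_corr (p q : ℕ) [Fact p.Prime] (hp2 : p ≠ 2) (hq : 0 < q) (hqp : q ≤ p)
    (d1 : ZMod p) (d2 : ZMod q) (hd : ¬ (d1 = 0 ∧ d2 = 0)) :
    q * (Finset.univ.filter (fun u : ZMod p => hh p q u - d2 = hh p q (u - d1))).card ≤ 4 * p := by
  classical
  have : NeZero q := ⟨by omega⟩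
  have hpp : 0 < p := by omega
  by_cases h1 : d1 = 0
  · have hd2 : d2 ≠ 0 := fun h => hd ⟨h1, h⟩
    have hempty : Finset.univ.filter (fun u : ZMod p => hh p q u - d2 = hh p q (u - d1)) = ∅ := by
      rw [Finset.filter_eq_empty_iff]
      intro u _ hu
      rw [h1, sub_zero] at hu
      exact hd2 (by simpa using hu)
    rw [hempty]; simp
  · have h2 : (2 : ZMod p) ≠ 0 := by
      intro h
      have h' : ((2 : ℕ) : ZMod p) = 0 := by exact_mod_cast h
      rw [ZMod.natCast_eq_zero_iff] at h'
      have h3 := (Nat.prime_dvd_prime_iff_eq (Fact.out : p.Prime) Nat.prime_two).1 h'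
      exact hp2 h3
    have hinj : Function.Injective
        (fun u : ZMod p => (u * u - (u - d1) * (u - d1)).val) := by
      intro u u' huu
      have h3 := ZMod.val_injective p huu
      have h4 : 2 * d1 * (u - u') = 0 := by
        have : u * u - (u - d1) * (u - d1) - (u' * u' - (u' - d1) * (u' - d1)) = 0 := by
          rw [h3]; ring
        linear_combination this
      have h5 : 2 * d1 ≠ 0 := mul_ne_zero h2 h1
      have h6 := (mul_eq_zero.1 h4).resolve_left h5
      exact sub_eq_zero.1 h6
    have hcard : (Finset.univ.filter (fun u : ZMod p => hh p q u - d2 = hh p q (u - d1))).card ≤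
        (((range p).filter (fun s => q * s / p = d2.val)) ∪
          ((range p).filter (fun s => q * s / p = (d2 - 1).val))).card := by
      apply Finset.card_le_card_of_injOn (fun u : ZMod p => (u * u - (u - d1) * (u - d1)).val)
      · intro u hu
        rw [Finset.mem_coe, Finset.mem_filter] at hu
        have hu2 := hu.2
        rw [Finset.mem_coe, Finset.mem_union, Finset.mem_filter, Finset.mem_filter,
          Finset.mem_range]
        have hlt : (u * u - (u - d1) * (u - d1)).val < p := ZMod.val_lt _
        have hdl : q * (u * u - (u - d1) * (u - d1)).val / p < q := by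
          rw [Nat.div_lt_iff_lt_mul hpp]
          exact Nat.mul_lt_mul_of_pos_left hlt hq
        have hval : ∀ e : ZMod q,
            ((q * (u * u - (u - d1) * (u - d1)).val / p : ℕ) : ZMod q) = e →
            q * (u * u - (u - d1) * (u - d1)).val / p = e.val := by
          intro e he
          rw [← he, ZMod.val_natCast, Nat.mod_eq_of_lt hdl]
        rcases hh_diff p q u d1 with h | h
        · left
          refine ⟨hlt, hval _ ?_⟩
          rw [h] at hu2
          linear_combination hu2
        · right
          refine ⟨hlt, hval _ ?_⟩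
          rw [h] at hu2
          linear_combination hu2
      · exact fun _ _ _ _ h => hinj h
    have h7 := card_fiber p q d2.val hq hqp
    have h8 := card_fiber p q (d2 - 1).val hq hqp
    have h9 := Finset.card_union_le ((range p).filter (fun s => q * s / p = d2.val))
      ((range p).filter (fun s => q * s / p = (d2 - 1).val))
    calc q * _ ≤ q * (((range p).filter (fun s => q * s / p = d2.val)).card +
          ((range p).filter (fun s => q * s / p = (d2 - 1).val)).card) :=
          Nat.mul_le_mul_left q (hcard.trans h9)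
      _ ≤ 4 * p := by rw [Nat.mul_add]; omega

/-- A set of density `1/q` with small autocorrelations. -/
theorem exists_S (p q : ℕ) (hp : p.Prime) (hp2 : p ≠ 2) (hq : 0 < q) (hqp : q ≤ p)
    (hcop : Nat.Coprime p q) : ∃ S : Finset (ZMod (p * q)), S.card = p ∧
      ∀ d : ZMod (p * q), d ≠ 0 → q * (S.filter (fun x => x - d ∈ S)).card ≤ 4 * p := by
  classical
  have : Fact p.Prime := ⟨hp⟩
  have : NeZero p := ⟨hp.ne_zero⟩
  let e := ZMod.chineseRemainder hcop
  have hinj : Function.Injective (fun u : ZMod p => e.symm (u, hh p q u)) := by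
    intro u u' h
    have h1 := e.symm.injective h
    exact (Prod.mk.inj h1).1
  refine ⟨Finset.univ.image (fun u : ZMod p => e.symm (u, hh p q u)), ?_, ?_⟩
  · rw [Finset.card_image_of_injective _ hinj, Finset.card_univ, ZMod.card]
  · intro d hd
    refine le_trans (Nat.mul_le_mul_left q ?_) (card_corr p q hp2 hq hqp (e d).1 (e d).2 ?_)
    · have hsub : (Finset.univ.image (fun u : ZMod p => e.symm (u, hh p q u))).filter
          (fun x => x - d ∈ Finset.univ.image (fun u : ZMod p => e.symm (u, hh p q u))) ⊆
          (Finset.univ.filter (fun u : ZMod p => hh p q u - (e d).2 = hh p q (u - (e d).1))).image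
            (fun u : ZMod p => e.symm (u, hh p q u)) := by
        intro x hx
        rw [Finset.mem_filter, Finset.mem_image, Finset.mem_image] at hx
        obtain ⟨⟨u, _, rfl⟩, u', _, hu'⟩ := hx
        rw [Finset.mem_image]
        refine ⟨u, ?_, rfl⟩
        rw [Finset.mem_filter]
        refine ⟨Finset.mem_univ _, ?_⟩
        have h1 : (u', hh p q u') = (u, hh p q u) - e d := by
          have := congrArg e hu'
          rw [map_sub, e.apply_symm_apply, e.apply_symm_apply] at this
          exact this
        have h2 : u' = u - (e d).1 := congrArg Prod.fst h1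
        have h3 : hh p q u' = hh p q u - (e d).2 := congrArg Prod.snd h1
        rw [← h3, h2]
      refine (Finset.card_le_card hsub).trans Finset.card_image_le
    · rintro ⟨h1, h2⟩
      apply hd
      have : e d = 0 := Prod.ext h1 h2
      exact (map_eq_zero_iff e e.injective).1 this

/-- many translates cover a large part -/
theorem card_add_ge {G : Type*} [AddCommGroup G] [DecidableEq G] (p q : ℕ) (S : Finset G)
    (hS : S.card = p) (hcorr : ∀ d : G, d ≠ 0 → q * (S.filter (fun x => x - d ∈ S)).card ≤ 4 * p)
    (Z : Finset G) : q * Z.card * p ≤ q * (Z + S).card + 2 * p * Z.card ^ 2 := by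
  induction Z using Finset.induction_on with
  | empty => simp
  | insert z Z hz ih =>
    have h1 : insert z Z + S = ({z} + S) ∪ (Z + S) := by
      rw [Finset.insert_eq, Finset.union_add]
    have h2 : (({z} + S) ∪ (Z + S)).card + (({z} + S) ∩ (Z + S)).card =
        ({z} + S).card + (Z + S).card := Finset.card_union_add_card_inter _ _
    have h3 : ({z} + S).card = p := by rw [Finset.singleton_add, Finset.card_vadd_finset, hS]
    have h4 : q * (({z} + S) ∩ (Z + S)).card ≤ Z.card * (4 * p) := by
      have hsub : ({z} + S) ∩ (Z + S) ⊆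
          Z.biUnion (fun z' => (S.filter (fun x => x - (z' - z) ∈ S)).image (fun x => z + x)) := by
        intro y hy
        rw [Finset.mem_inter, Finset.mem_add, Finset.mem_add] at hy
        obtain ⟨⟨a, ha, x, hx, hax⟩, z', hz', x', hx', hax'⟩ := hy
        rw [Finset.mem_singleton] at ha
        subst ha
        rw [Finset.mem_biUnion]
        refine ⟨z', hz', ?_⟩
        rw [Finset.mem_image]
        refine ⟨x, ?_, hax⟩
        rw [Finset.mem_filter]
        refine ⟨hx, ?_⟩
        have : x - (z' - a) = x' := by
          have h5 : a + x = z' + x' := hax.trans hax'.symm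
          have h6 : x = z' + x' - a := by rw [← h5]; abel
          rw [h6]; abel
        rw [this]; exact hx'
      have h5 := (Finset.card_le_card hsub).trans Finset.card_biUnion_le
      calc q * (({z} + S) ∩ (Z + S)).card
          ≤ q * ∑ z' ∈ Z, ((S.filter (fun x => x - (z' - z) ∈ S)).image (fun x => z + x)).card :=
            Nat.mul_le_mul_left q h5
        _ = ∑ z' ∈ Z, q * ((S.filter (fun x => x - (z' - z) ∈ S)).image (fun x => z + x)).card := by
            rw [Finset.mul_sum]
        _ ≤ ∑ z' ∈ Z, 4 * p := by
            apply Finset.sum_le_sum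
            intro z' hz'
            refine le_trans (Nat.mul_le_mul_left q Finset.card_image_le) (hcorr _ ?_)
            intro h
            rw [sub_eq_zero] at h
            rw [h] at hz'
            exact hz hz'
        _ = Z.card * (4 * p) := by simp
    rw [Finset.card_insert_of_notMem hz, h1]
    have h6 : q * (({z} + S) ∪ (Z + S)).card + q * (({z} + S) ∩ (Z + S)).card =
        q * p + q * (Z + S).card := by
      rw [← Nat.mul_add, h2, h3, Nat.mul_add]
    nlinarith

/-- The form used below. -/
theorem exists_S' (p n : ℕ) (hp : p.Prime) (hqp : 2 ^ (n + 2) ≤ p) :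
    ∃ S : Finset (ZMod (p * 2 ^ (n + 2))), S.card = p ∧
      ∀ Z : Finset (ZMod (p * 2 ^ (n + 2))), 2 ^ n ≤ Z.card →
        p * 2 ^ (n + 2) ≤ 8 * (Z + S).card := by
  have hp2 : p ≠ 2 := by
    rintro rfl
    have : 2 ^ 2 ≤ 2 ^ (n + 2) := Nat.pow_le_pow_right (by norm_num) (by omega)
    omega
  have hcop : Nat.Coprime p (2 ^ (n + 2)) := by
    apply Nat.Coprime.pow_right
    rw [Nat.coprime_comm]
    exact (Nat.coprime_primes Nat.prime_two hp).2 (fun h => hp2 h.symm)
  obtain ⟨S, hS1, hS2⟩ := exists_S p (2 ^ (n + 2)) hp hp2 (by positivity) hqp hcop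
  refine ⟨S, hS1, fun Z hZ => ?_⟩
  obtain ⟨Z', hZ', hcard⟩ := Finset.exists_subset_card_eq hZ
  have h1 := card_add_ge p (2 ^ (n + 2)) S hS1 hS2 Z'
  rw [hcard] at h1
  have h2 : (Z' + S).card ≤ (Z + S).card :=
    Finset.card_le_card (Finset.add_subset_add_right hZ')
  have h3 : 2 ^ (n + 2) = 4 * 2 ^ n := by ring
  generalize (Z' + S).card = c at h1 h2
  generalize (Z + S).card = c' at h2 ⊢
  rw [h3] at h1 ⊢
  have hKpos : 0 < 2 ^ n := by positivity
  generalize 2 ^ n = K at h1 hKpos ⊢
  have h4 : K * (p * (4 * K)) ≤ K * (8 * c') := by nlinarith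
  exact Nat.le_of_mul_le_mul_left h4 hKpos

end Pool.Agent.R610.NullComb
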