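import Pool.Agent.R610.NullComb

open Set MeasureTheory Filter Topology
open scoped Pointwise ENNReal

namespace Pool.Agent.R610.NullReal

open Pool.Agent.R610.NullComb

/-- null-additive sets -/
def NullAdditive {G : Type*} [Add G] [MeasurableSpace G] (μ : Measure G) (A : Set G) : Prop :=
  ∀ N : Set G, μ N = 0 → μ (A + N) = 0

/-- admissible sequences of primes -/
structure Adm (p : ℕ → ℕ) : Prop where
  prime : ∀ n, (p n).Prime
  large : ∀ n, 2 ^ (n + 2) ≤ p n

/-- the length of the `n`-th block -/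
abbrev LL (p : ℕ → ℕ) (n : ℕ) : ℕ := p n * 2 ^ (n + 2)

/-- the scales -/
def PP (p : ℕ → ℕ) : ℕ → ℕ
  | 0 => 1
  | (n + 1) => PP p n * LL p n

/-- the digit of `x` in block `n` -/
noncomputable def dig (p : ℕ → ℕ) (n : ℕ) (x : ℝ) : ZMod (LL p n) :=
  ((⌊(PP p (n + 1) : ℝ) * x⌋ : ℤ) : ZMod (LL p n))

section
variable {p : ℕ → ℕ} (hp : Adm p)
include hp

theorem LL_pos (n : ℕ) : 0 < LL p n := Nat.mul_pos (hp.prime n).pos (by positivity)

theorem PP_pos (n : ℕ) : 0 < PP p n := by
  induction n with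
  | zero => simp [PP]
  | succ n ih => exact Nat.mul_pos ih (LL_pos hp n)

end

/-- the sets whose upper limit is the null set used in the proof -/
def Hn (p : ℕ → ℕ) (S : ∀ n, Finset (ZMod (LL p n))) (n : ℕ) : Set ℝ :=
  {u | ∃ a : ℤ, (a : ZMod (LL p n)) ∈ S n ∧ (a : ℝ) < PP p (n + 1) * u ∧
    PP p (n + 1) * u < a + 2}

theorem isOpen_Hn (p : ℕ → ℕ) (S : ∀ n, Finset (ZMod (LL p n))) (n : ℕ) :
    IsOpen (Hn p S n) := by
  have h : Hn p S n = ⋃ a : {a : ℤ // (a : ZMod (LL p n)) ∈ S n},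
      ({u : ℝ | ((a : ℤ) : ℝ) < PP p (n + 1) * u} ∩ {u : ℝ | PP p (n + 1) * u < ((a : ℤ) : ℝ) + 2}) := by
    ext u
    simp only [Hn, mem_iUnion, mem_inter_iff, mem_ofPred_eq, Subtype.exists]
    constructor
    · rintro ⟨a, h1, h2, h3⟩; exact ⟨a, h1, h2, h3⟩
    · rintro ⟨a, h1, h2, h3⟩; exact ⟨a, h1, h2, h3⟩
  rw [h]
  refine isOpen_iUnion fun a => IsOpen.inter ?_ ?_
  · exact isOpen_lt continuous_const (continuous_const.mul continuous_id)
  · exact isOpen_lt (continuous_const.mul continuous_id) continuous_const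

theorem card_window {p : ℕ → ℕ} (hp : Adm p) (S : ∀ n, Finset (ZMod (LL p n))) (n : ℕ) (c : ℤ) :
    ((Finset.Icc c (c + PP p (n + 1))).filter (fun a : ℤ => (a : ZMod (LL p n)) ∈ S n)).card ≤
      (PP p n + 1) * (S n).card := by
  have hL : (0 : ℤ) < LL p n := by exact_mod_cast LL_pos hp n
  have h1 : ((Finset.Icc c (c + PP p (n + 1))).filter
      (fun a : ℤ => (a : ZMod (LL p n)) ∈ S n)).card ≤
      (Finset.range (PP p n + 1) ×ˢ S n).card := by
    apply Finset.card_le_card_of_injOn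
      (fun a : ℤ => (((a - c) / (LL p n : ℤ)).toNat, (a : ZMod (LL p n))))
    · intro a ha
      rw [Finset.mem_coe, Finset.mem_filter, Finset.mem_Icc] at ha
      rw [Finset.mem_coe, Finset.mem_product, Finset.mem_range]
      refine ⟨?_, ha.2⟩
      have h2 : (a - c) / (LL p n : ℤ) ≤ PP p n := by
        have h3 : a - c ≤ PP p n * (LL p n : ℤ) := by
          have : (PP p (n + 1) : ℤ) = PP p n * (LL p n : ℤ) := by
            simp only [PP]; push_cast; ring
          linarith [ha.1.2]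
        calc (a - c) / (LL p n : ℤ) ≤ (PP p n * (LL p n : ℤ)) / (LL p n : ℤ) :=
              Int.ediv_le_ediv hL h3
          _ = PP p n := Int.mul_ediv_cancel _ hL.ne'
      show ((a - c) / (LL p n : ℤ)).toNat < PP p n + 1
      omega
    · intro a ha b hb hab
      rw [Finset.mem_coe, Finset.mem_filter, Finset.mem_Icc] at ha hb
      have h2 := (Prod.mk.inj hab).1
      have h3 := (Prod.mk.inj hab).2
      rw [ZMod.intCast_eq_intCast_iff] at h3
      have h4 : 0 ≤ (a - c) / (LL p n : ℤ) := Int.ediv_nonneg (by linarith [ha.1.1]) hL.le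
      have h5 : 0 ≤ (b - c) / (LL p n : ℤ) := Int.ediv_nonneg (by linarith [hb.1.1]) hL.le
      have h6 : (a - c) / (LL p n : ℤ) = (b - c) / (LL p n : ℤ) := by omega
      have h7 : (a - c) % (LL p n : ℤ) = (b - c) % (LL p n : ℤ) := by
        exact Int.ModEq.sub_right c h3
      have h8 := Int.mul_ediv_add_emod (a - c) (LL p n : ℤ)
      have h9 := Int.mul_ediv_add_emod (b - c) (LL p n : ℤ)
      rw [h6, h7] at h8
      linarith
  rwa [Finset.card_product, Finset.card_range] at h1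

theorem volume_Hn_le {p : ℕ → ℕ} (hp : Adm p) (S : ∀ n, Finset (ZMod (LL p n)))
    (hS : ∀ n, (S n).card = p n) (n : ℕ) (j : ℤ) :
    volume (Hn p S n ∩ Ico (j : ℝ) (j + 1)) ≤ ENNReal.ofReal ((1 / 2) ^ n) := by
  set P := PP p (n + 1) with hPdef
  have hP : (0 : ℝ) < P := by exact_mod_cast PP_pos hp (n + 1)
  set A := (Finset.Icc (j * P - 1) (j * P - 1 + P)).filter
    (fun a : ℤ => (a : ZMod (LL p n)) ∈ S n) with hA
  have hsub : Hn p S n ∩ Ico (j : ℝ) (j + 1) ⊆
      ⋃ a ∈ A, Ioo ((a : ℝ) / P) (((a : ℝ) + 2) / P) := by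
    rintro u ⟨⟨a, ha1, ha2, ha3⟩, hu1, hu2⟩
    rw [mem_iUnion₂]
    refine ⟨a, ?_, ?_⟩
    · rw [hA, Finset.mem_filter, Finset.mem_Icc]
      refine ⟨⟨?_, ?_⟩, ha1⟩
      · have h1 : ((j * P : ℤ) : ℝ) < ((a + 2 : ℤ) : ℝ) := by
          push_cast
          calc (j : ℝ) * P ≤ P * u := by nlinarith
            _ < a + 2 := ha3
        have h2 : j * P < a + 2 := by exact_mod_cast h1
        omega
      · have h1 : ((a : ℤ) : ℝ) < ((j * P + P : ℤ) : ℝ) := by
          push_cast
          calc (a : ℝ) < P * u := ha2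
            _ ≤ j * P + P := by nlinarith
        have h2 : a < j * P + P := by exact_mod_cast h1
        omega
    · rw [mem_Ioo, div_lt_iff₀ hP, lt_div_iff₀ hP]
      constructor
      · linarith
      · linarith
  have hcard : (A.card : ℝ) ≤ ((PP p n : ℝ) + 1) * p n := by
    have h1 := card_window hp S n (j * P - 1)
    rw [hS n] at h1
    have h2 : ((A.card : ℕ) : ℝ) ≤ (((PP p n + 1) * p n : ℕ) : ℝ) := by exact_mod_cast h1
    push_cast at h2
    exact h2
  calc volume (Hn p S n ∩ Ico (j : ℝ) (j + 1))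
      ≤ volume (⋃ a ∈ A, Ioo ((a : ℝ) / P) (((a : ℝ) + 2) / P)) := measure_mono hsub
    _ ≤ ∑ a ∈ A, volume (Ioo ((a : ℝ) / P) (((a : ℝ) + 2) / P)) := measure_biUnion_finset_le _ _
    _ = ∑ a ∈ A, ENNReal.ofReal (2 / P) := by
        apply Finset.sum_congr rfl
        intro a _
        rw [Real.volume_Ioo]
        congr 1
        field_simp
        ring
    _ = ENNReal.ofReal (A.card * (2 / P)) := by
        rw [Finset.sum_const, nsmul_eq_mul, ENNReal.ofReal_mul (by positivity),
          ENNReal.ofReal_natCast]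
    _ ≤ ENNReal.ofReal ((1 / 2) ^ n) := by
        apply ENNReal.ofReal_le_ofReal
        have hP0 : (1 : ℝ) ≤ PP p n := by exact_mod_cast PP_pos hp n
        have hpn : (0 : ℝ) < p n := by exact_mod_cast (hp.prime n).pos
        have hPeq : (P : ℝ) = PP p n * (p n * 2 ^ (n + 2)) := by
          rw [hPdef]; simp only [PP, LL]; push_cast; ring
        calc (A.card : ℝ) * (2 / P) ≤ (((PP p n : ℝ) + 1) * p n) * (2 / P) := by gcongr
          _ ≤ ((2 * (PP p n : ℝ)) * p n) * (2 / P) := by gcongr; linarith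
          _ = (1 / 2) ^ n := by
              rw [hPeq]
              have h2n : (2 : ℝ) ^ (n + 2) = 4 * 2 ^ n := by ring
              rw [h2n, one_div, inv_pow]
              field_simp
              ring

theorem volume_limsup_Hn {p : ℕ → ℕ} (hp : Adm p) (S : ∀ n, Finset (ZMod (LL p n)))
    (hS : ∀ n, (S n).card = p n) : volume {u | ∃ᶠ n in atTop, u ∈ Hn p S n} = 0 := by
  have hsub : {u | ∃ᶠ n in atTop, u ∈ Hn p S n} ⊆
      ⋃ j : ℤ, {u | ∃ᶠ n in atTop, u ∈ Hn p S n ∩ Ico (j : ℝ) (j + 1)} := by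
    intro u hu
    rw [mem_iUnion]
    refine ⟨⌊u⌋, ?_⟩
    refine Frequently.mono hu (fun n hn => ⟨hn, Int.floor_le u, Int.lt_floor_add_one u⟩)
  refine measure_mono_null hsub (measure_iUnion_null fun j => ?_)
  apply measure_setOfPred_frequently_eq_zero
  have h1 : ∑' n, volume {x | x ∈ Hn p S n ∩ Ico (j : ℝ) (j + 1)} ≤
      ∑' n : ℕ, ENNReal.ofReal ((1 / 2) ^ n) :=
    ENNReal.tsum_le_tsum fun n => volume_Hn_le hp S hS n j
  refine ne_top_of_le_ne_top ?_ h1
  have h2 : Summable (fun n : ℕ => ((1 : ℝ) / 2) ^ n) := summable_geometric_two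
  rw [← ENNReal.ofReal_tsum_of_nonneg (fun n => by positivity) h2]
  exact ENNReal.ofReal_ne_top

/-! ### sets avoiding many digits are null -/

/-- the remaining cells -/
def cells (p : ℕ → ℕ) (W : ∀ n, Finset (ZMod (LL p n))) (m : ℕ) : ℕ → Finset ℕ
  | 0 => Finset.range (PP p m)
  | (k + 1) => (cells p W m k ×ˢ (Finset.range (LL p (m + k))).filter
      (fun r : ℕ => (r : ZMod (LL p (m + k))) ∉ W (m + k))).image
        (fun q : ℕ × ℕ => q.1 * LL p (m + k) + q.2)

theorem card_cells_succ {p : ℕ → ℕ} (hp : Adm p) (W : ∀ n, Finset (ZMod (LL p n))) (m k : ℕ) :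
    (cells p W m (k + 1)).card + (cells p W m k).card * (W (m + k)).card ≤
      (cells p W m k).card * LL p (m + k) := by
  have hne : NeZero (LL p (m + k)) := ⟨(LL_pos hp (m + k)).ne'⟩
  have h1 : (cells p W m (k + 1)).card ≤ (cells p W m k).card *
      ((Finset.range (LL p (m + k))).filter
        (fun r : ℕ => (r : ZMod (LL p (m + k))) ∉ W (m + k))).card := by
    simp only [cells]
    refine Finset.card_image_le.trans ?_
    rw [Finset.card_product]
  have h2 : ((Finset.range (LL p (m + k))).filter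
        (fun r : ℕ => (r : ZMod (LL p (m + k))) ∈ W (m + k))).card +
      ((Finset.range (LL p (m + k))).filter
        (fun r : ℕ => (r : ZMod (LL p (m + k))) ∉ W (m + k))).card = LL p (m + k) := by
    rw [Finset.card_filter_add_card_filter_not, Finset.card_range]
  have h3 : (W (m + k)).card ≤ ((Finset.range (LL p (m + k))).filter
        (fun r : ℕ => (r : ZMod (LL p (m + k))) ∈ W (m + k))).card := by
    have hsub : W (m + k) ⊆ ((Finset.range (LL p (m + k))).filter
        (fun r : ℕ => (r : ZMod (LL p (m + k))) ∈ W (m + k))).image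
          (fun r : ℕ => (r : ZMod (LL p (m + k)))) := by
      intro w hw
      rw [Finset.mem_image]
      refine ⟨w.val, ?_, ZMod.natCast_zmod_val w⟩
      rw [Finset.mem_filter, Finset.mem_range, ZMod.natCast_zmod_val]
      exact ⟨ZMod.val_lt w, hw⟩
    exact (Finset.card_le_card hsub).trans Finset.card_image_le
  calc (cells p W m (k + 1)).card + (cells p W m k).card * (W (m + k)).card
      ≤ (cells p W m k).card * ((Finset.range (LL p (m + k))).filter
        (fun r : ℕ => (r : ZMod (LL p (m + k))) ∉ W (m + k))).card +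
        (cells p W m k).card * ((Finset.range (LL p (m + k))).filter
        (fun r : ℕ => (r : ZMod (LL p (m + k))) ∈ W (m + k))).card :=
        add_le_add h1 (Nat.mul_le_mul_left _ h3)
    _ = (cells p W m k).card * LL p (m + k) := by
        rw [← Nat.mul_add, add_comm, h2]

theorem mem_cells {p : ℕ → ℕ} (hp : Adm p) (W : ∀ n, Finset (ZMod (LL p n))) (m k : ℕ) (y : ℝ)
    (hy : y ∈ Ico (0 : ℝ) 1) (hW : ∀ n ≥ m, dig p n y ∉ W n) :
    ⌊(PP p (m + k) : ℝ) * y⌋₊ ∈ cells p W m k := by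
  induction k with
  | zero =>
    simp only [cells, Finset.mem_range, add_zero]
    have hP : (0 : ℝ) < PP p m := by exact_mod_cast PP_pos hp m
    rw [Nat.floor_lt (mul_nonneg hP.le hy.1)]
    nlinarith [hy.2]
  | succ k ih =>
    simp only [cells, Finset.mem_image, Finset.mem_product, Finset.mem_filter, Finset.mem_range]
    have hL := LL_pos hp (m + k)
    have hLr : (0 : ℝ) < LL p (m + k) := by exact_mod_cast hL
    set f := ⌊(PP p (m + (k + 1)) : ℝ) * y⌋₊ with hf
    refine ⟨(⌊(PP p (m + k) : ℝ) * y⌋₊, f % LL p (m + k)), ⟨ih, Nat.mod_lt _ hL, ?_⟩, ?_⟩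
    · have h1 := hW (m + k) (by omega)
      rw [ZMod.natCast_mod]
      unfold dig at h1
      have h2 : ((f : ℕ) : ℤ) = ⌊(PP p (m + k + 1) : ℝ) * y⌋ := by
        rw [hf]
        exact Int.natCast_floor_eq_floor (mul_nonneg (by positivity) hy.1)
      rw [← h2] at h1
      rwa [Int.cast_natCast] at h1
    · have h3 : ⌊(PP p (m + k) : ℝ) * y⌋₊ = f / LL p (m + k) := by
        rw [hf, ← Nat.floor_div_natCast]
        congr 1
        have : (PP p (m + (k + 1)) : ℝ) = PP p (m + k) * (LL p (m + k) : ℝ) := by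
          rw [← add_assoc]; simp only [PP]; push_cast; ring
        rw [this]
        field_simp
      show ⌊(PP p (m + k) : ℝ) * y⌋₊ * LL p (m + k) + f % LL p (m + k) = f
      rw [h3, mul_comm]
      exact Nat.div_add_mod f (LL p (m + k))

theorem volume_avoid_le {p : ℕ → ℕ} (hp : Adm p) (W : ∀ n, Finset (ZMod (LL p n))) (m k : ℕ) :
    volume {y : ℝ | y ∈ Ico (0 : ℝ) 1 ∧ ∀ n ≥ m, dig p n y ∉ W n} ≤
      ENNReal.ofReal ((cells p W m k).card / PP p (m + k)) := by
  have hP : (0 : ℝ) < PP p (m + k) := by exact_mod_cast PP_pos hp (m + k)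
  have hsub : {y : ℝ | y ∈ Ico (0 : ℝ) 1 ∧ ∀ n ≥ m, dig p n y ∉ W n} ⊆
      ⋃ a ∈ cells p W m k, Ico ((a : ℝ) / PP p (m + k)) (((a : ℝ) + 1) / PP p (m + k)) := by
    rintro y ⟨hy, hyW⟩
    rw [mem_iUnion₂]
    refine ⟨_, mem_cells hp W m k y hy hyW, ?_⟩
    rw [mem_Ico, div_le_iff₀ hP, lt_div_iff₀ hP]
    have h0 : 0 ≤ (PP p (m + k) : ℝ) * y := mul_nonneg hP.le hy.1
    constructor
    · have := Nat.floor_le h0
      linarith
    · have := Nat.lt_floor_add_one ((PP p (m + k) : ℝ) * y)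
      linarith
  calc volume {y : ℝ | y ∈ Ico (0 : ℝ) 1 ∧ ∀ n ≥ m, dig p n y ∉ W n}
      ≤ volume (⋃ a ∈ cells p W m k,
          Ico ((a : ℝ) / PP p (m + k)) (((a : ℝ) + 1) / PP p (m + k))) := measure_mono hsub
    _ ≤ ∑ a ∈ cells p W m k,
          volume (Ico ((a : ℝ) / PP p (m + k)) (((a : ℝ) + 1) / PP p (m + k))) :=
        measure_biUnion_finset_le _ _
    _ = ∑ a ∈ cells p W m k, ENNReal.ofReal (1 / PP p (m + k)) := by
        apply Finset.sum_congr rfl
        intro a _
        rw [Real.volume_Ico]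
        congr 1
        field_simp
        ring
    _ = ENNReal.ofReal ((cells p W m k).card / PP p (m + k)) := by
        rw [Finset.sum_const, nsmul_eq_mul, ← ENNReal.ofReal_natCast,
          ← ENNReal.ofReal_mul (by positivity)]
        congr 1
        ring

theorem volume_avoid_eq_zero {p : ℕ → ℕ} (hp : Adm p) (W : ∀ n, Finset (ZMod (LL p n))) (m : ℕ)
    (hW : ∃ᶠ n in atTop, LL p n ≤ 8 * (W n).card) :
    volume {y : ℝ | y ∈ Ico (0 : ℝ) 1 ∧ ∀ n ≥ m, dig p n y ∉ W n} = 0 := by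
  set ρ : ℕ → ℝ := fun k => (cells p W m k).card / PP p (m + k) with hρ
  have hPpos : ∀ k, (0 : ℝ) < PP p k := fun k => by exact_mod_cast PP_pos hp k
  have hLpos : ∀ k, (0 : ℝ) < LL p k := fun k => by exact_mod_cast LL_pos hp k
  have hρ0 : ∀ k, 0 ≤ ρ k := fun k => by simp only [hρ]; positivity
  have hstep : ∀ k, ρ (k + 1) ≤ ρ k * (1 - (W (m + k)).card / LL p (m + k)) := by
    intro k
    have h1 := card_cells_succ hp W m k
    have h2 : ((cells p W m (k + 1)).card : ℝ) + (cells p W m k).card * (W (m + k)).card ≤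
      (cells p W m k).card * LL p (m + k) := by exact_mod_cast h1
    simp only [hρ]
    have h3 : (PP p (m + (k + 1)) : ℝ) = PP p (m + k) * (LL p (m + k) : ℝ) := by
      rw [← add_assoc]; simp only [PP]; push_cast; ring
    rw [h3, div_le_iff₀ (mul_pos (hPpos _) (hLpos _))]
    have h4 : ((cells p W m k).card : ℝ) / PP p (m + k) *
        (1 - (W (m + k)).card / LL p (m + k)) * (PP p (m + k) * (LL p (m + k) : ℝ)) =
        (cells p W m k).card * LL p (m + k) - (cells p W m k).card * (W (m + k)).card := by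
      have h5 := (hPpos (m + k)).ne'
      have h6 := (hLpos (m + k)).ne'
      field_simp
    rw [h4]
    linarith
  have hanti : ∀ k, ρ (k + 1) ≤ ρ k := by
    intro k
    refine (hstep k).trans ?_
    have h1 : 0 ≤ ((W (m + k)).card : ℝ) / LL p (m + k) := by positivity
    nlinarith [hρ0 k]
  have hantitone : Antitone ρ := antitone_nat_of_succ_le hanti
  have hsmall : ∀ j : ℕ, ∃ k, ρ k ≤ (7 / 8) ^ j * ρ 0 := by
    intro j
    induction j with
    | zero => exact ⟨0, by simp⟩
    | succ j ih =>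
      obtain ⟨k, hk⟩ := ih
      obtain ⟨n, hn1, hn2⟩ := (frequently_atTop.1 hW) (m + k)
      obtain ⟨i, rfl⟩ : ∃ i, n = m + i := ⟨n - m, by omega⟩
      refine ⟨i + 1, ?_⟩
      have h1 : ρ i ≤ ρ k := hantitone (by omega)
      have h2 : (LL p (m + i) : ℝ) ≤ 8 * (W (m + i)).card := by exact_mod_cast hn2
      have h3 : (1 : ℝ) / 8 ≤ (W (m + i)).card / LL p (m + i) := by
        rw [le_div_iff₀ (hLpos _)]; linarith
      calc ρ (i + 1) ≤ ρ i * (1 - (W (m + i)).card / LL p (m + i)) := hstep i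
        _ ≤ ρ i * (7 / 8) := by
            apply mul_le_mul_of_nonneg_left _ (hρ0 i)
            linarith
        _ ≤ ((7 / 8) ^ j * ρ 0) * (7 / 8) := by
            apply mul_le_mul_of_nonneg_right (h1.trans hk) (by norm_num)
        _ = (7 / 8) ^ (j + 1) * ρ 0 := by ring
  have hlim : Tendsto (fun j : ℕ => ENNReal.ofReal ((7 / 8) ^ j * ρ 0)) atTop (𝓝 0) := by
    have h1 : Tendsto (fun j : ℕ => ((7 / 8 : ℝ)) ^ j * ρ 0) atTop (𝓝 (0 * ρ 0)) :=
      (tendsto_pow_atTop_nhds_zero_of_lt_one (by norm_num) (by norm_num)).mul_const _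
    rw [zero_mul] at h1
    have := ENNReal.tendsto_ofReal h1
    rwa [ENNReal.ofReal_zero] at this
  refine le_antisymm (ge_of_tendsto' hlim fun j => ?_) (zero_le)
  obtain ⟨k, hk⟩ := hsmall j
  exact (volume_avoid_le hp W m k).trans (ENNReal.ofReal_le_ofReal hk)

end Pool.Agent.R610.NullReal
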