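import Pool.Agent.R610.NullRealA

open Set MeasureTheory Filter Topology
open scoped Pointwise ENNReal

namespace Pool.Agent.R610.NullReal

open Pool.Agent.R610.NullComb

/-- few digits in all but finitely many blocks -/
def Few (p : ℕ → ℕ) (X : Set ℝ) : Prop := ∃ m, ∀ n ≥ m, (dig p n '' X).ncard ≤ 2 ^ n

/-- if two points have prescribed difference of digits then their difference is in `Hn` -/
theorem sub_mem_Hn {p : ℕ → ℕ} (S : ∀ n, Finset (ZMod (LL p n))) (n : ℕ) (x y : ℝ)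
    (s : ZMod (LL p n)) (hs : s ∈ S n) (h : dig p n y = dig p n x + s + 1) :
    y - x ∈ Hn p S n := by
  refine ⟨⌊(PP p (n + 1) : ℝ) * y⌋ - ⌊(PP p (n + 1) : ℝ) * x⌋ - 1, ?_, ?_, ?_⟩
  · have : ((⌊(PP p (n + 1) : ℝ) * y⌋ - ⌊(PP p (n + 1) : ℝ) * x⌋ - 1 : ℤ) : ZMod (LL p n)) = s := by
      push_cast
      unfold dig at h
      rw [h]; ring
    rw [this]; exact hs
  · have h1 := Int.floor_le ((PP p (n + 1) : ℝ) * y)
    have h2 := Int.lt_floor_add_one ((PP p (n + 1) : ℝ) * x)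
    push_cast
    rw [mul_sub]
    linarith
  · have h1 := Int.lt_floor_add_one ((PP p (n + 1) : ℝ) * y)
    have h2 := Int.floor_le ((PP p (n + 1) : ℝ) * x)
    push_cast
    rw [mul_sub]
    linarith

theorem few_of_avoid {p : ℕ → ℕ} (hp : Adm p) (S : ∀ n, Finset (ZMod (LL p n)))
    (hS : ∀ n, ∀ Z : Finset (ZMod (LL p n)), 2 ^ n ≤ Z.card → LL p n ≤ 8 * (Z + S n).card)
    (T : Set ℝ) (hT : T ⊆ Ico (0 : ℝ) 1) (hT0 : volume T ≠ 0) (m : ℕ) (X : Set ℝ)
    (hX : ∀ x ∈ X, ∀ y ∈ T, ∀ n ≥ m, y - x ∉ Hn p S n) : Few p X := by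
  classical
  by_contra hcon
  unfold Few at hcon
  push Not at hcon
  have hne : ∀ n, NeZero (LL p n) := fun n => ⟨(LL_pos hp n).ne'⟩
  have hfin : ∀ n, (dig p n '' X).Finite := fun n => Set.toFinite _
  let Z : ∀ n, Finset (ZMod (LL p n)) := fun n => (hfin n).toFinset
  let W : ∀ n, Finset (ZMod (LL p n)) := fun n => (Z n + S n).image (fun a => a + 1)
  have hWcard : ∀ n, (W n).card = (Z n + S n).card := fun n =>
    Finset.card_image_of_injective _ (add_left_injective 1)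
  have hfreq : ∃ᶠ n in atTop, LL p n ≤ 8 * (W n).card := by
    rw [frequently_atTop]
    intro a
    obtain ⟨n, hn1, hn2⟩ := hcon a
    refine ⟨n, hn1, ?_⟩
    rw [hWcard]
    apply hS
    rw [Set.ncard_eq_toFinset_card _ (hfin n)] at hn2
    exact hn2.le
  have h0 := volume_avoid_eq_zero hp W m hfreq
  apply hT0
  refine measure_mono_null ?_ h0
  intro y hy
  refine ⟨hT hy, fun n hn hmem => ?_⟩
  rw [Finset.mem_image] at hmem
  obtain ⟨b, hb, hb1⟩ := hmem
  rw [Finset.mem_add] at hb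
  obtain ⟨z, hz, s, hs, hzs⟩ := hb
  have hz' : z ∈ dig p n '' X := (hfin n).mem_toFinset.1 hz
  obtain ⟨x, hx, hxz⟩ := hz'
  apply hX x hx y hy n hn
  apply sub_mem_Hn S n x y s hs
  rw [← hb1, ← hzs, ← hxz]

/-- A null-additive set of reals is a countable union of sets with few digits. -/
theorem exists_decomp {p : ℕ → ℕ} (hp : Adm p) (X : Set ℝ) (hX : NullAdditive volume X) :
    ∃ 𝒳 : Set (Set ℝ), 𝒳.Countable ∧ X ⊆ ⋃₀ 𝒳 ∧ ∀ X' ∈ 𝒳, Few p X' := by
  classical
  choose S hS1 hS2 using fun n => exists_S' (p n) n (hp.prime n) (hp.large n)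
  set H : Set ℝ := {u | ∃ᶠ n in atTop, u ∈ Hn p S n} with hH
  have hH0 : volume H = 0 := volume_limsup_Hn hp S hS1
  have hXH : volume (X + H) = 0 := hX H hH0
  set M := toMeasurable volume (X + H) with hM
  have hM0 : volume M = 0 := by rw [hM, measure_toMeasurable]; exact hXH
  have hE : MeasurableSet (Ico (0 : ℝ) 1 \ M) :=
    measurableSet_Ico.diff (measurableSet_toMeasurable _ _)
  have hEpos : (0 : ℝ≥0∞) < volume (Ico (0 : ℝ) 1 \ M) := by
    rw [measure_sdiff_null hM0, Real.volume_Ico]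
    simp
  obtain ⟨T, hTE, hTc, hTpos⟩ := hE.exists_lt_isCompact hEpos
  -- the self-supported part
  let B := TopologicalSpace.countableBasis ℝ
  have hBc : B.Countable := TopologicalSpace.countable_countableBasis ℝ
  have hBb : TopologicalSpace.IsTopologicalBasis B := TopologicalSpace.isBasis_countableBasis ℝ
  let O : Set ℝ := ⋃ U ∈ {U ∈ B | volume (U ∩ T) = 0}, U
  have hOo : IsOpen O := isOpen_biUnion fun U hU => hBb.isOpen hU.1
  have hOT : volume (O ∩ T) = 0 := by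
    have h1 : O ∩ T = ⋃ U ∈ {U ∈ B | volume (U ∩ T) = 0}, (U ∩ T) := by
      rw [Set.iUnion₂_inter]
    rw [h1]
    refine (measure_biUnion_null_iff (hBc.mono (fun U hU => hU.1))).2 (fun U hU => hU.2)
  set T0 : Set ℝ := T \ O with hT0
  have hT0c : IsCompact T0 := hTc.diff hOo
  have hT0sub : T0 ⊆ Ico (0 : ℝ) 1 := fun y hy => (hTE hy.1).1
  have hT0vol : volume T0 ≠ 0 := by
    intro h
    have h2 : T ⊆ T0 ∪ (O ∩ T) := by
      intro y hy
      by_cases hyO : y ∈ O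
      · right; exact ⟨hyO, hy⟩
      · left; exact ⟨hy, hyO⟩
    have h3 : volume T = 0 := measure_mono_null h2 (measure_union_null h hOT)
    exact hTpos.ne' h3
  have hT0ne : T0.Nonempty := by
    by_contra h
    rw [Set.not_nonempty_iff_eq_empty] at h
    rw [h] at hT0vol
    exact hT0vol measure_empty
  have hport : ∀ U ∈ B, (U ∩ T0).Nonempty → volume (U ∩ T0) ≠ 0 := by
    intro U hU hne h0
    obtain ⟨y, hyU, hyT, hyO⟩ := hne
    apply hyO
    have h1 : volume (U ∩ T) = 0 := by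
      refine measure_mono_null ?_ (measure_union_null h0 hOT)
      rintro z ⟨hzU, hzT⟩
      by_cases hzO : z ∈ O
      · right; exact ⟨hzO, hzT⟩
      · left; exact ⟨hzU, hzT, hzO⟩
    exact mem_biUnion (show U ∈ {U ∈ B | volume (U ∩ T) = 0} from ⟨hU, h1⟩) hyU
  -- the pieces
  let piece : Set ℝ → ℕ → Set ℝ := fun U m =>
    {x | ∀ y ∈ U ∩ T0, ∀ n ≥ m, y - x ∉ Hn p S n}
  refine ⟨(fun q : Set ℝ × ℕ => piece q.1 q.2) ''
    ({U ∈ B | (U ∩ T0).Nonempty} ×ˢ (Set.univ : Set ℕ)), ?_, ?_, ?_⟩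
  · apply Set.Countable.image
    exact (hBc.mono (fun U hU => hU.1)).prod (Set.countable_univ)
  · intro x hx
    have : CompactSpace T0 := isCompact_iff_compactSpace.1 hT0c
    have : Nonempty T0 := hT0ne.to_subtype
    let E : ℕ → Set T0 := fun m => {y | ∀ n ≥ m, (y : ℝ) - x ∉ Hn p S n}
    have hEc : ∀ m, IsClosed (E m) := by
      intro m
      have h1 : E m = ⋂ n, ⋂ (_ : n ≥ m), {y : T0 | (y : ℝ) - x ∉ Hn p S n} := by
        ext y; simp [E]
      rw [h1]
      refine isClosed_iInter fun n => isClosed_iInter fun _ => ?_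
      exact (isOpen_Hn p S n).isClosed_compl.preimage (continuous_subtype_val.sub continuous_const)
    have hEU : ⋃ m, E m = univ := by
      rw [Set.eq_univ_iff_forall]
      intro y
      have h1 : ¬ ∃ᶠ n in atTop, (y : ℝ) - x ∈ Hn p S n := by
        intro hf
        have h2 : (y : ℝ) ∈ X + H := ⟨x, hx, (y : ℝ) - x, hf, by ring⟩
        exact (hTE y.2.1).2 (subset_toMeasurable _ _ h2)
      rw [not_frequently, eventually_atTop] at h1
      obtain ⟨m, hm⟩ := h1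
      exact mem_iUnion.2 ⟨m, hm⟩
    obtain ⟨m, hm⟩ := nonempty_interior_of_iUnion_of_closed hEc hEU
    obtain ⟨y0, hy0⟩ := hm
    rw [mem_interior] at hy0
    obtain ⟨V, hV1, hV2, hV3⟩ := hy0
    obtain ⟨V', hV'1, hV'2⟩ := isOpen_induced_iff.1 hV2
    have hy0V' : (y0 : ℝ) ∈ V' := by
      have : y0 ∈ Subtype.val ⁻¹' V' := by rw [hV'2]; exact hV3
      exact this
    obtain ⟨U, hU1, hU2, hU3⟩ := hBb.exists_subset_of_mem_open hy0V' hV'1
    refine ⟨piece U m, ⟨(U, m), ⟨⟨hU1, ⟨y0, hU2, y0.2⟩⟩, mem_univ _⟩, rfl⟩, ?_⟩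
    rintro y ⟨hyU, hyT0⟩ n hn
    have h1 : (⟨y, hyT0⟩ : T0) ∈ E m := by
      apply hV1
      rw [← hV'2]
      exact hU3 hyU
    exact h1 n hn
  · rintro X' ⟨⟨U, m⟩, ⟨⟨hU1, hU2⟩, _⟩, rfl⟩
    refine few_of_avoid hp S hS2 (U ∩ T0) (fun y hy => hT0sub hy.2) (hport U hU1 hU2) m _ ?_
    intro x hx y hy n hn
    exact hx y hy n hn

end Pool.Agent.R610.NullReal
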