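import Pool.Agent.R610.NullRealB

open Set MeasureTheory Filter Topology Metric
open scoped Pointwise ENNReal

namespace Pool.Agent.R610.NullReal

theorem exists_compacts (N : Set (ℝ × ℝ)) (hN : volume N = 0) :
    ∃ K : ℕ → Set (ℝ × ℝ), (∀ i, IsCompact (K i)) ∧ ∑' i, volume (K i) ≠ ∞ ∧
      ∀ w ∈ N, ∃ᶠ i in atTop, w ∈ K i := by
  classical
  have h0 : ∀ k : ℕ, ∃ (t : Set (ℝ × ℝ)) (r : ℝ × ℝ → ℝ), t.Countable ∧
      (N ⊆ ⋃ x ∈ t, closedBall x (r x)) ∧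
      (∑' x : t, volume (closedBall (x : ℝ × ℝ) (r x))) ≤ (1 / 2 : ℝ≥0∞) ^ k := by
    intro k
    obtain ⟨t, r, ht1, _, _, ht4, ht5⟩ :=
      Besicovitch.exists_closedBall_covering_tsum_measure_le (volume : Measure (ℝ × ℝ))
        (ε := (1 / 2 : ℝ≥0∞) ^ k) (pow_ne_zero _ (by simp)) (fun _ => Ioi 0) N (by
          intro x _ δ hδ
          exact ⟨δ / 2, half_pos hδ, half_pos hδ, half_lt_self hδ⟩)
    refine ⟨t, r, ht1, ht4, ?_⟩
    rw [hN, zero_add] at ht5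
    exact ht5
  choose t r ht1 ht2 ht3 using h0
  have hex : ∀ k : ℕ, ∃ K : ℕ → Set (ℝ × ℝ), (∀ j, IsCompact (K j)) ∧
      (∑' j, volume (K j) ≤ (1 / 2 : ℝ≥0∞) ^ k) ∧ ∀ w ∈ N, ∃ j, w ∈ K j := by
    intro k
    have : Encodable (t k) := (ht1 k).toEncodable
    refine ⟨fun j => ⋃ b ∈ Encodable.decode₂ (t k) j, closedBall (b : ℝ × ℝ) (r k b), ?_, ?_, ?_⟩
    · intro j
      exact Encodable.iUnion_decode₂_cases (f := fun b : t k => closedBall (b : ℝ × ℝ) (r k b))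
        (C := fun s => IsCompact s) isCompact_empty (fun b => isCompact_closedBall _ _)
    · rw [tsum_iUnion_decode₂ (fun s : Set (ℝ × ℝ) => volume s) measure_empty
        (fun b : t k => closedBall (b : ℝ × ℝ) (r k b))]
      exact ht3 k
    · intro w hw
      have h1 := ht2 k hw
      rw [mem_iUnion₂] at h1
      obtain ⟨x, hx, hwx⟩ := h1
      have h2 : w ∈ ⋃ (i : ℕ) (b ∈ Encodable.decode₂ (t k) i),
          closedBall (b : ℝ × ℝ) (r k b) := by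
        rw [Encodable.iUnion_decode₂ (fun b : t k => closedBall (b : ℝ × ℝ) (r k b))]
        exact mem_iUnion.2 ⟨⟨x, hx⟩, hwx⟩
      exact mem_iUnion.1 h2
  choose K hK1 hK2 hK3 using hex
  refine ⟨fun i => K (Nat.unpair i).1 (Nat.unpair i).2, fun i => hK1 _ _, ?_, ?_⟩
  · have h1 : ∑' i, volume (K (Nat.unpair i).1 (Nat.unpair i).2) =
        ∑' q : ℕ × ℕ, volume (K q.1 q.2) :=
      Nat.pairEquiv.symm.tsum_eq (fun q : ℕ × ℕ => volume (K q.1 q.2))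
    rw [h1, ENNReal.tsum_prod']
    have h2 : ∑' a, ∑' b, volume (K a b) ≤ ∑' a : ℕ, (1 / 2 : ℝ≥0∞) ^ a :=
      ENNReal.tsum_le_tsum fun a => hK2 a
    refine ne_top_of_le_ne_top ?_ h2
    rw [ENNReal.tsum_geometric]
    simp
  · intro w hw
    rw [frequently_atTop]
    intro a
    obtain ⟨j, hj⟩ := hK3 a w hw
    refine ⟨Nat.pair a j, Nat.left_le_pair a j, ?_⟩
    show w ∈ K (Nat.unpair (Nat.pair a j)).1 (Nat.unpair (Nat.pair a j)).2
    rw [Nat.unpair_pair]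
    exact hj

theorem exists_group {a : ℕ → ℕ} (ha : StrictMono a) (k0 i : ℕ) (h : a k0 ≤ i) :
    ∃ k, k0 ≤ k ∧ a k ≤ i ∧ i < a (k + 1) := by
  have hle : ∀ k, k ≤ a k := fun k => ha.id_le k
  refine ⟨Nat.findGreatest (fun k => a k ≤ i) i, ?_, ?_, ?_⟩
  · exact Nat.le_findGreatest (le_trans (hle k0) h) h
  · exact Nat.findGreatest_spec (P := fun k => a k ≤ i) (le_trans (hle k0) h) h
  · by_contra hcon
    rw [not_lt] at hcon
    have h1 := Nat.le_findGreatest (P := fun k => a k ≤ i) (le_trans (hle _) hcon) hcon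
    omega

theorem ncard_prefix {p : ℕ → ℕ} (hp : Adm p) (X : Set ℝ) (m : ℕ)
    (hm : ∀ n ≥ m, (dig p n '' X).ncard ≤ 2 ^ n) (s : ℤ)
    (hs : ∀ x ∈ X, ⌊(PP p m : ℝ) * x⌋ = s) (k : ℕ) :
    ((fun x : ℝ => ⌊(PP p (m + k) : ℝ) * x⌋) '' X).Finite ∧
    ((fun x : ℝ => ⌊(PP p (m + k) : ℝ) * x⌋) '' X).ncard ≤ 2 ^ ((m + k) ^ 2) := by
  induction k with
  | zero =>
    have hsub : ((fun x : ℝ => ⌊(PP p (m + 0) : ℝ) * x⌋) '' X) ⊆ {s} := by
      rintro _ ⟨x, hx, rfl⟩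
      exact hs x hx
    refine ⟨(Set.finite_singleton s).subset hsub, ?_⟩
    have h1 := Set.ncard_le_ncard hsub (Set.finite_singleton s)
    rw [Set.ncard_singleton] at h1
    exact h1.trans Nat.one_le_two_pow
  | succ k ih =>
    obtain ⟨ih1, ih2⟩ := ih
    have hne : NeZero (LL p (m + k)) := ⟨(LL_pos hp (m + k)).ne'⟩
    have hfd : (dig p (m + k) '' X).Finite := Set.toFinite _
    have hsub : ((fun x : ℝ => ⌊(PP p (m + (k + 1)) : ℝ) * x⌋) '' X) ⊆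
        (fun q : ℤ × ZMod (LL p (m + k)) => q.1 * (LL p (m + k) : ℤ) + (q.2.val : ℤ)) ''
        (((fun x : ℝ => ⌊(PP p (m + k) : ℝ) * x⌋) '' X) ×ˢ (dig p (m + k) '' X)) := by
      rintro _ ⟨x, hx, rfl⟩
      refine ⟨(⌊(PP p (m + k) : ℝ) * x⌋, dig p (m + k) x), ⟨⟨x, hx, rfl⟩, ⟨x, hx, rfl⟩⟩, ?_⟩
      show ⌊(PP p (m + k) : ℝ) * x⌋ * (LL p (m + k) : ℤ) + ((dig p (m + k) x).val : ℤ) =
        ⌊(PP p (m + (k + 1)) : ℝ) * x⌋
      have h1 : ((dig p (m + k) x).val : ℤ) =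
          ⌊(PP p (m + k + 1) : ℝ) * x⌋ % (LL p (m + k) : ℤ) := by
        unfold dig
        rw [ZMod.val_intCast]
      have h2 : ⌊(PP p (m + k) : ℝ) * x⌋ = ⌊(PP p (m + k + 1) : ℝ) * x⌋ / (LL p (m + k) : ℤ) := by
        rw [← Int.floor_div_natCast]
        congr 1
        have h3 : (PP p (m + k + 1) : ℝ) = PP p (m + k) * (LL p (m + k) : ℝ) := by
          simp only [PP]; push_cast; ring
        have h4 : (LL p (m + k) : ℝ) ≠ 0 := by exact_mod_cast (LL_pos hp (m + k)).ne'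
        rw [h3]
        field_simp
      rw [h1, h2, mul_comm]
      exact Int.mul_ediv_add_emod _ _
    have hfp := ih1.prod hfd
    refine ⟨(hfp.image _).subset hsub, ?_⟩
    calc ((fun x : ℝ => ⌊(PP p (m + (k + 1)) : ℝ) * x⌋) '' X).ncard
        ≤ _ := Set.ncard_le_ncard hsub (hfp.image _)
      _ ≤ (((fun x : ℝ => ⌊(PP p (m + k) : ℝ) * x⌋) '' X) ×ˢ (dig p (m + k) '' X)).ncard :=
          Set.ncard_image_le hfp
      _ = ((fun x : ℝ => ⌊(PP p (m + k) : ℝ) * x⌋) '' X).ncard * (dig p (m + k) '' X).ncard :=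
          Set.ncard_prod
      _ ≤ 2 ^ ((m + k) ^ 2) * 2 ^ (m + k) := Nat.mul_le_mul ih2 (hm (m + k) (by omega))
      _ = 2 ^ ((m + k) ^ 2 + (m + k)) := (pow_add _ _ _).symm
      _ ≤ 2 ^ ((m + (k + 1)) ^ 2) := by
          apply Nat.pow_le_pow_right (by norm_num)
          nlinarith

/-- For each null set in the plane there are scales for which all products of sets with few
digits translate it to a null set. -/
theorem exists_scales (N : Set (ℝ × ℝ)) (hN : volume N = 0) :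
    ∃ p : ℕ → ℕ, Adm p ∧ ∀ X Y : Set ℝ, Few p X → Few p Y → volume ((X ×ˢ Y) + N) = 0 := by
  classical
  obtain ⟨K, hK1, hK2, hK3⟩ := exists_compacts N hN
  -- thickenings
  have hth : ∀ i, ∃ δ : ℝ, 0 < δ ∧
      volume (cthickening δ (K i)) ≤ volume (K i) + (1 / 2 : ℝ≥0∞) ^ i := by
    intro i
    have h1 := tendsto_measure_cthickening_of_isCompact (μ := (volume : Measure (ℝ × ℝ))) (hK1 i)
    have h2 : volume (K i) < volume (K i) + (1 / 2 : ℝ≥0∞) ^ i :=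
      ENNReal.lt_add_right (hK1 i).measure_lt_top.ne (pow_ne_zero _ (by simp))
    have h3 := h1.eventually (gt_mem_nhds h2)
    rw [Metric.eventually_nhds_iff] at h3
    obtain ⟨e, he, h4⟩ := h3
    refine ⟨e / 2, half_pos he, (h4 ?_).le⟩
    rw [Real.dist_eq, sub_zero, abs_of_pos (half_pos he)]
    exact half_lt_self he
  choose δ hδ0 hδ using hth
  set v : ℕ → ℝ≥0∞ := fun i => volume (K i) + (1 / 2 : ℝ≥0∞) ^ i with hv
  have hvs : ∑' i, v i ≠ ∞ := by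
    simp only [hv]
    rw [ENNReal.tsum_add, ENNReal.tsum_geometric]
    exact ENNReal.add_ne_top.2 ⟨hK2, by simp⟩
  -- groups
  have htail : ∀ k : ℕ, ∃ A : ℕ, ∀ n ≥ A,
      ∑' j, v (j + n) ≤ ENNReal.ofReal ((1 / 2) ^ (2 * (k + 1) ^ 2 + k)) := by
    intro k
    have h1 := ENNReal.tendsto_sum_nat_add v hvs
    have h2 : (0 : ℝ≥0∞) < ENNReal.ofReal ((1 / 2) ^ (2 * (k + 1) ^ 2 + k)) := by
      rw [ENNReal.ofReal_pos]; positivity
    obtain ⟨A, hA⟩ := eventually_atTop.1 (h1.eventually (gt_mem_nhds h2))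
    exact ⟨A, fun n hn => (hA n hn).le⟩
  choose A hA using htail
  set a : ℕ → ℕ := fun k => ∑ i ∈ Finset.range (k + 1), (A i + 1) with ha
  have hamono : StrictMono a := by
    apply strictMono_nat_of_lt_succ
    intro k
    simp only [ha]
    rw [Finset.sum_range_succ _ (k + 1)]
    omega
  have haA : ∀ k, A k ≤ a k := by
    intro k
    simp only [ha]
    rw [Finset.sum_range_succ]
    omega
  -- the primes
  have hprime : ∀ k : ℕ, ∃ q : ℕ, 2 ^ (k + 2) +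
      (∑ i ∈ Finset.Ico (a k) (a (k + 1)), ⌈1 / δ i⌉₊) ≤ q ∧ q.Prime :=
    fun k => Nat.exists_infinite_primes _
  choose p hp1 hp2 using hprime
  have hp : Adm p := ⟨hp2, fun n => (Nat.le_add_right _ _).trans (hp1 n)⟩
  have hPpos : ∀ k, (0 : ℝ) < PP p k := fun k => by exact_mod_cast PP_pos hp k
  have hPδ : ∀ k, ∀ i ∈ Finset.Ico (a k) (a (k + 1)), 1 / (PP p (k + 1) : ℝ) ≤ δ i := by
    intro k i hi
    have h1 : ⌈1 / δ i⌉₊ ≤ p k := by
      have h2 : ⌈1 / δ i⌉₊ ≤ ∑ i ∈ Finset.Ico (a k) (a (k + 1)), ⌈1 / δ i⌉₊ :=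
        Finset.single_le_sum (f := fun i => ⌈1 / δ i⌉₊) (fun _ _ => Nat.zero_le _) hi
      exact h2.trans ((Nat.le_add_left _ _).trans (hp1 k))
    have h3 : p k ≤ PP p (k + 1) := by
      simp only [PP, LL]
      have h4 := PP_pos hp k
      have h5 : 0 < 2 ^ (k + 2) := by positivity
      calc p k = 1 * (p k * 1) := by ring
        _ ≤ PP p k * (p k * 2 ^ (k + 2)) := Nat.mul_le_mul h4 (Nat.mul_le_mul_left _ h5)
    have h6 : 1 / δ i ≤ (PP p (k + 1) : ℝ) := by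
      refine (Nat.le_ceil _).trans ?_
      exact_mod_cast h1.trans h3
    rw [div_le_iff₀ (hPpos _)]
    rw [div_le_iff₀ (hδ0 i)] at h6
    linarith
  refine ⟨p, hp, fun X Y hX hY => ?_⟩
  obtain ⟨m1, hm1⟩ := hX
  obtain ⟨m2, hm2⟩ := hY
  set m := max m1 m2 with hm
  -- reduction to fixed integer parts
  have hcover : (X ×ˢ Y) + N ⊆ ⋃ s : ℤ, ⋃ t : ℤ,
      (({x | x ∈ X ∧ ⌊(PP p m : ℝ) * x⌋ = s} ×ˢ {y | y ∈ Y ∧ ⌊(PP p m : ℝ) * y⌋ = t}) + N) := by
    rintro _ ⟨⟨x, y⟩, ⟨hx, hy⟩, ν, hν, rfl⟩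
    rw [mem_iUnion]
    refine ⟨⌊(PP p m : ℝ) * x⌋, ?_⟩
    rw [mem_iUnion]
    exact ⟨⌊(PP p m : ℝ) * y⌋, (x, y), ⟨⟨hx, rfl⟩, ⟨hy, rfl⟩⟩, ν, hν, rfl⟩
  refine measure_mono_null hcover (measure_iUnion_null fun s => measure_iUnion_null fun t => ?_)
  set X' : Set ℝ := {x | x ∈ X ∧ ⌊(PP p m : ℝ) * x⌋ = s} with hX'
  set Y' : Set ℝ := {y | y ∈ Y ∧ ⌊(PP p m : ℝ) * y⌋ = t} with hY'
  have hXd : ∀ n ≥ m, (dig p n '' X').ncard ≤ 2 ^ n := by
    intro n hn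
    have hne : NeZero (LL p n) := ⟨(LL_pos hp n).ne'⟩
    refine (Set.ncard_le_ncard (Set.image_mono (fun x hx => hx.1)) (Set.toFinite _)).trans
      (hm1 n (le_trans (le_max_left _ _) hn))
  have hYd : ∀ n ≥ m, (dig p n '' Y').ncard ≤ 2 ^ n := by
    intro n hn
    have hne : NeZero (LL p n) := ⟨(LL_pos hp n).ne'⟩
    refine (Set.ncard_le_ncard (Set.image_mono (fun x hx => hx.1)) (Set.toFinite _)).trans
      (hm2 n (le_trans (le_max_right _ _) hn))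
  have hXp := fun k => ncard_prefix hp X' m hXd s (fun x hx => hx.2) k
  have hYp := fun k => ncard_prefix hp Y' m hYd t (fun x hx => hx.2) k
  let VX : ℕ → Finset ℤ := fun k => (hXp (k + 1)).1.toFinset
  let VY : ℕ → Finset ℤ := fun k => (hYp (k + 1)).1.toFinset
  have hVX : ∀ k, (VX k).card ≤ 2 ^ ((m + (k + 1)) ^ 2) := by
    intro k
    have := (hXp (k + 1)).2
    rwa [Set.ncard_eq_toFinset_card _ (hXp (k + 1)).1] at this
  have hVY : ∀ k, (VY k).card ≤ 2 ^ ((m + (k + 1)) ^ 2) := by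
    intro k
    have := (hYp (k + 1)).2
    rwa [Set.ncard_eq_toFinset_card _ (hYp (k + 1)).1] at this
  -- the sets to which Borel-Cantelli is applied
  let tr : ℕ → ℤ × ℤ → ℝ × ℝ := fun k q =>
    ((q.1 : ℝ) / PP p (m + k + 1), (q.2 : ℝ) / PP p (m + k + 1))
  let C : ℕ → Set (ℝ × ℝ) := fun k => ⋃ i ∈ Finset.Ico (a (m + k)) (a (m + k + 1)),
    ⋃ q ∈ VX k ×ˢ VY k, (fun w => -(tr k q) + w) ⁻¹' (cthickening (δ i) (K i))
  have hCvol : ∀ k, volume (C k) ≤ ENNReal.ofReal ((1 / 2) ^ k) := by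
    intro k
    have h1 : volume (C k) ≤ ∑ i ∈ Finset.Ico (a (m + k)) (a (m + k + 1)),
        ∑ q ∈ VX k ×ˢ VY k, v i := by
      refine (measure_biUnion_finset_le _ _).trans (Finset.sum_le_sum fun i _ => ?_)
      refine (measure_biUnion_finset_le _ _).trans (Finset.sum_le_sum fun q _ => ?_)
      rw [measure_preimage_add]
      exact hδ i
    have h2 : ∑ i ∈ Finset.Ico (a (m + k)) (a (m + k + 1)), v i ≤
        ENNReal.ofReal ((1 / 2) ^ (2 * (m + k + 1) ^ 2 + (m + k))) := by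
      refine le_trans ?_ (hA (m + k) (a (m + k)) (haA (m + k)))
      rw [Finset.sum_Ico_eq_sum_range]
      have h3 : ∀ j, v (a (m + k) + j) = v (j + a (m + k)) := fun j => by rw [add_comm]
      simp only [h3]
      exact ENNReal.sum_le_tsum _
    have h3 : (((VX k ×ˢ VY k).card : ℕ) : ℝ) ≤ 2 ^ (2 * (m + k + 1) ^ 2) := by
      rw [Finset.card_product]
      have h4 : (VX k).card * (VY k).card ≤ 2 ^ ((m + (k + 1)) ^ 2) * 2 ^ ((m + (k + 1)) ^ 2) :=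
        Nat.mul_le_mul (hVX k) (hVY k)
      have h5 : 2 ^ ((m + (k + 1)) ^ 2) * 2 ^ ((m + (k + 1)) ^ 2) = 2 ^ (2 * (m + k + 1) ^ 2) := by
        rw [← pow_add]
        congr 1
        ring
      rw [h5] at h4
      exact_mod_cast h4
    calc volume (C k) ≤ ∑ i ∈ Finset.Ico (a (m + k)) (a (m + k + 1)),
          ∑ q ∈ VX k ×ˢ VY k, v i := h1
      _ = ((VX k ×ˢ VY k).card : ℝ≥0∞) *
          ∑ i ∈ Finset.Ico (a (m + k)) (a (m + k + 1)), v i := by
          rw [Finset.mul_sum]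
          apply Finset.sum_congr rfl
          intro i _
          rw [Finset.sum_const, nsmul_eq_mul]
      _ ≤ ENNReal.ofReal (2 ^ (2 * (m + k + 1) ^ 2)) *
          ENNReal.ofReal ((1 / 2) ^ (2 * (m + k + 1) ^ 2 + (m + k))) := by
          refine mul_le_mul' ?_ h2
          rw [← ENNReal.ofReal_natCast]
          exact ENNReal.ofReal_le_ofReal h3
      _ = ENNReal.ofReal ((1 / 2) ^ (m + k)) := by
          rw [← ENNReal.ofReal_mul (by positivity), pow_add]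
          congr 1
          rw [← mul_assoc, ← mul_pow]
          norm_num
      _ ≤ ENNReal.ofReal ((1 / 2) ^ k) := by
          apply ENNReal.ofReal_le_ofReal
          exact pow_le_pow_of_le_one (by norm_num) (by norm_num) (by omega)
  have hBC : volume {w | ∃ᶠ k in atTop, w ∈ C k} = 0 := by
    apply measure_setOfPred_frequently_eq_zero
    have h1 : ∑' k, volume {w | w ∈ C k} ≤ ∑' k : ℕ, ENNReal.ofReal ((1 / 2) ^ k) :=
      ENNReal.tsum_le_tsum fun k => hCvol k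
    refine ne_top_of_le_ne_top ?_ h1
    have h2 : Summable (fun n : ℕ => ((1 : ℝ) / 2) ^ n) := summable_geometric_two
    rw [← ENNReal.ofReal_tsum_of_nonneg (fun n => by positivity) h2]
    exact ENNReal.ofReal_ne_top
  refine measure_mono_null ?_ hBC
  rintro _ ⟨⟨x, y⟩, ⟨hx, hy⟩, ν, hν, rfl⟩
  show ∃ᶠ k in atTop, (x, y) + ν ∈ C k
  rw [frequently_atTop]
  intro k0
  obtain ⟨i, hi1, hi2⟩ := (frequently_atTop.1 (hK3 ν hν)) (a (m + k0))
  obtain ⟨k', hk1, hk2, hk3⟩ := exists_group hamono (m + k0) i hi1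
  obtain ⟨k, rfl⟩ : ∃ k, k' = m + k := ⟨k' - m, by omega⟩
  refine ⟨k, by omega, ?_⟩
  have hiI : i ∈ Finset.Ico (a (m + k)) (a (m + k + 1)) := Finset.mem_Ico.2 ⟨hk2, hk3⟩
  refine mem_iUnion₂.2 ⟨i, hiI, mem_iUnion₂.2
    ⟨(⌊(PP p (m + (k + 1)) : ℝ) * x⌋, ⌊(PP p (m + (k + 1)) : ℝ) * y⌋), ?_, ?_⟩⟩
  · rw [Finset.mem_product]
    exact ⟨(hXp (k + 1)).1.mem_toFinset.2 ⟨x, hx, rfl⟩,
      (hYp (k + 1)).1.mem_toFinset.2 ⟨y, hy, rfl⟩⟩
  · show -(tr k (⌊(PP p (m + (k + 1)) : ℝ) * x⌋, ⌊(PP p (m + (k + 1)) : ℝ) * y⌋)) +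
      ((x, y) + ν) ∈ cthickening (δ i) (K i)
    apply mem_cthickening_of_dist_le _ ν _ _ hi2
    have hb : ∀ z c : ℝ, dist (-((⌊(PP p (m + (k + 1)) : ℝ) * z⌋ : ℝ) / PP p (m + k + 1)) +
        (z + c)) c ≤ δ i := by
      intro z c
      have hP : (0 : ℝ) < PP p (m + k + 1) := hPpos _
      have h1 := Int.floor_le ((PP p (m + k + 1) : ℝ) * z)
      have h2 := Int.lt_floor_add_one ((PP p (m + k + 1) : ℝ) * z)
      have h3 : -((⌊(PP p (m + (k + 1)) : ℝ) * z⌋ : ℝ) / PP p (m + k + 1)) + (z + c) - c =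
          ((PP p (m + k + 1) : ℝ) * z - ⌊(PP p (m + k + 1) : ℝ) * z⌋) / PP p (m + k + 1) := by
        have h4 : m + (k + 1) = m + k + 1 := rfl
        rw [h4]
        field_simp
        ring
      rw [Real.dist_eq, h3, abs_of_nonneg (div_nonneg (by linarith) hP.le)]
      refine le_trans ?_ (hPδ (m + k) i hiI)
      rw [div_le_div_iff_of_pos_right hP]
      linarith
    rw [Prod.dist_eq]
    exact max_le (hb x ν.1) (hb y ν.2)

end Pool.Agent.R610.NullReal
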