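import Pool.Agent.R196.PP.Pieces

/-!
# MP_68f671_pr, pieces P5a, P5b, P5c: geometry of one step
-/

namespace Pool.Agent.R196.PP

/-! ### General lemmas -/

theorem stp_fst (e : Fin 4) : (stp e).1 = 1 ∨ (stp e).1 = -1 := by
  fin_cases e <;> simp [stp]

theorem stp_snd (e : Fin 4) : (stp e).2 = 1 ∨ (stp e).2 = -1 := by
  fin_cases e <;> simp [stp]

theorem walk_fst (v : Pt) (k : ℕ) (e : Fin 4) :
    (v + (k : ℤ) • stp e).1 = v.1 + k * (stp e).1 := by simp

theorem walk_snd (v : Pt) (k : ℕ) (e : Fin 4) :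
    (v + (k : ℤ) • stp e).2 = v.2 + k * (stp e).2 := by simp

theorem gp_eq {A : Set Pt} {v : Pt} {e : Fin 4} {k : ℕ} (hk : 1 ≤ k)
    (hm : v + (k : ℤ) • stp e ∈ A) (hmin : ∀ t : ℕ, 1 ≤ t → t < k → v + (t : ℤ) • stp e ∉ A) :
    gp A v e = k := by
  unfold gp
  apply le_antisymm
  · exact Nat.sInf_le ⟨hk, hm⟩
  · refine le_csInf ?_ ?_
    · exact ⟨k, hk, hm⟩
    · rintro t ⟨ht1, ht2⟩
      by_contra hc
      exact hmin t ht1 (by omega) ht2

theorem nb_eq {A : Set Pt} {v : Pt} {e : Fin 4} {k : ℕ} (hk : 1 ≤ k)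
    (hm : v + (k : ℤ) • stp e ∈ A) (hmin : ∀ t : ℕ, 1 ≤ t → t < k → v + (t : ℤ) • stp e ∉ A) :
    nb A v e = v + (k : ℤ) • stp e := by
  unfold nb
  rw [gp_eq hk hm hmin]

/-- distance in the sup norm to the centre `(c,d)` -/
def rho (c d : ℤ) (v : Pt) : ℤ := max |v.1 - c| |v.2 - d|

theorem abs_step (a s : ℤ) (hs : s = 1 ∨ s = -1) : |a| ≤ |a + s| + 1 ∧ |a + s| ≤ |a| + 1 := by
  rcases abs_cases a with h | h <;> rcases abs_cases (a + s) with h' | h' <;> omega

theorem rho_step (c d : ℤ) (v : Pt) (e : Fin 4) (t : ℕ) :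
    rho c d (v + (t : ℤ) • stp e) ≤ rho c d (v + ((t + 1 : ℕ) : ℤ) • stp e) + 1 ∧
    rho c d (v + ((t + 1 : ℕ) : ℤ) • stp e) ≤ rho c d (v + (t : ℤ) • stp e) + 1 := by
  unfold rho
  rw [walk_fst, walk_snd, walk_fst, walk_snd]
  have h1 := abs_step (v.1 + t * (stp e).1 - c) _ (stp_fst e)
  have h2 := abs_step (v.2 + t * (stp e).2 - d) _ (stp_snd e)
  have e1 : v.1 + ((t + 1 : ℕ) : ℤ) * (stp e).1 - c = v.1 + t * (stp e).1 - c + (stp e).1 := by
    push_cast; ring
  have e2 : v.2 + ((t + 1 : ℕ) : ℤ) * (stp e).2 - d = v.2 + t * (stp e).2 - d + (stp e).2 := by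
    push_cast; ring
  rw [e1, e2]
  constructor
  · apply max_le
    · have := le_max_left |v.1 + t * (stp e).1 - c + (stp e).1| |v.2 + t * (stp e).2 - d + (stp e).2|
      omega
    · have := le_max_right |v.1 + t * (stp e).1 - c + (stp e).1| |v.2 + t * (stp e).2 - d + (stp e).2|
      omega
  · apply max_le
    · have := le_max_left |v.1 + t * (stp e).1 - c| |v.2 + t * (stp e).2 - d|
      omega
    · have := le_max_right |v.1 + t * (stp e).1 - c| |v.2 + t * (stp e).2 - d|
      omega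

/-- discrete intermediate values, downwards -/
theorem ivt_down (g : ℕ → ℤ) (hg : ∀ t, g t ≤ g (t + 1) + 1) (L : ℤ) (k : ℕ) (h0 : L ≤ g 0)
    (hk : g k < L) : ∃ t, t < k ∧ g t = L := by
  induction k with
  | zero => omega
  | succ k ih =>
    by_cases h : g k < L
    · obtain ⟨t, ht, ht'⟩ := ih h
      exact ⟨t, by omega, ht'⟩
    · exact ⟨k, by omega, by have := hg k; omega⟩

/-- discrete intermediate values, upwards -/
theorem ivt_up (g : ℕ → ℤ) (hg : ∀ t, g (t + 1) ≤ g t + 1) (L : ℤ) (k : ℕ) (h0 : g 0 < L)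
    (hk : L ≤ g k) : ∃ t, t ≤ k ∧ 0 < t ∧ g t = L := by
  induction k with
  | zero => omega
  | succ k ih =>
    by_cases h : L ≤ g k
    · obtain ⟨t, ht, ht'⟩ := ih h
      exact ⟨t, by omega, ht'⟩
    · exact ⟨k + 1, le_rfl, by omega, by have := hg k; omega⟩

/-! ### Periodicity of good environments -/

section Env
variable {M N Lm : ℕ} {A : Set Pt}

theorem GEnv.perM_mul (hA : GEnv M N Lm A) (v : Pt) (i : ℤ) : (v.1 + i * M, v.2) ∈ A ↔ v ∈ A := by
  have hn : ∀ (n : ℕ) (v : Pt), (v.1 + n * M, v.2) ∈ A ↔ v ∈ A := by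
    intro n
    induction n with
    | zero => intro v; simp
    | succ n ih =>
      intro v
      rw [← ih v, ← hA.perM (v.1 + n * M, v.2)]
      have : v.1 + ((n + 1 : ℕ) : ℤ) * M = v.1 + n * M + M := by push_cast; ring
      rw [this]
  obtain ⟨n, rfl | rfl⟩ := i.eq_nat_or_neg
  · exact hn n v
  · rw [← hn n (v.1 + -(n : ℤ) * M, v.2)]
    have : v.1 + -(n : ℤ) * M + n * M = v.1 := by ring
    rw [this]

theorem GEnv.perN_mul (hA : GEnv M N Lm A) (v : Pt) (i : ℤ) : (v.1, v.2 + i * N) ∈ A ↔ v ∈ A := by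
  have hn : ∀ (n : ℕ) (v : Pt), (v.1, v.2 + n * N) ∈ A ↔ v ∈ A := by
    intro n
    induction n with
    | zero => intro v; simp
    | succ n ih =>
      intro v
      rw [← ih v, ← hA.perN (v.1, v.2 + n * N)]
      have : v.2 + ((n + 1 : ℕ) : ℤ) * N = v.2 + n * N + N := by push_cast; ring
      rw [this]
  obtain ⟨n, rfl | rfl⟩ := i.eq_nat_or_neg
  · exact hn n v
  · rw [← hn n (v.1, v.2 + -(n : ℤ) * N)]
    have : v.2 + -(n : ℤ) * N + n * N = v.2 := by ring
    rw [this]

end Env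

section Step
variable {M N Lm M' N' L' : ℕ} {A : Set Pt}

theorem frame_iff (v : Pt) : v ∈ frame M' N' L' ↔ ∃ i j : ℤ, rho (i * M') (j * N') v = L' := Iff.rfl

theorem hole_iff (v : Pt) : v ∈ hole M' N' L' ↔ ∃ i j : ℤ, rho (i * M') (j * N') v < L' := by
  unfold hole rho
  simp only [Set.mem_ofPred_eq, max_lt_iff]

/-- the centre is unique -/
theorem uniq_centre {M' L' : ℕ} (hM : 8 * L' + 5 ≤ M') (x i j : ℤ) (h1 : |x - i * M'| ≤ 3 * L' + 2)
    (h2 : |x - j * M'| ≤ 3 * L' + 2) : i = j := by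
  rw [abs_le] at h1 h2
  by_contra hne
  have hM0 : (0 : ℤ) < M' := by omega
  rcases lt_or_gt_of_ne hne with h | h
  · have : (i + 1) * (M' : ℤ) ≤ j * M' := mul_le_mul_of_nonneg_right (by omega) hM0.le
    rw [add_mul, one_mul] at this
    omega
  · have : (j + 1) * (M' : ℤ) ≤ i * M' := mul_le_mul_of_nonneg_right (by omega) hM0.le
    rw [add_mul, one_mul] at this
    omega

theorem StepOK.lineA1 (hA : GEnv M N Lm A) (hS : StepOK M N Lm M' N' L') (v : Pt) (i : ℤ)
    (h : |v.1 - i * M'| = L' ∨ |v.1 - i * M'| = L' + 1) : v ∈ A := by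
  apply hA.lineM
  obtain ⟨m, hm⟩ := hS.dM
  obtain ⟨c, hc⟩ := hS.congM
  have hcz : 2 * (L' : ℤ) + 1 = (2 * c + 1) * M := by exact_mod_cast hc
  have hmz : (M' : ℤ) = M * m := by exact_mod_cast hm
  have e1 : (2 * (i * m + c) + 1) * (M : ℤ) = 2 * (i * M') + (2 * c + 1) * M := by rw [hmz]; ring
  have e2 : (2 * (i * m - c - 1) + 1) * (M : ℤ) = 2 * (i * M') - (2 * c + 1) * M := by
    rw [hmz]; ring
  rcases h with h | h
  · rcases abs_cases (v.1 - i * M') with h' | h'
    · exact ⟨i * m + c, Or.inr (by rw [e1]; omega)⟩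
    · exact ⟨i * m - c - 1, Or.inl (by rw [e2]; omega)⟩
  · rcases abs_cases (v.1 - i * M') with h' | h'
    · exact ⟨i * m + c, Or.inl (by rw [e1]; omega)⟩
    · exact ⟨i * m - c - 1, Or.inr (by rw [e2]; omega)⟩

theorem StepOK.lineA2 (hA : GEnv M N Lm A) (hS : StepOK M N Lm M' N' L') (v : Pt) (i : ℤ)
    (h : |v.2 - i * N'| = L' ∨ |v.2 - i * N'| = L' + 1) : v ∈ A := by
  apply hA.lineN
  obtain ⟨m, hm⟩ := hS.dN
  obtain ⟨c, hc⟩ := hS.congN
  have hcz : 2 * (L' : ℤ) + 1 = (2 * c + 1) * N := by exact_mod_cast hc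
  have hmz : (N' : ℤ) = N * m := by exact_mod_cast hm
  have e1 : (2 * (i * m + c) + 1) * (N : ℤ) = 2 * (i * N') + (2 * c + 1) * N := by rw [hmz]; ring
  have e2 : (2 * (i * m - c - 1) + 1) * (N : ℤ) = 2 * (i * N') - (2 * c + 1) * N := by
    rw [hmz]; ring
  rcases h with h | h
  · rcases abs_cases (v.2 - i * N') with h' | h'
    · exact ⟨i * m + c, Or.inr (by rw [e1]; omega)⟩
    · exact ⟨i * m - c - 1, Or.inl (by rw [e2]; omega)⟩
  · rcases abs_cases (v.2 - i * N') with h' | h'
    · exact ⟨i * m + c, Or.inl (by rw [e1]; omega)⟩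
    · exact ⟨i * m - c - 1, Or.inr (by rw [e2]; omega)⟩

theorem StepOK.frame_sub (hA : GEnv M N Lm A) (hS : StepOK M N Lm M' N' L') :
    frame M' N' L' ⊆ A \ hole M' N' L' := by
  intro v hv
  obtain ⟨i, j, hij⟩ := hv
  have h1 : |v.1 - i * M'| ≤ L' := by rw [← hij]; exact le_max_left _ _
  have h2 : |v.2 - j * N'| ≤ L' := by rw [← hij]; exact le_max_right _ _
  have h3 : |v.1 - i * M'| = L' ∨ |v.2 - j * N'| = L' := by
    rcases max_choice |v.1 - i * M'| |v.2 - j * N'| with h | h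
    · left; rw [← h]; exact hij
    · right; rw [← h]; exact hij
  constructor
  · rcases h3 with h3 | h3
    · exact hS.lineA1 hA v i (Or.inl h3)
    · exact hS.lineA2 hA v j (Or.inl h3)
  · rintro ⟨i', j', h4, h5⟩
    have hi : i = i' := uniq_centre hS.bigM v.1 i i' (by omega) (by omega)
    have hj : j = j' := uniq_centre hS.bigN v.2 j j' (by omega) (by omega)
    subst hi hj
    omega

/-- entering a hole from outside one meets a frame point strictly before -/
theorem cross_in (v : Pt) (e : Fin 4) (k : ℕ) (i j : ℤ)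
    (h0 : (L' : ℤ) ≤ rho (i * M') (j * N') v)
    (hk : rho (i * M') (j * N') (v + (k : ℤ) • stp e) < L') :
    ∃ t, t < k ∧ rho (i * M') (j * N') (v + (t : ℤ) • stp e) = L' := by
  apply ivt_down (fun t => rho (i * M') (j * N') (v + (t : ℤ) • stp e))
    (fun t => (rho_step _ _ v e t).1) L' k ?_ hk
  simpa using h0

/-- P5a: the next environment is good. -/
theorem p5a_holds : P5a := by
  intro M N Lm M' N' L' A hA hS
  obtain ⟨mM, hmM⟩ := hS.dM
  obtain ⟨mN, hmN⟩ := hS.dN
  have hgrow := hS.growL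
  have hbM := hS.bigM
  have hbN := hS.bigN
  refine ⟨hS.oddM, hS.oddN, hS.cop, ?_, ?_, ?_, ?_, ?_, ?_⟩
  · intro v
    have h1 : ((v.1 + M', v.2) : Pt) ∈ A ↔ v ∈ A := by
      have := hA.perM_mul v mM
      rw [← this, hmM]; push_cast; rw [mul_comm (mM : ℤ)]
    have h2 : ((v.1 + M', v.2) : Pt) ∈ hole M' N' L' ↔ v ∈ hole M' N' L' := by
      constructor
      · rintro ⟨i, j, hi, hj⟩
        refine ⟨i - 1, j, ?_, hj⟩
        have : v.1 - (i - 1) * M' = v.1 + M' - i * M' := by ring
        rw [this]; exact hi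
      · rintro ⟨i, j, hi, hj⟩
        refine ⟨i + 1, j, ?_, hj⟩
        have : v.1 + M' - (i + 1) * M' = v.1 - i * M' := by ring
        show |v.1 + M' - (i + 1) * M'| < L'
        rw [this]; exact hi
    rw [Set.mem_sdiff, Set.mem_sdiff, h1, h2]
  · intro v
    have h1 : ((v.1, v.2 + N') : Pt) ∈ A ↔ v ∈ A := by
      have := hA.perN_mul v mN
      rw [← this, hmN]; push_cast; rw [mul_comm (mN : ℤ)]
    have h2 : ((v.1, v.2 + N') : Pt) ∈ hole M' N' L' ↔ v ∈ hole M' N' L' := by
      constructor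
      · rintro ⟨i, j, hi, hj⟩
        refine ⟨i, j - 1, hi, ?_⟩
        have : v.2 - (j - 1) * N' = v.2 + N' - j * N' := by ring
        rw [this]; exact hj
      · rintro ⟨i, j, hi, hj⟩
        refine ⟨i, j + 1, hi, ?_⟩
        have : v.2 + N' - (j + 1) * N' = v.2 - j * N' := by ring
        show |v.2 + N' - (j + 1) * N'| < L'
        rw [this]; exact hj
    rw [Set.mem_sdiff, Set.mem_sdiff, h1, h2]
  · have hneg : ∀ v : Pt, v ∈ hole M' N' L' → -v ∈ hole M' N' L' := by
      rintro v ⟨i, j, hi, hj⟩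
      refine ⟨-i, -j, ?_, ?_⟩
      · show |-v.1 - -i * M'| < L'
        rw [show -v.1 - -i * M' = -(v.1 - i * M') by ring, abs_neg]; exact hi
      · show |-v.2 - -j * N'| < L'
        rw [show -v.2 - -j * N' = -(v.2 - j * N') by ring, abs_neg]; exact hj
    intro v
    have h2 : -v ∈ hole M' N' L' ↔ v ∈ hole M' N' L' :=
      ⟨fun h => by have := hneg _ h; rwa [neg_neg] at this, hneg v⟩
    rw [Set.mem_sdiff, Set.mem_sdiff, hA.neg v, h2]
  · intro v e
    obtain ⟨k, hk1, hk2, hk3⟩ := hA.hit v e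
    by_cases hw : v + (k : ℤ) • stp e ∈ hole M' N' L'
    · rw [hole_iff] at hw
      obtain ⟨i, j, hij⟩ := hw
      by_cases hv : (L' : ℤ) < rho (i * M') (j * N') v
      · obtain ⟨t, ht, ht'⟩ := cross_in v e k i j hv.le hij
        have ht0 : 1 ≤ t := by
          rcases Nat.eq_zero_or_pos t with h | h
          · subst h
            simp at ht'
            omega
          · exact h
        exact ⟨t, ht0, by omega, hS.frame_sub hA ⟨i, j, ht'⟩⟩
      · -- exit
        have hexit : (L' : ℤ) ≤ rho (i * M') (j * N') (v + ((2 * L' + 1 : ℕ) : ℤ) • stp e) := by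
          unfold rho
          apply le_max_of_le_left
          rw [walk_fst]
          have h1 : |v.1 - i * M'| ≤ L' := by
            have := le_max_left |v.1 - i * M'| |v.2 - j * N'|
            unfold rho at hv
            omega
          rw [abs_le] at h1
          push_cast
          rcases stp_fst e with hs | hs <;> rw [hs]
          · rw [le_abs]; omega
          · rw [le_abs]; omega
        obtain ⟨r, hr⟩ : ∃ r, 2 * L' + 1 = k + r := ⟨2 * L' + 1 - k, by omega⟩
        have hsum : ∀ t : ℕ, v + (k : ℤ) • stp e + (t : ℤ) • stp e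
            = v + ((k + t : ℕ) : ℤ) • stp e := by
          intro t; push_cast; rw [add_smul, add_assoc]
        obtain ⟨t, ht, ht0, ht'⟩ := ivt_up
          (fun t => rho (i * M') (j * N') (v + (k : ℤ) • stp e + (t : ℤ) • stp e))
          (fun t => (rho_step _ _ _ e t).2) L' r (by simpa using hij)
          (by simp only [hsum, ← hr]; exact hexit)
        simp only [hsum] at ht'
        exact ⟨k + t, by omega, by omega, hS.frame_sub hA ⟨i, j, ht'⟩⟩
    · exact ⟨k, hk1, by omega, hk3, hw⟩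
  · rintro v ⟨i, hi⟩
    have hodd : Odd mM := by
      have := hS.oddM
      rw [hmM] at this
      exact (Nat.odd_mul.1 this).2
    obtain ⟨c, hc⟩ := hodd
    have hMz : (M' : ℤ) = M * (2 * c + 1) := by rw [hmM, hc]; push_cast; ring
    constructor
    · apply hA.lineM
      have e1 : (2 * (i * (2 * c + 1) + c) + 1) * (M : ℤ) = (2 * i + 1) * M' := by rw [hMz]; ring
      exact ⟨i * (2 * c + 1) + c, by rw [e1]; exact hi⟩
    · rintro ⟨i', j', h4, -⟩
      rw [abs_lt] at h4
      have hM0 : (0 : ℤ) < M' := by omega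
      rcases lt_or_ge i i' with h | h
      · have h5 : (i + 1) * (M' : ℤ) ≤ i' * M' := mul_le_mul_of_nonneg_right (by omega) hM0.le
        have h6 : (2 * i + 1) * (M' : ℤ) = 2 * ((i + 1) * M') - M' := by ring
        rw [h6] at hi
        omega
      · have h5 : i' * (M' : ℤ) ≤ i * M' := mul_le_mul_of_nonneg_right (by omega) hM0.le
        have h6 : (2 * i + 1) * (M' : ℤ) = 2 * (i * M') + M' := by ring
        rw [h6] at hi
        omega
  · rintro v ⟨i, hi⟩
    have hodd : Odd mN := by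
      have := hS.oddN
      rw [hmN] at this
      exact (Nat.odd_mul.1 this).2
    obtain ⟨c, hc⟩ := hodd
    have hMz : (N' : ℤ) = N * (2 * c + 1) := by rw [hmN, hc]; push_cast; ring
    constructor
    · apply hA.lineN
      have e1 : (2 * (i * (2 * c + 1) + c) + 1) * (N : ℤ) = (2 * i + 1) * N' := by rw [hMz]; ring
      exact ⟨i * (2 * c + 1) + c, by rw [e1]; exact hi⟩
    · rintro ⟨i', j', -, h4⟩
      rw [abs_lt] at h4
      have hM0 : (0 : ℤ) < N' := by omega
      rcases lt_or_ge i j' with h | h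
      · have h5 : (i + 1) * (N' : ℤ) ≤ j' * N' := mul_le_mul_of_nonneg_right (by omega) hM0.le
        have h6 : (2 * i + 1) * (N' : ℤ) = 2 * ((i + 1) * N') - N' := by ring
        rw [h6] at hi
        omega
      · have h5 : j' * (N' : ℤ) ≤ i * N' := mul_le_mul_of_nonneg_right (by omega) hM0.le
        have h6 : (2 * i + 1) * (N' : ℤ) = 2 * (i * N') + N' := by ring
        rw [h6] at hi
        omega

/-- P5b. -/
theorem p5b_holds : P5b := by
  intro M N Lm M' N' L' A hA hS
  refine ⟨?_, hS.frame_sub hA⟩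
  intro v hv hvf e
  have hne : {k : ℕ | 1 ≤ k ∧ v + (k : ℤ) • stp e ∈ A}.Nonempty := by
    obtain ⟨k, hk1, -, hk3⟩ := hA.hit v e
    exact ⟨k, hk1, hk3⟩
  have hmem := Nat.sInf_mem hne
  have hmin : ∀ t : ℕ, 1 ≤ t → t < sInf {k : ℕ | 1 ≤ k ∧ v + (k : ℤ) • stp e ∈ A} →
      v + (t : ℤ) • stp e ∉ A := fun t ht1 ht2 ht3 => Nat.notMem_of_lt_sInf ht2 ⟨ht1, ht3⟩
  generalize sInf {k : ℕ | 1 ≤ k ∧ v + (k : ℤ) • stp e ∈ A} = k at hmem hmin
  obtain ⟨hk1, hk2⟩ := hmem
  rw [nb_eq hk1 hk2 hmin]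
  suffices hnh : v + (k : ℤ) • stp e ∉ hole M' N' L' from
    nb_eq hk1 ⟨hk2, hnh⟩ (fun t ht1 ht2 ht3 => hmin t ht1 ht2 ht3.1)
  rw [hole_iff]
  rintro ⟨i, j, hij⟩
  have h0 : (L' : ℤ) ≤ rho (i * M') (j * N') v := by
    by_contra hc
    exact hv.2 ((hole_iff v).2 ⟨i, j, by omega⟩)
  obtain ⟨t, ht, ht'⟩ := cross_in v e k i j h0 hij
  have ht0 : 1 ≤ t := by
    rcases Nat.eq_zero_or_pos t with h | h
    · subst h
      simp at ht'
      exact absurd ⟨i, j, ht'⟩ hvf
    · exact h
  exact hmin t ht0 ht (hS.frame_sub hA ⟨i, j, ht'⟩).1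

/-- P5c. -/
theorem p5c_holds : P5c := by
  intro M N Lm M' N' L' A hA hS v hv e
  have hgrow := hS.growL
  have h1 : |v.1| ≤ L' := by rw [← hv]; exact le_max_left _ _
  have h2 : |v.2| ≤ L' := by rw [← hv]; exact le_max_right _ _
  rw [abs_le] at h1 h2
  have hin : ∀ t : ℕ, |v.1 + t * (stp e).1| < L' → |v.2 + t * (stp e).2| < L' →
      v + (t : ℤ) • stp e ∉ A \ hole M' N' L' := by
    intro t ha hb hc
    refine hc.2 ⟨0, 0, ?_, ?_⟩
    · rw [walk_fst]; simpa using ha
    · rw [walk_snd]; simpa using hb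
  have hfr : ∀ w : Pt, max |w.1| |w.2| = (L' : ℤ) → w ∈ A \ hole M' N' L' := by
    intro w hw
    apply hS.frame_sub hA
    exact ⟨0, 0, by simpa using hw⟩
  refine ⟨?_, ?_, ?_, ?_⟩
  · intro hc
    have hmem : v + ((1 : ℕ) : ℤ) • stp e ∈ A \ hole M' N' L' := by
      have hw1 := walk_fst v 1 e
      have hw2 := walk_snd v 1 e
      generalize hw : v + ((1 : ℕ) : ℤ) • stp e = w at hw1 hw2
      push_cast at hw1 hw2
      rcases hc with hc | hc
      · have h3 : |w.1| = L' + 1 := by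
          rcases stp_fst e with hs | hs <;> rw [hs] at hc hw1 <;>
            rcases abs_cases w.1 with h | h <;> omega
        constructor
        · exact hS.lineA1 hA w 0 (Or.inr (by simpa using h3))
        · rintro ⟨i', j', h4, h5⟩
          have hi : 0 = i' := uniq_centre hS.bigM w.1 0 i' (by simp; omega) (by omega)
          subst hi
          simp at h4
          omega
      · have h3 : |w.2| = L' + 1 := by
          rcases stp_snd e with hs | hs <;> rw [hs] at hc hw2 <;>
            rcases abs_cases w.2 with h | h <;> omega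
        constructor
        · exact hS.lineA2 hA w 0 (Or.inr (by simpa using h3))
        · rintro ⟨i', j', h4, h5⟩
          have hi : 0 = j' := uniq_centre hS.bigN w.2 0 j' (by simp; omega) (by omega)
          subst hi
          simp at h5
          omega
    have e1 := nb_eq le_rfl hmem (fun t h h' => by omega)
    have e2 := nb_eq le_rfl hmem.1 (fun t h h' => by omega)
    rw [e1, e2]
    simp
  · rintro ⟨hc, hd⟩
    rw [abs_lt] at hd
    obtain ⟨k, hk⟩ : ∃ k : ℕ, (k : ℤ) = L' - (stp e).2 * v.2 := by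
      refine ⟨(L' - (stp e).2 * v.2).toNat, Int.toNat_of_nonneg ?_⟩
      rcases stp_snd e with hs | hs <;> rw [hs] <;> omega
    have hend : v + (k : ℤ) • stp e = (-((stp e).1 * (stp e).2 * v.2), (stp e).2 * L') := by
      apply Prod.ext
      · rw [walk_fst, hk]
        rcases stp_fst e with hs | hs <;> rw [hs] at hc ⊢ <;> simp only [] <;> linarith
      · rw [walk_snd, hk]
        rcases stp_snd e with hs | hs <;> rw [hs] <;> simp only [] <;> linarith
    rw [← hend]
    apply nb_eq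
    · rcases stp_snd e with hs | hs <;> rw [hs] at hk <;> omega
    · rw [hend]
      apply hfr
      show max |-((stp e).1 * (stp e).2 * v.2)| |(stp e).2 * L'| = L'
      rw [max_eq_right]
      · rcases stp_snd e with hs | hs <;> rw [hs] <;> simp
      · rcases stp_fst e with hs | hs <;> rcases stp_snd e with hs' | hs' <;>
          rw [hs, hs'] <;> simp <;> rw [abs_le] <;> omega
    · intro t ht1 ht2
      have ht3 : (t : ℤ) < k := by exact_mod_cast ht2
      apply hin t
      · rw [abs_lt]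
        rcases stp_fst e with hs | hs <;> rcases stp_snd e with hs' | hs' <;>
          rw [hs] at hc ⊢ <;> rw [hs'] at hk <;> omega
      · rw [abs_lt]
        rcases stp_snd e with hs' | hs' <;> rw [hs'] at hk ⊢ <;> omega
  · rintro ⟨hc, hd⟩
    rw [abs_lt] at hd
    obtain ⟨k, hk⟩ : ∃ k : ℕ, (k : ℤ) = L' - (stp e).1 * v.1 := by
      refine ⟨(L' - (stp e).1 * v.1).toNat, Int.toNat_of_nonneg ?_⟩
      rcases stp_fst e with hs | hs <;> rw [hs] <;> omega
    have hend : v + (k : ℤ) • stp e = ((stp e).1 * L', -((stp e).1 * (stp e).2 * v.1)) := by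
      apply Prod.ext
      · rw [walk_fst, hk]
        rcases stp_fst e with hs | hs <;> rw [hs] <;> simp only [] <;> linarith
      · rw [walk_snd, hk]
        rcases stp_snd e with hs | hs <;> rw [hs] at hc ⊢ <;> simp only [] <;> linarith
    rw [← hend]
    apply nb_eq
    · rcases stp_fst e with hs | hs <;> rw [hs] at hk <;> omega
    · rw [hend]
      apply hfr
      show max |(stp e).1 * (L' : ℤ)| |-((stp e).1 * (stp e).2 * v.1)| = L'
      rw [max_eq_left]
      · rcases stp_fst e with hs | hs <;> rw [hs] <;> simp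
      · rcases stp_fst e with hs | hs <;> rcases stp_snd e with hs' | hs' <;>
          rw [hs, hs'] <;> simp <;> rw [abs_le] <;> omega
    · intro t ht1 ht2
      have ht3 : (t : ℤ) < k := by exact_mod_cast ht2
      apply hin t
      · rw [abs_lt]
        rcases stp_fst e with hs' | hs' <;> rw [hs'] at hk ⊢ <;> omega
      · rw [abs_lt]
        rcases stp_fst e with hs | hs <;> rcases stp_snd e with hs' | hs' <;>
          rw [hs'] at hc ⊢ <;> rw [hs] at hk <;> omega
  · rintro ⟨hc, hd⟩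
    have hend : v + ((2 * L' : ℕ) : ℤ) • stp e = -v := by
      apply Prod.ext
      · rw [walk_fst]
        rcases stp_fst e with hs | hs <;> rw [hs] at hc ⊢ <;> push_cast <;>
          simp only [Prod.fst_neg] <;> linarith
      · rw [walk_snd]
        rcases stp_snd e with hs | hs <;> rw [hs] at hd ⊢ <;> push_cast <;>
          simp only [Prod.snd_neg] <;> linarith
    rw [← hend]
    apply nb_eq
    · omega
    · rw [hend]
      apply hfr
      simpa using hv
    · intro t ht1 ht2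
      apply hin t
      · rw [abs_lt]
        rcases stp_fst e with hs | hs <;> rw [hs] at hc ⊢ <;> omega
      · rw [abs_lt]
        rcases stp_snd e with hs' | hs' <;> rw [hs'] at hd ⊢ <;> omega

end Step

end Pool.Agent.R196.PP
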