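import Pool.Agent.R610.Lift

open Set Topology Filter

namespace Pool.Agent.R610.Perm

open Pool.Agent.R610.Lift

/-! ### codes -/

/-- code of `x|t` -/
def R (x : BS) : ℕ → ℕ
  | 0 => 0
  | (t + 1) => Nat.pair (R x t) (x t) + 1

theorem R_strictMono (x : BS) : StrictMono (R x) :=
  strictMono_nat_of_lt_succ (fun t => by
    have := Nat.left_le_pair (R x t) (x t)
    simp only [R]; omega)

theorem lt_R (x : BS) (t : ℕ) : x t < R x (t + 1) := by
  have := Nat.right_le_pair (R x t) (x t)
  simp only [R]; omega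

theorem le_R (x : BS) (t : ℕ) : t ≤ R x t := (R_strictMono x).id_le t

theorem R_congr {x y : BS} {t : ℕ} (h : ∀ i < t, x i = y i) : R x t = R y t := by
  induction t with
  | zero => rfl
  | succ t ih =>
    simp only [R]
    rw [ih (fun i hi => h i (by omega)), h t (by omega)]

theorem R_inj {x y : BS} {s t : ℕ} (h : R x s = R y t) : s = t ∧ ∀ i < s, x i = y i := by
  induction s generalizing t with
  | zero =>
    have := le_R y t
    have h0 : R x 0 = 0 := rfl
    refine ⟨by omega, fun i hi => by omega⟩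
  | succ s ih =>
    cases t with
    | zero =>
      have := le_R x (s + 1)
      have h0 : R y 0 = 0 := rfl
      omega
    | succ t =>
      simp only [R] at h
      have h1 : Nat.pair (R x s) (x s) = Nat.pair (R y t) (y t) := by omega
      rw [Nat.pair_eq_pair] at h1
      obtain ⟨h2, h3⟩ := ih h1.1
      refine ⟨by omega, fun i hi => ?_⟩
      rcases Nat.lt_or_ge i s with hlt | hge
      · exact h3 i hlt
      · have : i = s := by omega
        subst this
        rw [h1.2, h2]

/-- code values -/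
def cv (m r c : ℕ) : ℕ := Nat.pair (m + 1) (Nat.pair r c)

theorem lt_cv (m r c : ℕ) : m < cv m r c := by
  have := Nat.left_le_pair (m + 1) (Nat.pair r c)
  unfold cv; omega

theorem le_cv (m r c : ℕ) : r ≤ cv m r c := by
  have := Nat.right_le_pair (m + 1) (Nat.pair r c)
  have := Nat.left_le_pair r c
  unfold cv; omega

theorem cv_inj {m r c m' r' c' : ℕ} (h : cv m r c = cv m' r' c') : m = m' ∧ r = r' ∧ c = c' := by
  unfold cv at h
  rw [Nat.pair_eq_pair, Nat.pair_eq_pair] at h
  exact ⟨by omega, h.2.1, h.2.2⟩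

/-- the extra information coded at `n` -/
def cc (w : BS) (n : ℕ) : ℕ := if n % 3 = 2 then w (n / 3) else 0

/-- the code value of `(x,w)` at `n` -/
def code (x w : BS) (n : ℕ) : ℕ := cv n (R x (2 * n)) (cc w n)

theorem lt_code (x w : BS) (n : ℕ) : n < code x w n := lt_cv _ _ _

theorem code_inj {x w y w' : BS} {m n : ℕ} (h : code x w m = code y w' n) :
    m = n ∧ R x (2 * m) = R y (2 * n) := by
  obtain ⟨h1, h2, _⟩ := cv_inj h
  exact ⟨h1, h2⟩

/-! ### the permutation attached to a pair -/

/-- special positions -/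
def Special (x : BS) (n : ℕ) : Prop := n % 12 = 9 ∧ ∃ k, R x (2 * k) = n / 12

/-- the flag of `w` -/
def flag (w : BS) : ℕ := (Nat.unpair (w 0 - 1)).2

/-- positions in marked blocks -/
def Mk (x w : BS) (n : ℕ) : Prop :=
  (n % 12 = 1 ∨ n % 12 = 4 ∨ n % 12 = 7) ∧ flag w ≠ 0 ∧ ∃ k, 1 ≤ k ∧ w k ≠ 0 ∧ R x (2 * k) = n / 12

/-- eligible positions -/
def Elig (x w : BS) (n : ℕ) (U : Finset ℕ) : Prop :=
  Mk x w n ∧ x (2 * n) ∉ U ∧ ∀ m, n < m → x (2 * n) ≠ code x w m

/-- least value not in `U` -/
noncomputable def mex (U : Finset ℕ) : ℕ := Nat.find (Infinite.exists_notMem_finset U)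

theorem mex_notMem (U : Finset ℕ) : mex U ∉ U := Nat.find_spec (Infinite.exists_notMem_finset U)

theorem mex_le {U : Finset ℕ} {v : ℕ} (h : v ∉ U) : mex U ≤ v := Nat.find_min' _ h

theorem mex_le_card (U : Finset ℕ) : mex U ≤ U.card := by
  have h : Finset.range (mex U) ⊆ U := by
    intro v hv
    rw [Finset.mem_range] at hv
    by_contra hcon
    exact absurd (mex_le hcon) (by omega)
  have := Finset.card_le_card h
  rwa [Finset.card_range] at this

open Classical in
/-- the value at `n` given the set `U` of values used before -/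
noncomputable def val (x w : BS) (n : ℕ) (U : Finset ℕ) : ℕ :=
  if Special x n then mex U else if Elig x w n U then x (2 * n) else code x w n

/-- the values used before `n` -/
noncomputable def used (x w : BS) : ℕ → Finset ℕ
  | 0 => ∅
  | (n + 1) => insert (val x w n (used x w n)) (used x w n)

/-- the permutation attached to `(x,w)` -/
noncomputable def F (x w : BS) (n : ℕ) : ℕ := val x w n (used x w n)

theorem mem_used {x w : BS} {n v : ℕ} : v ∈ used x w n ↔ ∃ m < n, F x w m = v := by
  induction n with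
  | zero => simp [used]
  | succ n ih =>
    simp only [used, Finset.mem_insert, ih]
    constructor
    · rintro (h | ⟨m, hm, h⟩)
      · exact ⟨n, by omega, h.symm⟩
      · exact ⟨m, by omega, h⟩
    · rintro ⟨m, hm, h⟩
      rcases Nat.lt_or_ge m n with hlt | hge
      · right; exact ⟨m, hlt, h⟩
      · left
        have : m = n := by omega
        subst this
        exact h.symm

theorem card_used (x w : BS) (n : ℕ) : (used x w n).card ≤ n := by
  induction n with
  | zero => simp [used]
  | succ n ih =>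
    simp only [used]
    exact (Finset.card_insert_le _ _).trans (by omega)

/-- the three kinds of values -/
theorem F_cases (x w : BS) (n : ℕ) :
    (Special x n ∧ F x w n = mex (used x w n)) ∨
    (¬ Special x n ∧ Elig x w n (used x w n) ∧ F x w n = x (2 * n)) ∨
    (¬ Special x n ∧ ¬ Elig x w n (used x w n) ∧ F x w n = code x w n) := by
  unfold F val
  by_cases h1 : Special x n
  · left; exact ⟨h1, by rw [if_pos h1]⟩
  · right
    by_cases h2 : Elig x w n (used x w n)
    · left; exact ⟨h1, h2, by rw [if_neg h1, if_pos h2]⟩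
    · right; exact ⟨h1, h2, by rw [if_neg h1, if_neg h2]⟩

theorem mex_used_le (x w : BS) (n : ℕ) : mex (used x w n) ≤ n :=
  (mex_le_card _).trans (card_used _ _ _)

theorem F_notMem_used (x w : BS) (n : ℕ) : F x w n ∉ used x w n := by
  rcases F_cases x w n with ⟨_, h⟩ | ⟨_, h1, h⟩ | ⟨_, _, h⟩
  · rw [h]; exact mex_notMem _
  · rw [h]; exact h1.2.1
  · rw [h, mem_used]
    rintro ⟨m, hm, hF⟩
    rcases F_cases x w m with ⟨_, h'⟩ | ⟨_, h1', h'⟩ | ⟨_, _, h'⟩
    · have h2 := mex_used_le x w m
      have h3 := lt_code x w n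
      omega
    · rw [h'] at hF
      exact h1'.2.2 n hm hF
    · rw [h'] at hF
      have := (code_inj hF).1
      omega

theorem F_injective (x w : BS) : Function.Injective (F x w) := by
  intro m n h
  by_contra hne
  rcases lt_or_gt_of_ne hne with hlt | hgt
  · exact F_notMem_used x w n (mem_used.2 ⟨m, hlt, h⟩)
  · exact F_notMem_used x w m (mem_used.2 ⟨n, hgt, h.symm⟩)

theorem special_sp (x : BS) (k : ℕ) : Special x (12 * R x (2 * k) + 9) :=
  ⟨by omega, k, by omega⟩

theorem F_surjective (x w : BS) : Function.Surjective (F x w) := by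
  intro v
  by_contra hcon
  push Not at hcon
  have h1 : ∀ k, F x w (12 * R x (2 * k) + 9) ∈ Set.Iic v := by
    intro k
    rcases F_cases x w (12 * R x (2 * k) + 9) with ⟨_, h⟩ | ⟨h0, _⟩ | ⟨h0, _⟩
    · rw [h]
      apply mex_le
      rw [mem_used]
      rintro ⟨m, _, hm⟩
      exact hcon m hm
    · exact absurd (special_sp x k) h0
    · exact absurd (special_sp x k) h0
  have h2 : Function.Injective (fun k => F x w (12 * R x (2 * k) + 9)) := by
    intro a b hab
    have h3 := F_injective x w hab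
    have h4 : R x (2 * a) = R x (2 * b) := by omega
    have h5 := (R_strictMono x).injective h4
    omega
  exact (Set.infinite_of_injective_forall_mem h2 h1) (Set.finite_Iic v)

theorem F_bijective (x w : BS) : Function.Bijective (F x w) :=
  ⟨F_injective x w, F_surjective x w⟩

/-! ### continuity -/

theorem special_congr {x x' : BS} {n : ℕ} (h : ∀ i < n + 1, x' i = x i) :
    Special x' n ↔ Special x n := by
  unfold Special
  have key : ∀ k, 2 * k ≤ n + 1 → R x' (2 * k) = R x (2 * k) := fun k hk =>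
    R_congr (fun i hi => h i (by omega))
  constructor
  · rintro ⟨h1, k, hk⟩
    have := le_R x' (2 * k)
    exact ⟨h1, k, by rw [← key k (by omega)]; exact hk⟩
  · rintro ⟨h1, k, hk⟩
    have := le_R x (2 * k)
    exact ⟨h1, k, by rw [key k (by omega)]; exact hk⟩

theorem mk_congr {x x' w w' : BS} {n : ℕ} (h : ∀ i < n + 1, x' i = x i)
    (hw : ∀ i < n + 1, w' i = w i) : Mk x' w' n ↔ Mk x w n := by
  unfold Mk flag
  rw [hw 0 (by omega)]
  have key : ∀ k, 2 * k ≤ n + 1 → R x' (2 * k) = R x (2 * k) := fun k hk =>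
    R_congr (fun i hi => h i (by omega))
  constructor
  · rintro ⟨h1, h2, k, hk1, hk2, hk3⟩
    have := le_R x' (2 * k)
    exact ⟨h1, h2, k, hk1, by rw [← hw k (by omega)]; exact hk2,
      by rw [← key k (by omega)]; exact hk3⟩
  · rintro ⟨h1, h2, k, hk1, hk2, hk3⟩
    have := le_R x (2 * k)
    exact ⟨h1, h2, k, hk1, by rw [hw k (by omega)]; exact hk2,
      by rw [key k (by omega)]; exact hk3⟩

theorem code_congr {x x' w w' : BS} {n : ℕ} (h : ∀ i < 2 * n + 1, x' i = x i)
    (hw : ∀ i < n + 1, w' i = w i) : code x' w' n = code x w n := by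
  unfold code cc
  rw [R_congr (fun i hi => h i (by omega)), hw (n / 3) (by omega)]

theorem val_congr {x x' w w' : BS} {n : ℕ} (U : Finset ℕ) {N : ℕ}
    (hN : 2 * n + 2 * x (2 * n) + 4 ≤ N)
    (h : ∀ i < N, x' i = x i ∧ w' i = w i) : val x' w' n U = val x w n U := by
  have h1 : Special x' n ↔ Special x n := special_congr (fun i hi => (h i (by omega)).1)
  have h2 : Mk x' w' n ↔ Mk x w n :=
    mk_congr (fun i hi => (h i (by omega)).1) (fun i hi => (h i (by omega)).2)
  have h3 : x' (2 * n) = x (2 * n) := (h _ (by omega)).1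
  have h4 : ∀ m, m ≤ x (2 * n) + 1 → code x' w' m = code x w m := fun m hm =>
    code_congr (fun i hi => (h i (by omega)).1) (fun i hi => (h i (by omega)).2)
  have h5 : Elig x' w' n U ↔ Elig x w n U := by
    unfold Elig
    rw [h2, h3]
    constructor
    · rintro ⟨a, b, c⟩
      refine ⟨a, b, fun m hm => ?_⟩
      rcases Nat.lt_or_ge (x (2 * n) + 1) m with hlt | hge
      · have := lt_code x w m
        omega
      · rw [← h4 m hge]; exact c m hm
    · rintro ⟨a, b, c⟩
      refine ⟨a, b, fun m hm => ?_⟩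
      rcases Nat.lt_or_ge (x (2 * n) + 1) m with hlt | hge
      · have := lt_code x' w' m
        omega
      · rw [h4 m hge]; exact c m hm
  have h6 : code x' w' n = code x w n :=
    code_congr (fun i hi => (h i (by omega)).1) (fun i hi => (h i (by omega)).2)
  unfold val
  rw [h3, h6]
  by_cases hs : Special x n
  · rw [if_pos hs, if_pos (h1.2 hs)]
  · rw [if_neg hs, if_neg (fun h => hs (h1.1 h))]
    by_cases he : Elig x w n U
    · rw [if_pos he, if_pos (h5.2 he)]
    · rw [if_neg he, if_neg (fun h => he (h5.1 h))]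

theorem eventually_agree (x w : BS) (N : ℕ) :
    ∀ᶠ p : BS × BS in 𝓝 (x, w), ∀ i < N, p.1 i = x i ∧ p.2 i = w i := by
  have h1 : ∀ i, ∀ᶠ p : BS × BS in 𝓝 (x, w), p.1 i = x i := by
    intro i
    have hc : Continuous (fun p : BS × BS => p.1 i) := (continuous_apply i).comp continuous_fst
    have := hc.continuousAt (x := (x, w))
    exact this.eventually (IsOpen.mem_nhds (isOpen_discrete {x i}) rfl)
  have h2 : ∀ i, ∀ᶠ p : BS × BS in 𝓝 (x, w), p.2 i = w i := by
    intro i
    have hc : Continuous (fun p : BS × BS => p.2 i) := (continuous_apply i).comp continuous_snd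
    have := hc.continuousAt (x := (x, w))
    exact this.eventually (IsOpen.mem_nhds (isOpen_discrete {w i}) rfl)
  have h3 : ∀ᶠ p : BS × BS in 𝓝 (x, w), ∀ i ∈ Finset.range N, p.1 i = x i ∧ p.2 i = w i :=
    (Finset.eventually_all _).2 (fun i _ => (h1 i).and (h2 i))
  filter_upwards [h3] with p hp i hi
  exact hp i (Finset.mem_range.2 hi)

theorem used_locConst (x w : BS) (n : ℕ) :
    ∀ᶠ p : BS × BS in 𝓝 (x, w), used p.1 p.2 n = used x w n := by
  induction n with
  | zero => exact Eventually.of_forall (fun p => rfl)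
  | succ n ih =>
    filter_upwards [ih, eventually_agree x w (2 * n + 2 * x (2 * n) + 4)] with p hp1 hp2
    simp only [used]
    rw [hp1, val_congr _ le_rfl hp2]

theorem F_locConst (x w : BS) (n : ℕ) :
    ∀ᶠ p : BS × BS in 𝓝 (x, w), F p.1 p.2 n = F x w n := by
  filter_upwards [used_locConst x w n, eventually_agree x w (2 * n + 2 * x (2 * n) + 4)]
    with p hp1 hp2
  unfold F
  rw [hp1, val_congr _ le_rfl hp2]

theorem continuous_F : Continuous (fun p : BS × BS => F p.1 p.2) := by
  refine continuous_pi fun n => ?_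
  rw [continuous_iff_continuousAt]
  rintro ⟨x, w⟩
  apply tendsto_const_nhds.congr'
  filter_upwards [F_locConst x w n] with p hp
  exact hp.symm

/-! ### decoding -/

/-- remove the last entry -/
def pop (r : ℕ) : ℕ := (Nat.unpair (r - 1)).1

/-- the last entry -/
def lst (r : ℕ) : ℕ := (Nat.unpair (r - 1)).2

theorem pop_R (x : BS) (t : ℕ) : pop (R x (t + 1)) = R x t := by
  simp [pop, R]

theorem lst_R (x : BS) (t : ℕ) : lst (R x (t + 1)) = x t := by
  simp [lst, R]

theorem pop_iter (x : BS) (t j : ℕ) : pop^[j] (R x (t + j)) = R x t := by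
  induction j with
  | zero => rfl
  | succ j ih =>
    rw [Function.iterate_succ_apply, ← add_assoc, pop_R, ih]

/-- the decoding map -/
def D (h : BS) : BS × BS :=
  (fun t => lst (pop^[5 * t + 3] (Nat.unpair (Nat.unpair (h (3 * t + 2))).2).1),
    fun r => (Nat.unpair (Nat.unpair (h (3 * r + 2))).2).2)

theorem F_at_two (x w : BS) (t : ℕ) :
    F x w (3 * t + 2) = cv (3 * t + 2) (R x (6 * t + 4)) (w t) := by
  rcases F_cases x w (3 * t + 2) with ⟨h0, h⟩ | ⟨_, h1, h⟩ | ⟨_, _, h⟩
  · have := h0.1; omega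
  · have := h1.1.1; omega
  · rw [h]
    unfold code cc
    rw [if_pos (by omega)]
    congr 2
    · omega
    · omega

theorem D_F (x w : BS) : D (F x w) = (x, w) := by
  unfold D
  ext t
  · simp only [F_at_two, cv, Nat.unpair_pair]
    have h : 6 * t + 4 = (t + 1) + (5 * t + 3) := by omega
    rw [h, pop_iter, lst_R]
  · simp only [F_at_two, cv, Nat.unpair_pair]

theorem continuous_D : Continuous D := by
  unfold D
  refine Continuous.prodMk (continuous_pi fun t => ?_) (continuous_pi fun r => ?_)
  · exact (continuous_of_discreteTopology (f := fun m : ℕ =>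
      lst (pop^[5 * t + 3] (Nat.unpair (Nat.unpair m).2).1))).comp (continuous_apply _)
  · exact (continuous_of_discreteTopology (f := fun m : ℕ =>
      (Nat.unpair (Nat.unpair m).2).2)).comp (continuous_apply _)

/-- the family attached to a function `W` with closed graph is closed -/
theorem isClosed_family {W : BS → BS} (hW : ClosedGraph W) :
    IsClosed {h : BS | ∃ x, h = F x (W x)} := by
  have h : {h : BS | ∃ x, h = F x (W x)} =
      {h : BS | D h ∈ {p : BS × BS | p.2 = W p.1}} ∩ {h : BS | F (D h).1 (D h).2 = h} := by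
    ext h
    simp only [mem_inter_iff, mem_ofPred_eq]
    constructor
    · rintro ⟨x, rfl⟩
      rw [D_F]
      exact ⟨rfl, rfl⟩
    · rintro ⟨h1, h2⟩
      exact ⟨(D h).1, by rw [← h1, h2]⟩
  rw [h]
  apply IsClosed.inter
  · exact IsClosed.preimage continuous_D hW
  · exact isClosed_eq (continuous_F.comp continuous_D) continuous_id

/-! ### the colouring and almost disjointness -/

/-- the candidate positions of block `k` -/
def pos (x : BS) (k l : ℕ) : ℕ := 12 * R x (2 * k) + 3 * l + 1

/-- the colouring -/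
def Col (x : BS) (k k' : ℕ) : Prop := ∃ l < 3, ∃ l' < 3, ∃ y : BS,
  x (2 * pos x k l) = cv (pos x k l) (R y (2 * pos x k l)) 0 ∧
  x (2 * pos x k' l') = cv (pos x k' l') (R y (2 * pos x k' l')) 0

theorem mk_pos {x w : BS} {n : ℕ} (h : Mk x w n) :
    flag w ≠ 0 ∧ ∃ k l, 1 ≤ k ∧ w k ≠ 0 ∧ l < 3 ∧ n = pos x k l := by
  obtain ⟨h1, h2, k, hk1, hk2, hk3⟩ := h
  refine ⟨h2, k, (n % 12) / 3, hk1, hk2, by omega, ?_⟩
  unfold pos
  omega

/-- homogeneity of the marked blocks -/
def Hom (x w : BS) : Prop := flag w ≠ 0 → ∀ k k', 1 ≤ k → k < k' → w k ≠ 0 → w k' ≠ 0 → ¬ Col x k k'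

theorem finite_A3 {x w : BS} (hhom : Hom x w) (y : BS) :
    {n | Mk x w n ∧ x (2 * n) = cv n (R y (2 * n)) 0}.Finite := by
  rcases Set.eq_empty_or_nonempty {n | Mk x w n ∧ x (2 * n) = cv n (R y (2 * n)) 0} with he | ⟨n0, hn0⟩
  · rw [he]; exact Set.finite_empty
  · refine (Set.finite_Iic (n0 + 12)).subset ?_
    intro n hn
    obtain ⟨hf, k, l, hk1, hk2, hl, hn1⟩ := mk_pos hn.1
    obtain ⟨_, k0, l0, hk01, hk02, hl0, hn01⟩ := mk_pos hn0.1
    rcases lt_trichotomy k k0 with hlt | heq | hgt
    · exfalso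
      apply hhom hf k k0 hk1 hlt hk2 hk02
      exact ⟨l, hl, l0, hl0, y, by rw [← hn1]; exact hn.2, by rw [← hn01]; exact hn0.2⟩
    · subst heq
      rw [Set.mem_Iic, hn1, hn01]
      unfold pos
      omega
    · exfalso
      apply hhom hf k0 k hk01 hgt hk02 hk2
      exact ⟨l0, hl0, l, hl, y, by rw [← hn01]; exact hn0.2, by rw [← hn1]; exact hn.2⟩

theorem cc_of_mk {x w : BS} {n : ℕ} (h : Mk x w n) (w' : BS) : cc w' n = 0 := by
  unfold cc
  rw [if_neg]
  have := h.1
  omega

theorem almost_disjoint {x y w w' : BS} (hxy : x ≠ y) (hx : Hom x w) (hy : Hom y w') :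
    {n | F x w n = F y w' n}.Finite := by
  obtain ⟨i, hi⟩ := Function.ne_iff.1 hxy
  have hR : ∀ a b, R x a = R y b → a = b ∧ a ≤ i := by
    intro a b h
    obtain ⟨h1, h2⟩ := R_inj h
    refine ⟨h1, ?_⟩
    by_contra hlt
    exact hi (h2 i (by omega))
  refine (((Set.finite_Iic (12 * R x i + i + 12)).union (finite_A3 hx y)).union
    (finite_A3 hy x)).subset ?_
  intro n hn
  have hn' : F x w n = F y w' n := hn
  have hA2 : ∀ k k', R x (2 * k) = n / 12 → R y (2 * k') = n / 12 →
      n ∈ Set.Iic (12 * R x i + i + 12) := by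
    intro k k' hk hk'
    obtain ⟨h1, h2⟩ := hR (2 * k) (2 * k') (by omega)
    have h3 := (R_strictMono x).monotone h2
    rw [Set.mem_Iic]
    omega
  rcases F_cases x w n with ⟨h0, h⟩ | ⟨h0, h1, h⟩ | ⟨h0, h1, h⟩
  · rcases F_cases y w' n with ⟨h0', h'⟩ | ⟨h0', h1', h'⟩ | ⟨h0', h1', h'⟩
    · left; left
      obtain ⟨_, k, hk⟩ := h0
      obtain ⟨_, k', hk'⟩ := h0'
      exact hA2 k k' hk hk'
    · exfalso
      have h2 := h1'.1.1
      have h3 := h0.1
      omega
    · exfalso
      rw [h, h'] at hn'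
      have h2 := mex_used_le x w n
      have h3 := lt_code y w' n
      omega
  · rcases F_cases y w' n with ⟨h0', h'⟩ | ⟨h0', h1', h'⟩ | ⟨h0', h1', h'⟩
    · exfalso
      have h2 := h1.1.1
      have h3 := h0'.1
      omega
    · left; left
      obtain ⟨_, _, k, _, _, hk⟩ := h1.1
      obtain ⟨_, _, k', _, _, hk'⟩ := h1'.1
      exact hA2 k k' hk hk'
    · left; right
      refine ⟨h1.1, ?_⟩
      rw [h, h'] at hn'
      rw [hn']
      unfold code
      rw [cc_of_mk h1.1]
  · rcases F_cases y w' n with ⟨h0', h'⟩ | ⟨h0', h1', h'⟩ | ⟨h0', h1', h'⟩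
    · exfalso
      rw [h, h'] at hn'
      have h2 := mex_used_le y w' n
      have h3 := lt_code x w n
      omega
    · right
      refine ⟨h1'.1, ?_⟩
      rw [h, h'] at hn'
      rw [← hn']
      unfold code
      rw [cc_of_mk h1'.1]
    · left; left
      rw [h, h'] at hn'
      obtain ⟨_, h3⟩ := hR _ _ (code_inj hn').2
      rw [Set.mem_Iic]
      omega

end Pool.Agent.R610.Perm
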