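import Pool.Agent.R610.Perm

open Set Topology Filter

namespace Pool.Agent.R610.Ramsey

open Pool.Agent.R610.Lift Pool.Agent.R610.Perm

/-- unbounded sets -/
def Unb (T : Set ℕ) : Prop := ∀ N, ∃ b, N < b ∧ b ∈ T

/-- `a` is the least element of `T` -/
def IsMn (T : Set ℕ) (a : ℕ) : Prop := a ∈ T ∧ ∀ a', a' < a → a' ∉ T

/-- infinitely many elements of `T` form with `a` a pair of colour 0 -/
def Ev (x : BS) (T : Set ℕ) (a : ℕ) : Prop := ∀ N, ∃ b, N < b ∧ (b ∈ T ∧ ¬ Col x a b)

/-- one step of the construction -/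
def step (x : BS) (T : Set ℕ) : Set ℕ :=
  {b | b ∈ T ∧ ∃ a, IsMn T a ∧ a < b ∧ (Ev x T a ↔ ¬ Col x a b)}

/-- the nested sets -/
def S (x : BS) : ℕ → Set ℕ
  | 0 => {b | 1 ≤ b}
  | (i + 1) => step x (S x i)

theorem exists_isMn {T : Set ℕ} (hT : Unb T) : ∃ a, IsMn T a := by
  classical
  obtain ⟨b, _, hb⟩ := hT 0
  exact ⟨Nat.find ⟨b, hb⟩, Nat.find_spec (⟨b, hb⟩ : ∃ b, b ∈ T), fun a' ha' =>
    Nat.find_min (⟨b, hb⟩ : ∃ b, b ∈ T) ha'⟩

theorem isMn_unique {T : Set ℕ} {a b : ℕ} (ha : IsMn T a) (hb : IsMn T b) : a = b := by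
  rcases lt_trichotomy a b with h | h | h
  · exact absurd ha.1 (hb.2 a h)
  · exact h
  · exact absurd hb.1 (ha.2 b h)

theorem unb_step (x : BS) {T : Set ℕ} (hT : Unb T) : Unb (step x T) := by
  obtain ⟨a, ha⟩ := exists_isMn hT
  intro N
  by_cases hE : Ev x T a
  · obtain ⟨b, hb1, hb2, hb3⟩ := hE (max N a)
    exact ⟨b, lt_of_le_of_lt (le_max_left _ _) hb1, hb2, a, ha,
      lt_of_le_of_lt (le_max_right _ _) hb1, iff_of_true hE hb3⟩
  · have hE' := hE
    unfold Ev at hE'
    push Not at hE'
    obtain ⟨M, hM⟩ := hE'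
    obtain ⟨b, hb1, hb2⟩ := hT (max N (max M a))
    have h1 : N < b := lt_of_le_of_lt (le_max_left _ _) hb1
    have h2 : M < b := lt_of_le_of_lt (le_trans (le_max_left _ _) (le_max_right _ _)) hb1
    have h3 : a < b := lt_of_le_of_lt (le_trans (le_max_right _ _) (le_max_right _ _)) hb1
    refine ⟨b, h1, hb2, a, ha, h3, iff_of_false hE ?_⟩
    exact not_not.2 (hM b h2 hb2)

theorem unb_S (x : BS) (i : ℕ) : Unb (S x i) := by
  induction i with
  | zero => intro N; exact ⟨N + 1, by omega, by show 1 ≤ N + 1; omega⟩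
  | succ i ih => exact unb_step x ih

/-- the least element of the `i`-th set -/
noncomputable def mn (x : BS) (i : ℕ) : ℕ := Classical.choose (exists_isMn (unb_S x i))

theorem isMn_mn (x : BS) (i : ℕ) : IsMn (S x i) (mn x i) :=
  Classical.choose_spec (exists_isMn (unb_S x i))

theorem S_anti (x : BS) {i j : ℕ} (h : i ≤ j) : S x j ⊆ S x i := by
  induction j with
  | zero =>
    have : i = 0 := by omega
    rw [this]
  | succ j ih =>
    rcases Nat.lt_or_ge j i with hlt | hge
    · have : i = j + 1 := by omega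
      rw [this]
    · intro b hb
      exact ih hge hb.1

theorem mn_rel (x : BS) {i j : ℕ} (h : i < j) :
    mn x i < mn x j ∧ (Ev x (S x i) (mn x i) ↔ ¬ Col x (mn x i) (mn x j)) := by
  have h1 : mn x j ∈ S x (i + 1) := S_anti x h (isMn_mn x j).1
  obtain ⟨_, a, ha, hab, hE⟩ := h1
  have : a = mn x i := isMn_unique ha (isMn_mn x i)
  subst this
  exact ⟨hab, hE⟩

theorem mn_strictMono (x : BS) : StrictMono (mn x) := fun _ _ h => (mn_rel x h).1

theorem one_le_mn (x : BS) (i : ℕ) : 1 ≤ mn x i :=
  S_anti x (Nat.zero_le i) (isMn_mn x i).1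

/-- the elements chosen with colour 0 -/
def K0 (x : BS) : Set ℕ := {n | ∃ i, IsMn (S x i) n ∧ Ev x (S x i) n}

theorem K0_pos {x : BS} {n : ℕ} (h : n ∈ K0 x) : 1 ≤ n := by
  obtain ⟨i, hi, _⟩ := h
  exact S_anti x (Nat.zero_le i) hi.1

theorem K0_hom {x : BS} {k k' : ℕ} (hk : k ∈ K0 x) (hk' : k' ∈ K0 x) (h : k < k') :
    ¬ Col x k k' := by
  obtain ⟨i, hi, hE⟩ := hk
  obtain ⟨j, hj, hE'⟩ := hk'
  have h1 : k = mn x i := isMn_unique hi (isMn_mn x i)
  have h2 : k' = mn x j := isMn_unique hj (isMn_mn x j)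
  subst h1; subst h2
  have h3 : i < j := (mn_strictMono x).lt_iff_lt.1 h
  exact (mn_rel x h3).2.1 hE

theorem hom1 {x : BS} (h : ¬ Unb (K0 x)) :
    ∃ H : Set ℕ, Unb H ∧ (∀ k ∈ H, 1 ≤ k) ∧ ∀ k ∈ H, ∀ k' ∈ H, k < k' → Col x k k' := by
  unfold Unb at h
  push Not at h
  obtain ⟨N, hN⟩ := h
  have hE : ∀ i, N < i → ¬ Ev x (S x i) (mn x i) := by
    intro i hi hE
    have h1 := (mn_strictMono x).id_le i
    simp only [id] at h1
    exact hN (mn x i) (by omega) ⟨i, isMn_mn x i, hE⟩
  refine ⟨{n | ∃ i, N < i ∧ n = mn x i}, ?_, ?_, ?_⟩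
  · intro M
    refine ⟨mn x (N + M + 1), ?_, N + M + 1, by omega, rfl⟩
    have h1 := (mn_strictMono x).id_le (N + M + 1)
    simp only [id] at h1
    omega
  · rintro k ⟨i, _, rfl⟩
    exact one_le_mn x i
  · rintro k ⟨i, hi, rfl⟩ k' ⟨j, hj, rfl⟩ hlt
    have h3 : i < j := (mn_strictMono x).lt_iff_lt.1 hlt
    by_contra hcon
    exact hE i hi ((mn_rel x h3).2.2 hcon)

/-- the chosen set of blocks -/
def K (x : BS) : Set ℕ := {b | (Unb (K0 x) ∧ b ∈ K0 x) ∨ (¬ Unb (K0 x) ∧ 1 ≤ b)}

theorem unb_K (x : BS) : Unb (K x) := by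
  by_cases h : Unb (K0 x)
  · intro N
    obtain ⟨b, hb1, hb2⟩ := h N
    exact ⟨b, hb1, Or.inl ⟨h, hb2⟩⟩
  · intro N
    exact ⟨N + 1, by omega, Or.inr ⟨h, by omega⟩⟩

theorem exists_next (x : BS) (m : ℕ) : ∃ b, IsMn {b | b ∈ K x ∧ m < b} b := by
  apply exists_isMn
  intro N
  obtain ⟨b, hb1, hb2⟩ := unb_K x (max N m)
  exact ⟨b, lt_of_le_of_lt (le_max_left _ _) hb1, hb2, lt_of_le_of_lt (le_max_right _ _) hb1⟩

/-- the enumeration of the chosen set, preceded by 0 -/
noncomputable def kp (x : BS) : ℕ → ℕ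
  | 0 => 0
  | (i + 1) => Classical.choose (exists_next x (kp x i))

theorem kp_spec (x : BS) (i : ℕ) : IsMn {b | b ∈ K x ∧ kp x i < b} (kp x (i + 1)) :=
  Classical.choose_spec (exists_next x (kp x i))

open Classical in
/-- the function to be lifted -/
noncomputable def Theta (x : BS) : BS := fun i => match i with
  | 0 => if Unb (K0 x) then 1 else 0
  | (i + 1) => kp x (i + 1) - kp x i - 1

theorem Theta_zero_pos {x : BS} (h : Unb (K0 x)) : Theta x 0 = 1 := if_pos h

theorem Theta_zero_neg {x : BS} (h : ¬ Unb (K0 x)) : Theta x 0 = 0 := if_neg h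

/-! ### measurability -/

theorem continuous_R (t : ℕ) : Continuous (fun x : BS => R x t) := by
  induction t with
  | zero => simp only [R]; exact continuous_const
  | succ t ih =>
    simp only [R]
    exact (continuous_of_discreteTopology (f := fun q : ℕ × ℕ => Nat.pair q.1 q.2 + 1)).comp
      (ih.prodMk (continuous_apply t))

theorem continuous_pos (k l : ℕ) : Continuous (fun x : BS => pos x k l) := by
  unfold pos
  exact (continuous_of_discreteTopology (f := fun q : ℕ => 12 * q + 3 * l + 1)).comp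
      (continuous_R (2 * k))

theorem continuous_at_pos (k l : ℕ) : Continuous (fun x : BS => x (2 * pos x k l)) := by
  apply continuous_evalAt continuous_id
  exact (continuous_of_discreteTopology (f := fun q : ℕ => 2 * q)).comp (continuous_pos k l)

theorem measurable_Col (k k' : ℕ) : Measurable (fun x : BS => Col x k k') := by
  unfold Col
  refine Measurable.exists fun l => Measurable.and measurable_const ?_
  refine Measurable.exists fun l' => Measurable.and measurable_const ?_
  have h := (((continuous_pos k l).prodMk (continuous_at_pos k l)).prodMk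
    ((continuous_pos k' l').prodMk (continuous_at_pos k' l'))).measurable
  exact (Measurable.of_discrete (f := fun q : (ℕ × ℕ) × (ℕ × ℕ) =>
    ∃ y : BS, q.1.2 = cv q.1.1 (R y (2 * q.1.1)) 0 ∧ q.2.2 = cv q.2.1 (R y (2 * q.2.1)) 0)).comp h

theorem measurable_Unb {T : BS → Set ℕ} (hT : ∀ b, Measurable (fun x => b ∈ T x)) :
    Measurable (fun x => Unb (T x)) := by
  unfold Unb
  exact Measurable.forall fun N => Measurable.exists fun b => Measurable.and measurable_const (hT b)

theorem measurable_IsMn {T : BS → Set ℕ} (hT : ∀ b, Measurable (fun x => b ∈ T x)) (a : ℕ) :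
    Measurable (fun x => IsMn (T x) a) := by
  unfold IsMn
  exact (hT a).and (Measurable.forall fun a' => Measurable.imp measurable_const (hT a').not)

theorem measurable_Ev {T : BS → Set ℕ} (hT : ∀ b, Measurable (fun x => b ∈ T x)) (a : ℕ) :
    Measurable (fun x => Ev x (T x) a) := by
  unfold Ev
  exact Measurable.forall fun N => Measurable.exists fun b =>
    Measurable.and measurable_const ((hT b).and (measurable_Col a b).not)

theorem measurable_step {T : BS → Set ℕ} (hT : ∀ b, Measurable (fun x => b ∈ T x)) (b : ℕ) :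
    Measurable (fun x => b ∈ step x (T x)) := by
  show Measurable (fun x => b ∈ T x ∧ ∃ a, IsMn (T x) a ∧ a < b ∧ (Ev x (T x) a ↔ ¬ Col x a b))
  exact (hT b).and (Measurable.exists fun a => (measurable_IsMn hT a).and
    (Measurable.and measurable_const ((measurable_Ev hT a).iff (measurable_Col a b).not)))

theorem measurable_S (i b : ℕ) : Measurable (fun x => b ∈ S x i) := by
  induction i generalizing b with
  | zero => exact measurable_const
  | succ i ih => exact measurable_step ih b

theorem measurable_K0 (b : ℕ) : Measurable (fun x => b ∈ K0 x) := by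
  show Measurable (fun x => ∃ i, IsMn (S x i) b ∧ Ev x (S x i) b)
  exact Measurable.exists fun i => (measurable_IsMn (measurable_S i) b).and
    (measurable_Ev (measurable_S i) b)

theorem measurable_K (b : ℕ) : Measurable (fun x => b ∈ K x) := by
  show Measurable (fun x => (Unb (K0 x) ∧ b ∈ K0 x) ∨ (¬ Unb (K0 x) ∧ 1 ≤ b))
  exact ((measurable_Unb measurable_K0).and (measurable_K0 b)).or
    ((measurable_Unb measurable_K0).not.and measurable_const)

theorem measurable_kp (i : ℕ) : Measurable (fun x => kp x i) := by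
  induction i with
  | zero => simp only [kp]; exact measurable_const
  | succ i ih =>
    apply measurable_to_countable'
    intro n
    have h : (fun x => kp x (i + 1)) ⁻¹' {n} =
        {x | ∃ m, kp x i = m ∧ IsMn {b | b ∈ K x ∧ m < b} n} := by
      ext x
      simp only [mem_preimage, mem_singleton_iff, mem_ofPred_eq]
      constructor
      · rintro rfl
        exact ⟨kp x i, rfl, kp_spec x i⟩
      · rintro ⟨m, rfl, hm⟩
        exact isMn_unique (kp_spec x i) hm
    rw [h]
    apply measurableSet_setOfPred.2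
    refine Measurable.exists fun m => Measurable.and ?_ ?_
    · exact measurableSet_setOfPred.1 (ih (measurableSet_singleton m))
    · exact measurable_IsMn (T := fun x => {b | b ∈ K x ∧ m < b})
        (fun b => (measurable_K b).and measurable_const) n

open Classical in
theorem measurable_Theta : Measurable Theta := by
  rw [measurable_pi_iff]
  intro i
  match i with
  | 0 =>
    show Measurable (fun x => if Unb (K0 x) then 1 else 0)
    exact Measurable.ite (measurableSet_setOfPred.2 (measurable_Unb measurable_K0))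
      measurable_const measurable_const
  | (i + 1) =>
    show Measurable (fun x => kp x (i + 1) - kp x i - 1)
    exact (Measurable.of_discrete (f := fun q : ℕ × ℕ => q.1 - q.2 - 1)).comp
      ((measurable_kp (i + 1)).prodMk (measurable_kp i))

/-! ### the witness function -/

/-- There is a function with closed graph whose values mark, for each `x`, an infinite set of
blocks homogeneous of colour 0, or raise the flag 0 when there is an infinite homogeneous set
of colour 1. -/
theorem exists_witness : ∃ W : BS → BS, ClosedGraph W ∧ (∀ x, Hom x (W x)) ∧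
    (∀ x, ∃ κ : ℕ → ℕ, StrictMono κ ∧ κ 0 = 0 ∧ (∀ r, W x r ≠ 0 ↔ ∃ i, κ i = r)) ∧
    (∀ x, flag (W x) = 0 → ∃ H : Set ℕ, Unb H ∧ (∀ k ∈ H, 1 ≤ k) ∧
      ∀ k ∈ H, ∀ k' ∈ H, k < k' → Col x k k') := by
  obtain ⟨Y, hY, hYT⟩ := exists_lift measurable_Theta
  have hkap : ∀ x i, kap (Y x) i = kp x i := by
    intro x i
    induction i with
    | zero => rfl
    | succ i ih =>
      have h1 : kp x i < kp x (i + 1) := (kp_spec x i).1.2
      have h2 : Y x (2 * i + 2) = kp x (i + 1) - kp x i - 1 := by
        have := hYT x (i + 1)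
        rw [show 2 * (i + 1) = 2 * i + 2 by ring] at this
        exact this
      simp only [kap]
      rw [ih, h2]
      omega
  have hflag : ∀ x, flag (pad (Y x)) = Theta x 0 := by
    intro x
    have h1 := pad_kap (Y x) 0
    have h2 : kap (Y x) 0 = 0 := rfl
    rw [h2] at h1
    unfold flag
    rw [h1, Nat.add_sub_cancel_left, Nat.unpair_pair]
    exact hYT x 0
  have hne : ∀ x r, pad (Y x) r ≠ 0 ↔ ∃ i, kp x i = r := by
    intro x r
    constructor
    · intro h
      by_contra hcon
      push Not at hcon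
      exact h (pad_eq_zero _ _ (fun i => by rw [hkap]; exact hcon i))
    · rintro ⟨i, rfl⟩
      rw [← hkap, pad_kap]
      omega
  refine ⟨fun x => pad (Y x), closedGraph_comp hY continuous_pad continuous_unpad unpad_pad,
    ?_, ?_, ?_⟩
  · intro x hf k k' hk hlt h1 h2
    rw [hflag] at hf
    have hU : Unb (K0 x) := by
      by_contra hcon
      exact hf (Theta_zero_neg hcon)
    have hmem : ∀ k, 1 ≤ k → pad (Y x) k ≠ 0 → k ∈ K0 x := by
      intro k hk h
      obtain ⟨i, hi⟩ := (hne x k).1 h
      cases i with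
      | zero =>
        have : kp x 0 = 0 := rfl
        omega
      | succ i =>
        have h3 : kp x (i + 1) ∈ K x := (kp_spec x i).1.1
        rw [hi] at h3
        rcases h3 with h3 | h3
        · exact h3.2
        · exact absurd hU h3.1
    exact K0_hom (hmem k hk h1) (hmem k' (by omega) h2) hlt
  · intro x
    refine ⟨kp x, strictMono_nat_of_lt_succ (fun i => (kp_spec x i).1.2), rfl, hne x⟩
  · intro x hf
    have hf' : flag (pad (Y x)) = 0 := hf
    rw [hflag] at hf'
    apply hom1
    intro hU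
    rw [Theta_zero_pos hU] at hf'
    omega

end Pool.Agent.R610.Ramsey
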