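import Pool.Agent.H38R3.Mad
import Pool.Agent.Results.MP_8a0632_lc.NotErdosUlam

set_option autoImplicit false

open Set Filter Topology

namespace Pool.Agent.R610.Z0Mad

open Pool.Agent.H38R3.Ell Pool.Agent.H38R3.Mad

/-- the density zero ideal -/
def Z0 : Set (Set ℕ) :=
  {A | Tendsto (fun n : ℕ => ((A ∩ Set.Iio n).ncard : ℝ) / (n : ℝ)) atTop (𝓝 0)}

open Classical in
/-- number of elements of `A` in the block `[2^m, 2^(m+1))` -/
noncomputable def blk (A : Set ℕ) (m : ℕ) : ℕ :=
  ((Finset.range (2 ^ m)).filter (fun t => 2 ^ m + t ∈ A)).card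

open Classical in
theorem blk_mono {A B : Set ℕ} {m : ℕ} (h : ∀ t, 2 ^ m + t ∈ A → t < 2 ^ m → 2 ^ m + t ∈ B) :
    blk A m ≤ blk B m := by
  unfold blk
  apply Finset.card_le_card
  intro t ht
  rw [Finset.mem_filter, Finset.mem_range] at ht ⊢
  exact ⟨ht.1, h t ht.2 ht.1⟩

open Classical in
theorem blk_le (A : Set ℕ) (m : ℕ) : blk A m ≤ 2 ^ m := by
  unfold blk
  refine (Finset.card_filter_le _ _).trans ?_
  rw [Finset.card_range]

theorem mem_Z0_iff (A : Set ℕ) : A ∈ Z0 ↔ ∀ D : ℕ, ∀ᶠ m in atTop, D * blk A m < 2 ^ m := by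
  classical
  have h0 : A ∈ Z0 ↔ Tendsto (fun k : ℕ => (blk A k : ℝ) / 2 ^ k) atTop (𝓝 0) := by
    have h1 := Pool.Agent.Results.MP_8a0632_lc.NotErdosUlam.mem_densityZero_iff A
    have h2 : ∀ k, Pool.Agent.Results.MP_8a0632_lc.NotErdosUlam.blk A k = blk A k := by
      intro k
      unfold Pool.Agent.Results.MP_8a0632_lc.NotErdosUlam.blk blk
      rw [Nat.count_eq_card_filter_range]
    simp only [h2] at h1
    exact h1
  rw [h0]
  constructor
  · intro h D
    have hpos : (0 : ℝ) < 1 / ((D : ℝ) + 1) := by positivity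
    filter_upwards [h.eventually (gt_mem_nhds hpos)] with m hm
    have h2 : (0 : ℝ) < 2 ^ m := by positivity
    rw [div_lt_div_iff₀ h2 (by positivity)] at hm
    have h3 : (D : ℝ) * blk A m < 2 ^ m := by
      have : (0 : ℝ) ≤ blk A m := Nat.cast_nonneg _
      nlinarith
    exact_mod_cast h3
  · intro h
    rw [Metric.tendsto_atTop]
    intro ε hε
    obtain ⟨D, hD⟩ := exists_nat_gt (1 / ε)
    obtain ⟨N, hN⟩ := eventually_atTop.1 (h D)
    refine ⟨N, fun m hm => ?_⟩
    have h2 : (0 : ℝ) < 2 ^ m := by positivity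
    rw [Real.dist_eq, sub_zero, abs_of_nonneg (by positivity), div_lt_iff₀ h2]
    have h3 : (D : ℝ) * blk A m < 2 ^ m := by exact_mod_cast hN m hm
    have hDpos : (0 : ℝ) < D := lt_trans (by positivity) hD
    rw [div_lt_iff₀ hε] at hD
    have h4 : (D : ℝ) * blk A m < D * (ε * 2 ^ m) := by nlinarith
    exact lt_of_mul_lt_mul_left h4 hDpos.le

theorem notMem_Z0_iff (A : Set ℕ) : A ∉ Z0 ↔ ∃ D : ℕ, ∃ᶠ m in atTop, 2 ^ m ≤ D * blk A m := by
  rw [mem_Z0_iff]
  push Not
  rfl

/-! ### pairs -/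

/-- the pairs of `z` -/
noncomputable def pr (z : Set ℕ) (i : ℕ) : ℕ × ℕ := (en z (2 * i), en z (2 * i + 1))

theorem pr_lt {z : Set ℕ} (hz : z.Infinite) (i : ℕ) : (pr z i).1 < (pr z i).2 :=
  en_strictMono hz (by omega)

theorem pr_lt' {z : Set ℕ} (hz : z.Infinite) {i j : ℕ} (h : i < j) : (pr z i).2 < (pr z j).1 :=
  en_strictMono hz (by omega)

theorem pr_mem {z : Set ℕ} (hz : z.Infinite) (i : ℕ) : (pr z i).1 ∈ z ∧ (pr z i).2 ∈ z :=
  ⟨en_mem hz _, en_mem hz _⟩

theorem pr_injective {z : Set ℕ} (hz : z.Infinite) : Function.Injective (pr z) := by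
  intro i j h
  have h1 := congrArg Prod.fst h
  have := (en_strictMono hz).injective h1
  omega

theorem le_pr {z : Set ℕ} (hz : z.Infinite) (i : ℕ) : i ≤ (pr z i).1 := by
  have := (en_strictMono hz).id_le (2 * i)
  simp only [id] at this
  show i ≤ en z (2 * i)
  omega

theorem sub_of_pr {z Y : Set ℕ} (hz : z.Infinite)
    (h : ∀ k, (pr z k).1 ∈ Y ∧ (pr z k).2 ∈ Y) : z ⊆ Y := by
  intro n hn
  rw [← range_en hz] at hn
  obtain ⟨j, rfl⟩ := hn
  rcases Nat.even_or_odd' j with ⟨k, rfl | rfl⟩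
  · exact (h k).1
  · exact (h k).2

theorem builder (R : ℕ → ℕ × ℕ → Prop)
    (h : ∀ k n, ∃ q : ℕ × ℕ, n < q.1 ∧ q.1 < q.2 ∧ R k q) :
    ∃ z : Set ℕ, z.Infinite ∧ ∀ k, R k (pr z k) := by
  choose P hP1 hP2 hP3 using h
  let s : ℕ → ℕ × ℕ := fun k => Nat.rec (P 0 0) (fun k p => P (k + 1) p.2) k
  have hs : ∀ k, s (k + 1) = P (k + 1) (s k).2 := fun k => rfl
  have hs' : ∀ k, ∃ n, s k = P k n := by
    intro k
    cases k with
    | zero => exact ⟨0, rfl⟩
    | succ k => exact ⟨_, rfl⟩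
  set f : ℕ → ℕ := fun i => if i % 2 = 0 then (s (i / 2)).1 else (s (i / 2)).2 with hf
  have he : ∀ k, f (2 * k) = (s k).1 := by
    intro k
    have h1 : 2 * k % 2 = 0 := by omega
    have h2 : 2 * k / 2 = k := by omega
    simp only [hf, h1, h2, if_true]
  have ho : ∀ k, f (2 * k + 1) = (s k).2 := by
    intro k
    have h1 : (2 * k + 1) % 2 = 1 := by omega
    have h2 : (2 * k + 1) / 2 = k := by omega
    simp [hf, h1, h2]
  have hm : StrictMono f := by
    refine strictMono_nat_of_lt_succ fun i => ?_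
    rcases Nat.even_or_odd' i with ⟨k, hk | hk⟩
    · rw [hk, he, ho]
      obtain ⟨n, hn⟩ := hs' k
      rw [hn]
      exact hP2 k n
    · rw [hk, ho, show 2 * k + 1 + 1 = 2 * (k + 1) by ring, he, hs]
      exact hP1 _ _
  refine ⟨Set.range f, Set.infinite_range_of_injective hm.injective, fun k => ?_⟩
  have h1 : pr (Set.range f) k = s k := by
    unfold pr
    rw [en_range hm, he, ho]
  rw [h1]
  obtain ⟨n, hn⟩ := hs' k
  rw [hn]
  exact hP3 k n

/-- passing to infinitely many pairs -/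
theorem exists_sub {z : Set ℕ} (hz : z.Infinite) {Q : Set ℕ} (hQ : Q.Infinite) :
    ∃ z', z'.Infinite ∧ z' ⊆ z ∧ ∀ k, ∃ j ∈ Q, pr z' k = pr z j := by
  obtain ⟨z', h1, h2⟩ := builder (fun _ q => ∃ j ∈ Q, q = pr z j) (by
    intro k n
    obtain ⟨j, hj, hnj⟩ := hQ.exists_gt n
    have := le_pr hz j
    exact ⟨pr z j, by omega, pr_lt hz j, j, hj, rfl⟩)
  refine ⟨z', h1, sub_of_pr h1 fun k => ?_, h2⟩
  obtain ⟨j, _, hj⟩ := h2 k
  rw [hj]
  exact pr_mem hz j

theorem pr_tl {z : Set ℕ} (hz : z.Infinite) (j i : ℕ) : pr (tl z j) i = pr z (j + i) := by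
  unfold pr
  rw [en_tl hz]
  have h1 : 2 * j + 2 * i = 2 * (j + i) := by ring
  have h2 : 2 * j + (2 * i + 1) = 2 * (j + i) + 1 := by ring
  simp only [h1, h2]

section good

variable (Af : ℕ → Set ℕ) (mm : ℕ → ℕ → ℕ)

/-- the set `y` contains a substantial part of the piece given by `q` -/
def Good (D : ℕ) (y : Set ℕ) (q : ℕ × ℕ) : Prop :=
  2 ^ (mm q.1 q.2) ≤ D * blk (y ∩ Af q.1) (mm q.1 q.2)

/-- almost all pieces of `z` are good for `y` -/
def AG (D : ℕ) (y : Set ℕ) (z : Set ℕ) : Prop := {i | ¬ Good Af mm D y (pr z i)}.Finite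

theorem AG_sub {D : ℕ} {y z z' : Set ℕ} (hz' : z'.Infinite)
    (h : ∀ k, ∃ j, pr z' k = pr z j) (hy : AG Af mm D y z) : AG Af mm D y z' := by
  choose j hj using h
  have hinj : Function.Injective j := by
    intro a b hab
    apply pr_injective hz'
    rw [hj a, hj b, hab]
  have h1 : {k | ¬ Good Af mm D y (pr z' k)} = j ⁻¹' {i | ¬ Good Af mm D y (pr z i)} := by
    ext k
    simp only [mem_ofPred_eq, mem_preimage]
    rw [hj k]
  unfold AG
  rw [h1]
  exact Set.Finite.preimage hinj.injOn hy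

theorem AG_tl {D : ℕ} {y z : Set ℕ} (hz : z.Infinite) (j : ℕ) :
    AG Af mm D y (tl z j) ↔ AG Af mm D y z := by
  constructor
  · intro h
    have h1 : {i | ¬ Good Af mm D y (pr z i)} ⊆
        Set.Iio j ∪ (fun i => j + i) '' {i | ¬ Good Af mm D y (pr (tl z j) i)} := by
      intro i hi
      by_cases hij : i < j
      · left; exact hij
      · right
        refine ⟨i - j, ?_, by show j + (i - j) = i; omega⟩
        show ¬ Good Af mm D y (pr (tl z j) (i - j))
        rw [pr_tl hz]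
        have : j + (i - j) = i := by omega
        rw [this]
        exact hi
    exact ((Set.finite_Iio j).union (h.image _)).subset h1
  · intro h
    exact AG_sub Af mm (tl_infinite hz j) (fun k => ⟨j + k, pr_tl hz j k⟩) h

/-- the set coded by a point of Cantor space -/
def toSet (a : ℕ → Bool) : Set ℕ := {n | a n = true}

variable (g : (ℕ → ℕ) → (ℕ → Bool))

/-- the sets to which the Ramsey property is applied -/
def PD (D : ℕ) : Set (Set ℕ) := {z | ∃ x, AG Af mm D (toSet (g x)) z}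

theorem PD_tl (D : ℕ) (z : Set ℕ) (j : ℕ) (hz : z.Infinite) :
    tl z j ∈ PD Af mm g D ↔ z ∈ PD Af mm g D := by
  constructor
  · rintro ⟨x, hx⟩
    exact ⟨x, (AG_tl Af mm hz j).1 hx⟩
  · rintro ⟨x, hx⟩
    exact ⟨x, (AG_tl Af mm hz j).2 hx⟩

theorem good_congr {D : ℕ} {a b : ℕ → Bool} {q : ℕ × ℕ}
    (h : ∀ n < 2 ^ (mm q.1 q.2 + 1), a n = b n) (hb : Good Af mm D (toSet b) q) :
    Good Af mm D (toSet a) q := by
  unfold Good at hb ⊢
  have h1 : blk (toSet a ∩ Af q.1) (mm q.1 q.2) = blk (toSet b ∩ Af q.1) (mm q.1 q.2) := by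
    have key : ∀ t, t < 2 ^ (mm q.1 q.2) → (2 ^ (mm q.1 q.2) + t ∈ toSet a ↔
        2 ^ (mm q.1 q.2) + t ∈ toSet b) := by
      intro t ht
      have := h (2 ^ (mm q.1 q.2) + t) (by rw [pow_succ]; omega)
      show a _ = true ↔ b _ = true
      rw [this]
    apply le_antisymm
    · exact blk_mono fun t ht htl => ⟨(key t htl).1 ht.1, ht.2⟩
    · exact blk_mono fun t ht htl => ⟨(key t htl).2 ht.1, ht.2⟩
  rw [h1]
  exact hb

theorem cr_PD (hg : Continuous g) (D : ℕ) : CR (PD Af mm g D) := by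
  classical
  let C : List ℕ → Set (Set ℕ) := fun p =>
    {z | ∃ x', (∀ j v, p[j + 1]? = some v → x' j = v) ∧
      ∀ v, p[0]? = some v → ∀ i, v ≤ i → i < p.length → Good Af mm D (toSet (g x')) (pr z i)}
  have hC : ∀ p, EO (C p)ᶜ := by
    intro p z hz hzi
    obtain ⟨u, hu1, hu2, hu3, -⟩ := exists_init hzi (en z (2 * p.length) + 1) 0
    refine ⟨u, hu1, fun w hw hwC => hz ?_⟩
    have hcon : ∀ n < en z (2 * p.length) + 1, (n ∈ z ↔ n ∈ w) := by
      intro n hn
      constructor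
      · intro h
        exact hw.2.1 n (hu2 n h hn)
      · intro h
        rcases hw.2.2 n h with h' | h'
        · exact hu3 n h'
        · exact h'.1
    have hen : ∀ j, j < 2 * p.length → en w j = en z j := by
      intro j hj
      have h1 := en_strictMono hzi hj
      exact en_congr hzi hcon (by omega) rfl
    obtain ⟨x', hx1, hx2⟩ := hwC
    refine ⟨x', hx1, fun v hv i hvi hi => ?_⟩
    have h1 := hx2 v hv i hvi hi
    have h2 : pr w i = pr z i := by
      unfold pr
      rw [hen _ (by omega), hen _ (by omega)]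
    rwa [h2] at h1
  have heq : PD Af mm g D = Sou C := by
    ext z
    constructor
    · rintro ⟨x, hx⟩
      obtain ⟨N, hN⟩ := hx.bddAbove
      refine ⟨fun i => Nat.casesOn i (N + 1) x, fun k => ⟨x, ?_, ?_⟩⟩
      · intro j v hv
        rw [pre_getElem] at hv
        exact hv.2
      · intro v hv i hvi _
        rw [pre_getElem] at hv
        have h2 : N + 1 = v := hv.2
        by_contra hcon
        have := hN hcon
        omega
    · rintro ⟨f, hf⟩
      set x : ℕ → ℕ := fun j => f (j + 1) with hx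
      have h1 : ∀ k, ∃ x', (∀ j, j + 1 < k → x' j = x j) ∧
          ∀ i, 0 < k → f 0 ≤ i → i < k → Good Af mm D (toSet (g x')) (pr z i) := by
        intro k
        obtain ⟨x', h2, h3⟩ := hf k
        refine ⟨x', fun j hj => h2 j _ ((pre_getElem f k (j + 1) _).2 ⟨hj, rfl⟩), ?_⟩
        intro i hk hi1 hi2
        exact h3 (f 0) ((pre_getElem f k 0 _).2 ⟨hk, rfl⟩) i hi1 (by rw [length_pre]; exact hi2)
      choose x' h2 h3 using h1
      have hlim : Filter.Tendsto x' Filter.atTop (nhds x) := by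
        rw [tendsto_pi_nhds]
        intro i
        refine tendsto_const_nhds.congr' ?_
        filter_upwards [Filter.eventually_gt_atTop (i + 1)] with k hk
        exact (h2 k i hk).symm
      have hlim2 : Filter.Tendsto (fun k => g (x' k)) Filter.atTop (nhds (g x)) :=
        (hg.tendsto x).comp hlim
      rw [tendsto_pi_nhds] at hlim2
      have hev : ∀ n, ∀ᶠ k in Filter.atTop, g (x' k) n = g x n := by
        intro n
        have := hlim2 n
        rw [nhds_discrete] at this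
        exact Filter.tendsto_pure.1 this
      refine ⟨x, (Set.finite_Iio (f 0)).subset ?_⟩
      intro i hi
      by_contra hcon
      apply hi
      have hcon' : f 0 ≤ i := not_lt.1 hcon
      have hev2 : ∀ᶠ k in Filter.atTop, ∀ n ∈ Finset.range (2 ^ (mm (pr z i).1 (pr z i).2 + 1)),
          g (x' k) n = g x n := (Finset.eventually_all _).2 (fun n _ => hev n)
      obtain ⟨k, hk1, hk2⟩ := (hev2.and (Filter.eventually_gt_atTop i)).exists
      refine good_congr Af mm (fun n hn => (hk1 n (Finset.mem_range.2 hn)).symm) ?_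
      exact h3 k i (by omega) hcon' hk2
  rw [heq]
  exact cr_sou C hC

end good

end Pool.Agent.R610.Z0Mad
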