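import Pool.Agent.R610.Z0Base

set_option autoImplicit false

open Set Filter Topology

namespace Pool.Agent.R610.Z0Mad

open Pool.Agent.H38R3.Ell Pool.Agent.H38R3.Mad

/-- maximal almost disjoint families modulo an ideal -/
structure IsMAD (I : Set (Set ℕ)) (𝒜 : Set (Set ℕ)) : Prop where
  pos : ∀ A ∈ 𝒜, A ∉ I
  ad : ∀ A ∈ 𝒜, ∀ B ∈ 𝒜, A ≠ B → A ∩ B ∈ I
  max : ∀ X : Set ℕ, X ∉ I → ∃ A ∈ 𝒜, X ∩ A ∉ I

theorem exists_sparse (mm : ℕ → ℕ → ℕ) : ∃ X0 : Set ℕ, X0.Infinite ∧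
    ∀ a ∈ X0, ∀ b ∈ X0, ∀ c ∈ X0, a < b → b < c → mm a b < c := by
  let f : ℕ → ℕ := fun k => Nat.rec 0 (fun _ p => p + 1 +
    ∑ a ∈ Finset.range (p + 1), ∑ b ∈ Finset.range (p + 1), mm a b) k
  have hf : ∀ k, f (k + 1) = f k + 1 +
      ∑ a ∈ Finset.range (f k + 1), ∑ b ∈ Finset.range (f k + 1), mm a b := fun k => rfl
  have hmono : StrictMono f := strictMono_nat_of_lt_succ (fun k => by rw [hf]; omega)
  refine ⟨Set.range f, Set.infinite_range_of_injective hmono.injective, ?_⟩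
  rintro _ ⟨i, rfl⟩ _ ⟨j, rfl⟩ _ ⟨k, rfl⟩ hij hjk
  have h1 : j + 1 ≤ k := hmono.lt_iff_lt.1 hjk
  have h2 : f (j + 1) ≤ f k := hmono.monotone h1
  have h3 : mm (f i) (f j) ≤
      ∑ a ∈ Finset.range (f j + 1), ∑ b ∈ Finset.range (f j + 1), mm a b := by
    refine le_trans ?_ (Finset.single_le_sum
      (f := fun a => ∑ b ∈ Finset.range (f j + 1), mm a b) (fun _ _ => Nat.zero_le _)
      (Finset.mem_range.2 (show f i < f j + 1 by omega)))
    exact Finset.single_le_sum (f := fun b => mm (f i) b) (fun _ _ => Nat.zero_le _)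
      (Finset.mem_range.2 (show f j < f j + 1 by omega))
  rw [hf] at h2
  omega

theorem blk_eq_sum (y : Set ℕ) (m : ℕ) :
    blk y m = ∑ t ∈ Finset.range (2 ^ m), y.indicator (fun _ => 1) (2 ^ m + t) := by
  classical
  unfold blk
  rw [Finset.card_filter]
  apply Finset.sum_congr rfl
  intro t _
  by_cases h : 2 ^ m + t ∈ y
  · rw [if_pos h, Set.indicator_of_mem h]
  · rw [if_neg h, Set.indicator_of_notMem h]

theorem blk_pos {y : Set ℕ} {m : ℕ} (h : 0 < blk y m) : ∃ t < 2 ^ m, 2 ^ m + t ∈ y := by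
  by_contra hcon
  push Not at hcon
  rw [blk_eq_sum] at h
  have : ∑ t ∈ Finset.range (2 ^ m), y.indicator (fun _ => 1) (2 ^ m + t) = 0 := by
    apply Finset.sum_eq_zero
    intro t ht
    rw [Set.indicator_of_notMem (hcon t (Finset.mem_range.1 ht))]
  omega

/-- double counting at a point -/
theorem point_le (T : Finset (Set ℕ)) (B : Set ℕ) (n : ℕ) :
    ∑ y ∈ T, (y ∩ B).indicator (fun _ => 1) n ≤
      1 + ∑ q ∈ T.offDiag, (q.1 ∩ q.2).indicator (fun _ => 1) n := by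
  classical
  have hsum : ∀ {α : Type} (s : Finset α) (P : α → Set ℕ),
      ∑ a ∈ s, (P a).indicator (fun _ => 1) n = (s.filter (fun a => n ∈ P a)).card := by
    intro α s P
    rw [Finset.card_filter]
    apply Finset.sum_congr rfl
    intro a _
    by_cases h : n ∈ P a
    · rw [if_pos h, Set.indicator_of_mem h]
    · rw [if_neg h, Set.indicator_of_notMem h]
  rw [hsum T (fun y => y ∩ B), hsum T.offDiag (fun q => q.1 ∩ q.2)]
  have h2 : (T.filter (fun y => n ∈ y ∩ B)).card ≤ (T.filter (fun y => n ∈ y)).card := by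
    apply Finset.card_le_card
    intro y hy
    rw [Finset.mem_filter] at hy ⊢
    exact ⟨hy.1, hy.2.1⟩
  have h3 : ((T.filter (fun y => n ∈ y)).offDiag).card ≤
      (T.offDiag.filter (fun q => n ∈ q.1 ∩ q.2)).card := by
    apply Finset.card_le_card
    intro q hq
    rw [Finset.mem_offDiag, Finset.mem_filter, Finset.mem_filter] at hq
    rw [Finset.mem_filter, Finset.mem_offDiag]
    exact ⟨⟨hq.1.1, hq.2.1.1, hq.2.2⟩, hq.1.2, hq.2.1.2⟩
  rw [Finset.offDiag_card] at h3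
  have h4 : (T.filter (fun y => n ∈ y)).card ≤ 1 + ((T.filter (fun y => n ∈ y)).card *
      (T.filter (fun y => n ∈ y)).card - (T.filter (fun y => n ∈ y)).card) := by
    generalize (T.filter (fun y => n ∈ y)).card = k
    rcases Nat.lt_or_ge k 2 with hk | hk
    · omega
    · have : k * 2 ≤ k * k := Nat.mul_le_mul_left k hk
      omega
  have h5 := h2.trans (h4.trans (Nat.add_le_add_left h3 1))
  refine le_trans (le_of_eq ?_) (h5.trans (le_of_eq ?_))
  · congr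
  · congr

/-- double counting -/
theorem sum_blk_le (T : Finset (Set ℕ)) (B : Set ℕ) (m : ℕ) :
    ∑ y ∈ T, blk (y ∩ B) m ≤ 2 ^ m + ∑ q ∈ T.offDiag, blk (q.1 ∩ q.2) m := by
  calc ∑ y ∈ T, blk (y ∩ B) m
      = ∑ y ∈ T, ∑ t ∈ Finset.range (2 ^ m), (y ∩ B).indicator (fun _ => 1) (2 ^ m + t) :=
        Finset.sum_congr rfl (fun y _ => blk_eq_sum _ _)
    _ = ∑ t ∈ Finset.range (2 ^ m), ∑ y ∈ T, (y ∩ B).indicator (fun _ => 1) (2 ^ m + t) :=
        Finset.sum_comm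
    _ ≤ ∑ t ∈ Finset.range (2 ^ m),
        (1 + ∑ q ∈ T.offDiag, (q.1 ∩ q.2).indicator (fun _ => 1) (2 ^ m + t)) :=
        Finset.sum_le_sum (fun t _ => point_le T B _)
    _ = 2 ^ m + ∑ t ∈ Finset.range (2 ^ m), ∑ q ∈ T.offDiag,
        (q.1 ∩ q.2).indicator (fun _ => 1) (2 ^ m + t) := by
        rw [Finset.sum_add_distrib]
        simp
    _ = 2 ^ m + ∑ q ∈ T.offDiag, ∑ t ∈ Finset.range (2 ^ m),
        (q.1 ∩ q.2).indicator (fun _ => 1) (2 ^ m + t) := by
        rw [Finset.sum_comm]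
    _ = 2 ^ m + ∑ q ∈ T.offDiag, blk (q.1 ∩ q.2) m := by
        congr 1
        exact Finset.sum_congr rfl (fun q _ => (blk_eq_sum _ _).symm)

theorem block_unique {m m' t t' : ℕ} (ht : t < 2 ^ m) (ht' : t' < 2 ^ m')
    (h : 2 ^ m + t = 2 ^ m' + t') : m = m' := by
  rcases lt_trichotomy m m' with hlt | heq | hgt
  · have : 2 ^ (m + 1) ≤ 2 ^ m' := Nat.pow_le_pow_right (by norm_num) hlt
    rw [pow_succ] at this
    omega
  · exact heq
  · have : 2 ^ (m' + 1) ≤ 2 ^ m := Nat.pow_le_pow_right (by norm_num) hgt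
    rw [pow_succ] at this
    omega

/-- Only finitely many members have upper density bounded from below. -/
theorem finite_big {g : (ℕ → ℕ) → (ℕ → Bool)} (hg : Continuous g) {𝒜 : Set (Set ℕ)}
    (hr : ∀ A, A ∈ 𝒜 ↔ ∃ x, toSet (g x) = A) (hmad : IsMAD Z0 𝒜) (K : ℕ) :
    {A ∈ 𝒜 | ∃ᶠ m in atTop, 2 ^ m ≤ K * blk A m}.Finite := by
  classical
  by_contra hinf
  have hinf' : {A ∈ 𝒜 | ∃ᶠ m in atTop, 2 ^ m ≤ K * blk A m}.Infinite := hinf
  set e := hinf'.natEmbedding with he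
  set Af : ℕ → Set ℕ := fun n => (e n : Set ℕ) with hAf
  have hAf_inj : Function.Injective Af := fun i j hij => e.injective (Subtype.ext hij)
  have hAf_mem : ∀ n, Af n ∈ 𝒜 := fun n => (e n).2.1
  have hAf_big : ∀ n, ∃ᶠ m in atTop, 2 ^ m ≤ K * blk (Af n) m := fun n => (e n).2.2
  have h1 : ∀ n p, ∃ m, p ≤ m ∧ 2 ^ m ≤ K * blk (Af n) m := by
    intro n p
    obtain ⟨m, hm1, hm2⟩ := (frequently_atTop.1 (hAf_big n)) p
    exact ⟨m, hm1, hm2⟩
  choose mm hmm1 hmm2 using h1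
  obtain ⟨X0, hX0, hX0s⟩ := exists_sparse mm
  obtain ⟨Y, hYX, hYi, hhom⟩ := exists_hom (S := fun D => PD Af mm g D)
    (fun D => cr_PD Af mm g hg D) (fun D z j hz => PD_tl Af mm g D z j hz) hX0
  -- the index of the block of a pair
  let mi : Set ℕ → ℕ → ℕ := fun z i => mm (pr z i).1 (pr z i).2
  have hmi_ge : ∀ z, z.Infinite → ∀ i, i ≤ mi z i := by
    intro z hz i
    have h2 := le_pr hz i
    have h3 := pr_lt hz i
    have h4 := hmm1 (pr z i).1 (pr z i).2
    show i ≤ mm (pr z i).1 (pr z i).2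
    omega
  have hmi_mono : ∀ z ⊆ Y, z.Infinite → StrictMono (mi z) := by
    intro z hzY hz i j hij
    have h2 : mm (pr z i).1 (pr z i).2 < (pr z j).1 :=
      hX0s _ (hYX (hzY (pr_mem hz i).1)) _ (hYX (hzY (pr_mem hz i).2)) _
        (hYX (hzY (pr_mem hz j).1)) (pr_lt hz i) (pr_lt' hz hij)
    have h3 := pr_lt hz j
    have h4 := hmm1 (pr z j).1 (pr z j).2
    show mm (pr z i).1 (pr z i).2 < mm (pr z j).1 (pr z j).2
    omega
  -- Claim A
  have hA : ∃ D, ∀ z ⊆ Y, z.Infinite → z ∈ PD Af mm g D := by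
    let zt : Set ℕ := {x | ∃ i t, t < 2 ^ (mi Y i) ∧ x = 2 ^ (mi Y i) + t ∧ x ∈ Af (pr Y i).1}
    have hzt : zt ∉ Z0 := by
      rw [notMem_Z0_iff]
      refine ⟨K, frequently_atTop.2 fun N => ⟨mi Y N, hmi_ge Y hYi N, ?_⟩⟩
      refine (hmm2 (pr Y N).1 (pr Y N).2).trans (Nat.mul_le_mul_left K ?_)
      apply blk_mono
      intro t ht htl
      exact ⟨N, t, htl, rfl, ht⟩
    obtain ⟨A, hA𝒜, hAz⟩ := hmad.max zt hzt
    rw [notMem_Z0_iff] at hAz
    obtain ⟨D, hD⟩ := hAz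
    have hQ : {i | Good Af mm D A (pr Y i)}.Infinite := by
      intro hfin
      obtain ⟨N, hN⟩ := hfin.bddAbove
      obtain ⟨m, hm1, hm2⟩ := (frequently_atTop.1 hD) (mi Y N + 1)
      have hpos : 0 < blk (zt ∩ A) m := by
        by_contra h0
        have h3 : blk (zt ∩ A) m = 0 := by omega
        rw [h3, mul_zero] at hm2
        have : 0 < 2 ^ m := by positivity
        omega
      obtain ⟨t, ht, ⟨i, t', ht'1, ht'2, _⟩, _⟩ := blk_pos hpos
      have hmi : m = mi Y i := block_unique ht ht'1 ht'2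
      have hgood : Good Af mm D A (pr Y i) := by
        show 2 ^ (mi Y i) ≤ D * blk (A ∩ Af (pr Y i).1) (mi Y i)
        rw [← hmi]
        refine hm2.trans (Nat.mul_le_mul_left D ?_)
        apply blk_mono
        rintro s ⟨⟨j, s', hs'1, hs'2, hs'3⟩, hsA⟩ hs
        have hmj : m = mi Y j := block_unique hs hs'1 hs'2
        have hij : i = j := (hmi_mono Y le_rfl hYi).injective (hmi.symm.trans hmj)
        rw [hij]
        exact ⟨hsA, hs'3⟩
      have hiN : i ≤ N := hN hgood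
      have := (hmi_mono Y le_rfl hYi).monotone hiN
      omega
    obtain ⟨z', hz'1, hz'2, hz'3⟩ := exists_sub hYi hQ
    refine ⟨D, ?_⟩
    rcases hhom D with h | h
    · exact h
    · exfalso
      apply h z' hz'2 hz'1
      obtain ⟨x, hx⟩ := (hr A).1 hA𝒜
      refine ⟨x, ?_⟩
      unfold AG
      have hemp : {i | ¬ Good Af mm D (toSet (g x)) (pr z' i)} = ∅ := by
        rw [Set.eq_empty_iff_forall_notMem]
        intro k hk
        obtain ⟨j, hj, hjk⟩ := hz'3 k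
        apply hk
        rw [hjk, hx]
        exact hj
      rw [hemp]
      exact Set.finite_empty
  obtain ⟨D, hD⟩ := hA
  let M : Set ℕ → Set (Set ℕ) := fun z => {A | A ∈ 𝒜 ∧ AG Af mm D A z}
  -- Claim B
  have hB : ∀ z, z.Infinite → ∀ T : Finset (Set ℕ), (↑T : Set (Set ℕ)) ⊆ M z → T.card ≤ D := by
    intro z hz T hT
    by_contra hcon
    rw [not_le] at hcon
    obtain ⟨T', hT'T, hT'c⟩ := Finset.exists_subset_card_eq (show D + 1 ≤ T.card by omega)
    set N := D * (D + 1) ^ 2 + 1 with hN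
    have he1 : ∀ᶠ i in atTop, ∀ y ∈ T', Good Af mm D y (pr z i) := by
      rw [Finset.eventually_all]
      intro y hy
      have h2 : AG Af mm D y z := (hT (hT'T hy)).2
      obtain ⟨N', hN'⟩ := h2.bddAbove
      filter_upwards [eventually_gt_atTop N'] with i hi
      by_contra h3
      have := hN' h3
      omega
    have he2 : ∀ᶠ i in atTop, ∀ q ∈ T'.offDiag, N * blk (q.1 ∩ q.2) (mi z i) < 2 ^ (mi z i) := by
      rw [Finset.eventually_all]
      intro q hq
      rw [Finset.mem_offDiag] at hq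
      have h2 : q.1 ∩ q.2 ∈ Z0 :=
        hmad.ad _ (hT (hT'T hq.1)).1 _ (hT (hT'T hq.2.1)).1 hq.2.2
      obtain ⟨m0, hm0⟩ := eventually_atTop.1 ((mem_Z0_iff _).1 h2 N)
      filter_upwards [eventually_ge_atTop m0] with i hi
      exact hm0 _ (hi.trans (hmi_ge z hz i))
    obtain ⟨i, hi1, hi2⟩ := (he1.and he2).exists
    have h3 := sum_blk_le T' (Af (pr z i).1) (mi z i)
    have h4 : (D + 1) * 2 ^ (mi z i) ≤ D * ∑ y ∈ T', blk (y ∩ Af (pr z i).1) (mi z i) := by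
      rw [Finset.mul_sum, ← hT'c, ← smul_eq_mul, ← Finset.sum_const]
      exact Finset.sum_le_sum (fun y hy => hi1 y hy)
    have h5 : N * ∑ q ∈ T'.offDiag, blk (q.1 ∩ q.2) (mi z i) ≤ (D + 1) ^ 2 * 2 ^ (mi z i) := by
      rw [Finset.mul_sum]
      calc ∑ q ∈ T'.offDiag, N * blk (q.1 ∩ q.2) (mi z i)
          ≤ ∑ q ∈ T'.offDiag, 2 ^ (mi z i) := Finset.sum_le_sum (fun q hq => (hi2 q hq).le)
        _ = T'.offDiag.card * 2 ^ (mi z i) := by rw [Finset.sum_const, smul_eq_mul]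
        _ ≤ (D + 1) ^ 2 * 2 ^ (mi z i) := by
            apply Nat.mul_le_mul_right
            rw [Finset.offDiag_card, hT'c, pow_two]
            exact Nat.sub_le _ _
    generalize ∑ q ∈ T'.offDiag, blk (q.1 ∩ q.2) (mi z i) = S2 at h3 h5
    generalize ∑ y ∈ T', blk (y ∩ Af (pr z i).1) (mi z i) = S1 at h3 h4
    have hp : 0 < 2 ^ (mi z i) := by positivity
    generalize 2 ^ (mi z i) = W at h3 h4 h5 hp
    have h6 : N * ((D + 1) * W) ≤ N * (D * (W + S2)) :=
      Nat.mul_le_mul_left N (h4.trans (Nat.mul_le_mul_left D h3))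
    have h7 : N * (D * (W + S2)) = N * D * W + D * (N * S2) := by ring
    have h8 : D * (N * S2) ≤ D * ((D + 1) ^ 2 * W) := Nat.mul_le_mul_left D h5
    have h9 : N * ((D + 1) * W) = N * D * W + N * W := by ring
    have h10 : N * W ≤ D * ((D + 1) ^ 2 * W) := by omega
    have h11 : N * W = D * ((D + 1) ^ 2 * W) + W := by rw [hN]; ring
    omega
  have hBfin : ∀ z, z.Infinite → (M z).Finite ∧ (M z).ncard ≤ D := by
    intro z hz
    have hfin : (M z).Finite := by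
      by_contra hinf2
      obtain ⟨T, hT1, hT2⟩ := Set.Infinite.exists_subset_card_eq hinf2 (D + 1)
      have := hB z hz T hT1
      omega
    refine ⟨hfin, ?_⟩
    rw [Set.ncard_eq_toFinset_card _ hfin]
    apply hB z hz
    rw [Set.Finite.coe_toFinset]
  -- Claim C
  obtain ⟨zs, hzsY, hzs, hzmax⟩ : ∃ z ⊆ Y, z.Infinite ∧
      ∀ z' ⊆ Y, z'.Infinite → (M z').ncard ≤ (M z).ncard := by
    let s : Set ℕ := {n | ∃ z ⊆ Y, z.Infinite ∧ (M z).ncard = n}
    have hsne : s.Nonempty := ⟨_, Y, le_rfl, hYi, rfl⟩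
    have hsb : BddAbove s := ⟨D, by rintro n ⟨z, _, hz, rfl⟩; exact (hBfin z hz).2⟩
    obtain ⟨z, hzY, hz, hzn⟩ := Nat.sSup_mem hsne hsb
    refine ⟨z, hzY, hz, fun z' hz'Y hz' => ?_⟩
    rw [hzn]
    exact le_csSup hsb ⟨z', hz'Y, hz', rfl⟩
  -- Claim E
  have hE : ∀ w ⊆ Y, w.Infinite → ∃ A ∈ M zs, {i | Good Af mm D A (pr w i)}.Infinite := by
    intro w hwY hw
    obtain ⟨u, hu, hup⟩ := builder (fun k q => if k % 2 = 0 then ∃ j, q = pr zs j else
        ∃ j, q = pr w j) (by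
      intro k n
      by_cases hk : k % 2 = 0
      · refine ⟨pr zs (n + 1), ?_, pr_lt hzs _, ?_⟩
        · have := le_pr hzs (n + 1); omega
        · rw [if_pos hk]; exact ⟨n + 1, rfl⟩
      · refine ⟨pr w (n + 1), ?_, pr_lt hw _, ?_⟩
        · have := le_pr hw (n + 1); omega
        · rw [if_neg hk]; exact ⟨n + 1, rfl⟩)
    have hue : ∀ k, k % 2 = 0 → ∃ j, pr u k = pr zs j := fun k hk => by
      have := hup k
      rwa [if_pos hk] at this
    have huo : ∀ k, ¬ k % 2 = 0 → ∃ j, pr u k = pr w j := fun k hk => by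
      have := hup k
      rwa [if_neg hk] at this
    have huY : u ⊆ Y := by
      apply sub_of_pr hu
      intro k
      by_cases hk : k % 2 = 0
      · obtain ⟨j, hj⟩ := hue k hk
        rw [hj]
        exact ⟨hzsY (pr_mem hzs j).1, hzsY (pr_mem hzs j).2⟩
      · obtain ⟨j, hj⟩ := huo k hk
        rw [hj]
        exact ⟨hwY (pr_mem hw j).1, hwY (pr_mem hw j).2⟩
    obtain ⟨x, hx⟩ := hD u huY hu
    have hxA : toSet (g x) ∈ 𝒜 := (hr _).2 ⟨x, rfl⟩
    have hev : {k : ℕ | k % 2 = 0}.Infinite := by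
      apply Set.infinite_of_forall_exists_gt
      intro a
      exact ⟨2 * a + 2, by show (2 * a + 2) % 2 = 0; omega, by omega⟩
    obtain ⟨z', hz'1, hz'2, hz'3⟩ := exists_sub hu hev
    have hz'Y : z' ⊆ Y := hz'2.trans huY
    have hsub1 : M zs ⊆ M z' := by
      rintro A ⟨hA1, hA2⟩
      refine ⟨hA1, AG_sub Af mm hz'1 (fun k => ?_) hA2⟩
      obtain ⟨j, hj, hjk⟩ := hz'3 k
      obtain ⟨j', hj'⟩ := hue j hj
      exact ⟨j', hjk.trans hj'⟩
    have heq : M zs = M z' :=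
      Set.eq_of_subset_of_ncard_le hsub1 (hzmax z' hz'Y hz'1) (hBfin z' hz'1).1
    refine ⟨toSet (g x), ?_, ?_⟩
    · rw [heq]
      refine ⟨hxA, AG_sub Af mm hz'1 (fun k => ?_) hx⟩
      obtain ⟨j, _, hjk⟩ := hz'3 k
      exact ⟨j, hjk⟩
    · have hodd : ({k : ℕ | ¬ k % 2 = 0} \
          {k | ¬ Good Af mm D (toSet (g x)) (pr u k)}).Infinite := by
        apply Set.Infinite.sdiff _ hx
        apply Set.infinite_of_forall_exists_gt
        intro a
        exact ⟨2 * a + 1, by show ¬ (2 * a + 1) % 2 = 0; omega, by omega⟩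
      choose! j hj using huo
      have hjinj : Set.InjOn j ({k : ℕ | ¬ k % 2 = 0} \
          {k | ¬ Good Af mm D (toSet (g x)) (pr u k)}) := by
        intro a ha b hb hab
        apply pr_injective hu
        rw [hj a ha.1, hj b hb.1, hab]
      refine (hodd.image hjinj).mono ?_
      rintro _ ⟨k, ⟨hk1, hk2⟩, rfl⟩
      show Good Af mm D (toSet (g x)) (pr w (j k))
      rw [← hj k hk1]
      exact not_not.1 hk2
  -- Claim F
  have hMfin := (hBfin zs hzs).1
  obtain ⟨w, hw, hwp⟩ := builder (fun _ q => q.1 ∈ Y ∧ q.2 ∈ Y ∧ ∀ A ∈ M zs, ¬ Good Af mm D A q) (by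
    intro k n
    have hfin2 : {a | Af a ∈ M zs}.Finite := hMfin.preimage hAf_inj.injOn
    obtain ⟨a, ⟨haY, haM⟩, hna⟩ := (hYi.sdiff hfin2).exists_gt n
    have hev : ∀ᶠ m in atTop, ∀ A ∈ hMfin.toFinset, D * blk (A ∩ Af a) m < 2 ^ m := by
      rw [Finset.eventually_all]
      intro A hA
      have hAM : A ∈ M zs := hMfin.mem_toFinset.1 hA
      have hne : A ≠ Af a := fun h => haM (by show Af a ∈ M zs; rw [← h]; exact hAM)
      exact (mem_Z0_iff _).1 (hmad.ad A hAM.1 (Af a) (hAf_mem a) hne) D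
    obtain ⟨m0, hm0⟩ := eventually_atTop.1 hev
    obtain ⟨b, hbY, hb⟩ := hYi.exists_gt (max a m0)
    refine ⟨(a, b), hna, lt_of_le_of_lt (le_max_left _ _) hb, haY, hbY, ?_⟩
    intro A hA hgood
    have h2 : m0 ≤ mm a b := by
      have h3 := hmm1 a b
      have h4 := lt_of_le_of_lt (le_max_right a m0) hb
      omega
    have h5 := hm0 (mm a b) h2 A (hMfin.mem_toFinset.2 hA)
    have h6 : 2 ^ (mm a b) ≤ D * blk (A ∩ Af a) (mm a b) := hgood
    omega)
  have hwY : w ⊆ Y := sub_of_pr hw (fun k => ⟨(hwp k).1, (hwp k).2.1⟩)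
  obtain ⟨A, hA1, hA2⟩ := hE w hwY hw
  obtain ⟨i, hi⟩ := hA2.nonempty
  exact (hwp i).2.2 A hA1 hi

end Pool.Agent.R610.Z0Mad
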